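import Mathlib

set_option autoImplicit false
set_option linter.unusedSectionVars false

/-!
MP_22db8c_al, bounded degree: the alternating group on `2 m + 1` points generated by a product of two
`m`-cycles and a three-cycle.
-/

namespace Pool.MP_22db8c_al.BD

open Equiv

section gen

variable {Ω : Type} [DecidableEq Ω]

/-- product of two transpositions through the point `p` -/
def ss (p u v : Ω) : Perm Ω := swap p u * swap p v

theorem ss_self (p u : Ω) : ss p u u = 1 := by
  rw [ss, swap_mul_self]

theorem ss_inv (p u v : Ω) : (ss p u v)⁻¹ = ss p v u := by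
  rw [ss, ss, mul_inv_rev, swap_inv, swap_inv]

theorem ss_trans (p u v w : Ω) : ss p u v * ss p v w = ss p u w := by
  rw [ss, ss, ss, mul_assoc, ← mul_assoc (swap p v), swap_mul_self, one_mul]

theorem ss_conj (p u v : Ω) (g : Perm Ω) : g * ss p u v * g⁻¹ = swap (g p) (g u) * swap (g p) (g v) := by
  rw [swap_apply_apply, swap_apply_apply, ss]
  group

/-- the key computation -/
theorem ss_key (H : Subgroup (Perm Ω)) (p u v x y : Ω) (hpu : p ≠ u) (hpv : p ≠ v) 
    (hpy : p ≠ y) (huv : u ≠ v) (hux : u ≠ x) (huy : u ≠ y) (hvx : v ≠ x) (hvy : v ≠ y)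
    (hxy : x ≠ y) (h1 : ss p u v ∈ H) (h2 : ss p x y ∈ H) : ss p u y ∈ H := by
  have h3 := H.mul_mem (H.mul_mem h2 h1) (H.inv_mem h2)
  rw [ss_conj] at h3
  have e1 : ss p x y p = y := by
    rw [ss, Perm.mul_apply, swap_apply_left, swap_apply_of_ne_of_ne hpy.symm hxy.symm]
  have e2 : ss p x y u = u := by
    rw [ss, Perm.mul_apply, swap_apply_of_ne_of_ne hpu.symm huy,
      swap_apply_of_ne_of_ne hpu.symm hux]
  have e3 : ss p x y v = v := by
    rw [ss, Perm.mul_apply, swap_apply_of_ne_of_ne hpv.symm hvy,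
      swap_apply_of_ne_of_ne hpv.symm hvx]
  rw [e1, e2, e3] at h3
  have h4 := H.mul_mem (H.mul_mem h1 h3) (H.inv_mem h1)
  have h5 : ss p u v * (swap y u * swap y v) * (ss p u v)⁻¹ =
      swap (ss p u v y) (ss p u v u) * swap (ss p u v y) (ss p u v v) := ss_conj y u v _
  rw [h5] at h4
  have f1 : ss p u v y = y := by
    rw [ss, Perm.mul_apply, swap_apply_of_ne_of_ne hpy.symm hvy.symm,
      swap_apply_of_ne_of_ne hpy.symm huy.symm]
  have f2 : ss p u v u = p := by
    rw [ss, Perm.mul_apply, swap_apply_of_ne_of_ne hpu.symm huv, swap_apply_right]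
  have f3 : ss p u v v = u := by
    rw [ss, Perm.mul_apply, swap_apply_right, swap_apply_left]
  rw [f1, f2, f3] at h4
  have h6 : swap y p * swap y u = swap p u * swap p y := by
    have h7 := swap_apply_apply (swap y p) y u
    rw [swap_apply_left, swap_apply_of_ne_of_ne huy hpu.symm, swap_inv] at h7
    rw [h7, swap_comm p y, mul_assoc, swap_mul_self, mul_one]
  rw [h6] at h4
  exact h4

theorem alt_le [Fintype Ω] (H : Subgroup (Perm Ω)) (hH : H ≤ alternatingGroup Ω) (p u₀ : Ω)
    (hpu₀ : p ≠ u₀) (hs : ∀ u v : Ω, p ≠ u → p ≠ v → ss p u v ∈ H) :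
    alternatingGroup Ω ≤ H := by
  have hA : ∀ x y : Ω, x ≠ y → swap p u₀ * swap x y ∈ H := by
    intro x y hxy
    by_cases hx : p = x
    · subst hx
      exact hs u₀ y hpu₀ hxy
    · by_cases hy : p = y
      · subst hy
        rw [swap_comm x p]
        exact hs u₀ x hpu₀ hx
      · have h1 : swap x y = swap p x * swap p y * swap p x := by
          have h2 := swap_apply_apply (swap p x) p y
          rw [swap_apply_left, swap_apply_of_ne_of_ne (Ne.symm hy) hxy.symm, swap_inv] at h2
          exact h2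
        rw [h1, mul_assoc, ← mul_assoc (swap p u₀)]
        exact H.mul_mem (hs u₀ x hpu₀ hx) (hs y x hy hx)
  have hB : ∀ σ : Perm Ω, σ ∈ H ∨ swap p u₀ * σ ∈ H := by
    intro σ
    induction σ using Perm.swap_induction_on with
    | one => left; exact H.one_mem
    | swap_mul f x y hxy ih =>
      rcases ih with h | h
      · right
        rw [← mul_assoc]
        exact H.mul_mem (hA x y hxy) h
      · left
        have h1 := H.mul_mem (H.inv_mem (hA x y hxy)) h
        rw [mul_inv_rev, swap_inv, swap_inv, mul_assoc, ← mul_assoc (swap p u₀), swap_mul_self,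
          one_mul] at h1
        exact h1
  intro σ hσ
  rcases hB σ with h | h
  · exact h
  · exfalso
    have h1 := hH h
    rw [Perm.mem_alternatingGroup] at h1 hσ
    rw [map_mul, hσ, mul_one, Perm.sign_swap hpu₀] at h1
    exact absurd h1 (by decide)

end gen

section omega

variable (m : ℕ) [NeZero m]

/-- the points -/
abbrev Om : Type := Option (ZMod m ⊕ ZMod m)

/-- doubling of permutations -/
def emb : Perm (ZMod m) →* Perm (Om m) where
  toFun σ := optionCongr (sumCongr σ σ)
  map_one' := by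
    ext x : 1
    rcases x with _ | x | x <;> rfl
  map_mul' := by
    intro σ τ
    ext x : 1
    rcases x with _ | x | x <;> rfl

theorem emb_none (σ : Perm (ZMod m)) : emb m σ none = none := rfl
theorem emb_inl (σ : Perm (ZMod m)) (k : ZMod m) : emb m σ (some (Sum.inl k)) =
    some (Sum.inl (σ k)) := rfl
theorem emb_inr (σ : Perm (ZMod m)) (k : ZMod m) : emb m σ (some (Sum.inr k)) =
    some (Sum.inr (σ k)) := rfl

theorem emb_sign (σ : Perm (ZMod m)) : Perm.sign (emb m σ) = 1 := by
  change Perm.sign (optionCongr (sumCongr σ σ)) = 1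
  rw [optionCongr_sign, Perm.sign_sumCongr]
  exact Int.units_mul_self _

theorem emb_inj : Function.Injective (emb m) := by
  intro σ τ h
  ext k : 1
  have h1 := congrArg (fun f : Perm (Om m) => f (some (Sum.inl k))) h
  have h2 : some (Sum.inl (β := ZMod m) (σ k)) = some (Sum.inl (τ k)) := h1
  exact Sum.inl.inj (Option.some.inj h2)

/-- the product of two cycles -/
def pa : Perm (Om m) := emb m (Equiv.addRight 1)

/-- the three-cycle -/
def pb : Perm (Om m) := ss none (some (Sum.inl 0)) (some (Sum.inr 0))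

theorem pa_pow (n : ℕ) : pa m ^ n = emb m (Equiv.addRight (n : ZMod m)) := by
  rw [pa, ← map_pow]
  congr 1
  ext k : 1
  induction n with
  | zero => simp
  | succ n ih =>
    rw [pow_succ', Perm.mul_apply, ih]
    simp [add_assoc]

theorem pa_ord (n : ℕ) (h : pa m ^ n = 1) : m ∣ n := by
  rw [pa_pow, ← map_one (emb m)] at h
  have h1 := emb_inj m h
  have h2 := congrArg (fun f : Perm (ZMod m) => f 0) h1
  have h3 : (0 : ZMod m) + (n : ZMod m) = 0 := h2
  rw [zero_add] at h3
  exact (ZMod.natCast_eq_zero_iff n m).1 h3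

theorem pa_mem : pa m ∈ alternatingGroup (Om m) := by
  rw [Perm.mem_alternatingGroup]
  exact emb_sign m _

theorem pb_mem : pb m ∈ alternatingGroup (Om m) := by
  rw [Perm.mem_alternatingGroup, pb, ss, map_mul, Perm.sign_swap (by simp), Perm.sign_swap (by simp)]
  rfl

theorem closure_eq : Subgroup.closure {pa m, pb m} = alternatingGroup (Om m) := by
  apply le_antisymm
  · rw [Subgroup.closure_le]
    rintro x (rfl | rfl)
    · exact pa_mem m
    · exact pb_mem m
  · have hle : Subgroup.closure {pa m, pb m} ≤ alternatingGroup (Om m) := by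
      rw [Subgroup.closure_le]
      rintro x (rfl | rfl)
      · exact pa_mem m
      · exact pb_mem m
    have ha : pa m ∈ Subgroup.closure {pa m, pb m} := Subgroup.subset_closure (by simp)
    have hb : pb m ∈ Subgroup.closure {pa m, pb m} := Subgroup.subset_closure (by simp)
    have hk : ∀ k : ZMod m, ss none (some (Sum.inl k)) (some (Sum.inr k)) ∈
        Subgroup.closure {pa m, pb m} := by
      intro k
      have h1 := Subgroup.mul_mem _ (Subgroup.mul_mem _ (Subgroup.pow_mem _ ha k.val) hb)
        (Subgroup.inv_mem _ (Subgroup.pow_mem _ ha k.val))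
      rw [pb, ss_conj, pa_pow, emb_none, emb_inl, emb_inr] at h1
      have h2 : (Equiv.addRight ((k.val : ℕ) : ZMod m)) (0 : ZMod m) = k := by
        change (0 : ZMod m) + ((k.val : ℕ) : ZMod m) = k
        rw [zero_add]
        exact ZMod.natCast_zmod_val k
      rw [h2] at h1
      exact h1
    have hij : ∀ i j : ZMod m, ss none (some (Sum.inl i)) (some (Sum.inr j)) ∈
        Subgroup.closure {pa m, pb m} := by
      intro i j
      by_cases h : i = j
      · rw [h]
        exact hk j
      · exact ss_key _ none (some (Sum.inl i)) (some (Sum.inr i)) (some (Sum.inl j))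
          (some (Sum.inr j)) (by simp) (by simp) (by simp) (by simp) (by simpa using h)
          (by simp) (by simp) (by simpa using h) (by simp) (hk i) (hk j)
    have h0 : ∀ u : Om m, none ≠ u → ss none u (some (Sum.inr 0)) ∈
        Subgroup.closure {pa m, pb m} := by
      intro u hu
      rcases u with _ | i | j
      · exact absurd rfl hu
      · exact hij i 0
      · have h1 := hij 0 j
        have h2 := Subgroup.inv_mem _ h1
        rw [ss_inv] at h2
        have h3 := Subgroup.mul_mem _ h2 (hij 0 0)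
        rw [ss_trans] at h3
        exact h3
    refine alt_le _ hle none (some (Sum.inr 0)) (by simp) ?_
    intro u v hu hv
    have h1 := Subgroup.inv_mem _ (h0 v hv)
    rw [ss_inv] at h1
    have h2 := Subgroup.mul_mem _ (h0 u hu) h1
    rw [ss_trans] at h2
    exact h2

/-- the homomorphism onto the alternating group -/
def phi : FreeGroup (Fin 2) →* alternatingGroup (Om m) :=
  FreeGroup.lift ![⟨pa m, pa_mem m⟩, ⟨pb m, pb_mem m⟩]

theorem phi_surj : Function.Surjective (phi m) := by
  have h1 : ((alternatingGroup (Om m)).subtype.comp (phi m)).range = alternatingGroup (Om m) := by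
    have h2 : (alternatingGroup (Om m)).subtype.comp (phi m) = FreeGroup.lift ![pa m, pb m] := by
      apply FreeGroup.ext_hom
      intro i
      fin_cases i <;> simp [phi]
    rw [h2, FreeGroup.range_lift_eq_closure, ← closure_eq]
    congr 1
    rw [Matrix.range_cons, Matrix.range_cons, Matrix.range_empty, Set.union_empty]
    rfl
  intro g
  have h2 : (g : Perm (Om m)) ∈ ((alternatingGroup (Om m)).subtype.comp (phi m)).range := by
    rw [h1]
    exact g.2
  obtain ⟨w, hw⟩ := h2
  exact ⟨w, Subtype.ext hw⟩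

theorem phi_ord (n : ℕ) (h : phi m (FreeGroup.of 0) ^ n = 1) : m ∣ n := by
  apply pa_ord
  have h1 := congrArg Subtype.val h
  simp only [phi, FreeGroup.lift_apply_of] at h1
  exact h1

/-- the homomorphism with large orders -/
def phi' : FreeGroup (Fin 2) →* alternatingGroup (Om m) :=
  FreeGroup.lift ![⟨pa m, pa_mem m⟩, ⟨pb m, pb_mem m⟩ * ⟨pa m, pa_mem m⟩ ^ 3]

theorem phi'_0 : phi' m (FreeGroup.of 0) = ⟨pa m, pa_mem m⟩ := by simp [phi']
theorem phi'_1 : phi' m (FreeGroup.of 1) = ⟨pb m, pb_mem m⟩ * ⟨pa m, pa_mem m⟩ ^ 3 := by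
  simp [phi']

theorem phi'_surj : Function.Surjective (phi' m) := by
  intro g
  obtain ⟨w, rfl⟩ := phi_surj m g
  have h : (phi' m).comp (FreeGroup.lift ![FreeGroup.of 0, FreeGroup.of 1 *
      (FreeGroup.of 0 ^ 3)⁻¹]) = phi m := by
    apply FreeGroup.ext_hom
    intro i
    fin_cases i
    · change phi' m (FreeGroup.lift ![FreeGroup.of 0, FreeGroup.of 1 *
        (FreeGroup.of 0 ^ 3)⁻¹] (FreeGroup.of 0)) = phi m (FreeGroup.of 0)
      rw [FreeGroup.lift_apply_of]
      change phi' m (FreeGroup.of 0) = phi m (FreeGroup.of 0)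
      rw [phi'_0]
      simp [phi]
    · change phi' m (FreeGroup.lift ![FreeGroup.of 0, FreeGroup.of 1 *
        (FreeGroup.of 0 ^ 3)⁻¹] (FreeGroup.of 1)) = phi m (FreeGroup.of 1)
      rw [FreeGroup.lift_apply_of]
      change phi' m (FreeGroup.of 1 * (FreeGroup.of 0 ^ 3)⁻¹) = phi m (FreeGroup.of 1)
      rw [map_mul, map_inv, map_pow, phi'_0, phi'_1, mul_inv_cancel_right]
      simp [phi]
  exact ⟨_, DFunLike.congr_fun h w⟩

theorem phi'_ord0 (n : ℕ) (h : phi' m (FreeGroup.of 0) ^ n = 1) : m ∣ n := by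
  apply pa_ord
  rw [phi'_0] at h
  exact congrArg Subtype.val h

/-- `b a ^ j` translates the points `1 + j x` of the first cycle -/
theorem walk (j : ℕ) (hj : j ∣ m) (hj2 : 2 ≤ j) (n : ℕ) :
    ((pb m * pa m ^ j) ^ n) (some (Sum.inl 1)) = some (Sum.inl (1 + ((j * n : ℕ) : ZMod m))) := by
  induction n with
  | zero => simp
  | succ n ih =>
    rw [pow_succ', Perm.mul_apply, ih, Perm.mul_apply, pa_pow, emb_inl]
    have h1 : (Equiv.addRight ((j : ℕ) : ZMod m)) (1 + ((j * n : ℕ) : ZMod m)) =
        1 + ((j * (n + 1) : ℕ) : ZMod m) := by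
      change (1 + ((j * n : ℕ) : ZMod m)) + (j : ZMod m) = _
      push_cast
      ring
    rw [h1]
    have h2 : (1 + ((j * (n + 1) : ℕ) : ZMod m)) ≠ 0 := by
      intro h
      have h3 : ((1 + j * (n + 1) : ℕ) : ZMod m) = 0 := by
        push_cast
        push_cast at h
        exact h
      rw [ZMod.natCast_eq_zero_iff] at h3
      have h4 : j ∣ 1 + j * (n + 1) := hj.trans h3
      have h5 : j ∣ 1 := (Nat.dvd_add_left (Dvd.intro _ rfl)).1 h4
      have h6 := Nat.le_of_dvd one_pos h5
      omega
    have e1 : swap (none : Om m) (some (Sum.inr 0)) (some (Sum.inl (1 + ((j * (n + 1) : ℕ) : ZMod m))))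
        = some (Sum.inl (1 + ((j * (n + 1) : ℕ) : ZMod m))) :=
      swap_apply_of_ne_of_ne (by simp) (by simp)
    have e2 : swap (none : Om m) (some (Sum.inl 0)) (some (Sum.inl (1 + ((j * (n + 1) : ℕ) : ZMod m))))
        = some (Sum.inl (1 + ((j * (n + 1) : ℕ) : ZMod m))) := by
      apply swap_apply_of_ne_of_ne (by simp)
      intro h
      exact h2 (Sum.inl.inj (Option.some.inj h))
    rw [pb, ss, Perm.mul_apply, e1, e2]

theorem walk_ord (j : ℕ) (hj : j ∣ m) (hj2 : 2 ≤ j) (n : ℕ) (h : (pb m * pa m ^ j) ^ n = 1) :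
    m ∣ j * n := by
  have h1 := walk m j hj hj2 n
  rw [h, Perm.one_apply] at h1
  have h2 : (1 : ZMod m) = 1 + ((j * n : ℕ) : ZMod m) := Sum.inl.inj (Option.some.inj h1)
  have h3 : ((j * n : ℕ) : ZMod m) = 0 := by
    rw [left_eq_add] at h2
    exact h2
  exact (ZMod.natCast_eq_zero_iff _ m).1 h3

theorem phi'_ord1 (hm : 3 ∣ m) (n : ℕ) (h : phi' m (FreeGroup.of 1) ^ n = 1) : m ∣ 3 * n := by
  apply walk_ord m 3 hm (by norm_num)
  rw [phi'_1] at h
  exact congrArg Subtype.val h

theorem phi'_ord2 (hm : 2 ∣ m) (n : ℕ)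
    (h : phi' m (FreeGroup.of 0 * (FreeGroup.of 1)⁻¹) ^ n = 1) : m ∣ 2 * n := by
  apply walk_ord m 2 hm le_rfl
  rw [map_mul, map_inv, phi'_0, phi'_1] at h
  have h1 : ∀ (a b : alternatingGroup (Om m)), (a * (b * a ^ 3)⁻¹) ^ n = 1 →
      (b * a ^ 2) ^ n = 1 := by
    intro a b hab
    have e : a * (b * a ^ 3)⁻¹ = (b * a ^ 2)⁻¹ := by group
    rw [e, inv_pow, inv_eq_one] at hab
    exact hab
  exact congrArg Subtype.val (h1 _ _ h)

theorem om_card : Nat.card (Om m) = 2 * m + 1 := by
  have : Nat.card (ZMod m) = m := Nat.card_zmod m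
  rw [Finite.card_option, Nat.card_sum, this]
  omega

theorem alt_simple (hm : 2 ≤ m) : IsSimpleGroup (alternatingGroup (Om m)) :=
  alternatingGroup.isSimpleGroup (by rw [om_card]; omega)

theorem alt_na (hm : 2 ≤ m) : ∃ a b : alternatingGroup (Om m), a * b ≠ b * a := by
  by_contra hcon
  push Not at hcon
  have hs := alt_simple m hm
  have h1 : Subgroup.center (alternatingGroup (Om m)) = ⊥ :=
    alternatingGroup.center_eq_bot (by rw [om_card]; omega)
  have h2 : Subgroup.center (alternatingGroup (Om m)) = ⊤ := by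
    rw [eq_top_iff]
    intro g _
    rw [Subgroup.mem_center_iff]
    intro h
    exact hcon h g
  rw [h1] at h2
  exact bot_ne_top h2

/-- small groups embed -/
theorem small_embed (L : Type) [Group L] [Finite L] (hL : Nat.card L ≤ m) :
    ∃ f : L →* alternatingGroup (Om m), Function.Injective f := by
  have : Fintype L := Fintype.ofFinite L
  have h1 : Nonempty (L ↪ ZMod m) := by
    apply Function.Embedding.nonempty_of_card_le
    rw [ZMod.card, ← Nat.card_eq_fintype_card]
    exact hL
  obtain ⟨ι⟩ := h1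
  let g : L →* Perm (Om m) := (emb m).comp ((Perm.viaEmbeddingHom ι).comp (MulAction.toPermHom L L))
  have hg : Function.Injective g := by
    intro x y h
    exact MulAction.toPerm_injective (Perm.viaEmbeddingHom_injective ι (emb_inj m h))
  refine ⟨g.codRestrict (alternatingGroup (Om m)) (fun x => ?_), ?_⟩
  · rw [Perm.mem_alternatingGroup]
    exact emb_sign m _
  · intro x y h
    exact hg (congrArg Subtype.val h)

theorem small_sub (L : Type) [Group L] [Finite L] (hL : Nat.card L ≤ m) (p d : ℕ)
    (hp : IsPGroup p L) (hd : derivedSeries L d ≠ ⊥) :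
    ∃ M : Subgroup (alternatingGroup (Om m)), IsPGroup p M ∧ derivedSeries M d ≠ ⊥ := by
  obtain ⟨f, hf⟩ := small_embed m L hL
  refine ⟨f.range, hp.of_surjective f.rangeRestrict f.rangeRestrict_surjective, ?_⟩
  rw [← map_derivedSeries_eq f.rangeRestrict_surjective]
  intro h
  apply hd
  rw [Subgroup.map_eq_bot_iff_of_injective] at h
  · exact h
  · exact MonoidHom.rangeRestrict_injective_iff.2 hf

end omega

end Pool.MP_22db8c_al.BD
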