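import Mathlib

set_option autoImplicit false

/-!
MP_22db8c_al, bounded degree: the derived length of a finite linear `p`-group of degree `d` over a
field of characteristic different from `p` is at most `d`.
-/

namespace Pool.MP_22db8c_al.BD

open scoped commutatorElement

theorem dS_sub {P : Type*} [Group P] (P₀ : Subgroup P) (h : derivedSeries P 1 ≤ P₀) (n : ℕ) :
    derivedSeries P (n + 1) ≤ (derivedSeries P₀ n).map P₀.subtype := by
  induction n with
  | zero =>
    rw [derivedSeries_zero, ← MonoidHom.range_eq_map, Subgroup.range_subtype]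
    exact h
  | succ n ih =>
    rw [derivedSeries_succ P, derivedSeries_succ P₀, Subgroup.map_commutator]
    exact Subgroup.commutator_mono ih ih

/-- in a nonabelian finite `p`-group image there is an element which is central modulo the centre
but not central -/
theorem ex_second {P : Type*} [Group P] [Finite P] {p : ℕ} [Fact p.Prime] (hP : IsPGroup p P)
    {M : Type*} [Monoid M] (ρ : P →* M) (hna : ¬ ∀ x y : P, ρ x * ρ y = ρ y * ρ x) :
    ∃ a : P, (∃ x, ρ a * ρ x ≠ ρ x * ρ a) ∧ ∀ x y : P, ρ (a * x * a⁻¹ * x⁻¹) * ρ y =
      ρ y * ρ (a * x * a⁻¹ * x⁻¹) := by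
  let Q := P ⧸ ρ.ker
  let π : P →* Q := QuotientGroup.mk' ρ.ker
  have hπ : Function.Surjective π := QuotientGroup.mk'_surjective _
  have heq : ∀ x y : P, π x = π y ↔ ρ x = ρ y := by
    intro x y
    change (x : Q) = (y : Q) ↔ _
    rw [QuotientGroup.eq, MonoidHom.mem_ker]
    constructor
    · intro h
      have : ρ (x * (x⁻¹ * y)) = ρ x * 1 := by rw [map_mul, h]
      rw [mul_inv_cancel_left, mul_one] at this
      exact this.symm
    · intro h
      rw [map_mul, ← h, ← map_mul, inv_mul_cancel, map_one]
  have hcomm : ∀ x y : P, π x * π y = π y * π x ↔ ρ x * ρ y = ρ y * ρ x := by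
    intro x y
    rw [← map_mul, ← map_mul, ← map_mul, ← map_mul, heq]
  have hQ : IsPGroup p Q := hP.to_quotient _
  have hcen : Subgroup.center Q ≠ ⊤ := by
    intro h
    apply hna
    intro x y
    rw [← hcomm]
    have h1 : π y ∈ Subgroup.center Q := by rw [h]; trivial
    rw [Subgroup.mem_center_iff] at h1
    exact h1 _
  have hQ2 : IsPGroup p (Q ⧸ Subgroup.center Q) := hQ.to_quotient _
  have hnt : Nontrivial (Q ⧸ Subgroup.center Q) := by
    rw [← not_subsingleton_iff_nontrivial]
    intro h
    exact hcen (QuotientGroup.subgroup_eq_top_of_subsingleton _ h)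
  have hfin : Finite Q := inferInstance
  have hnt2 := hQ2.center_nontrivial
  obtain ⟨⟨c, hc⟩, hc1⟩ := exists_ne (1 : Subgroup.center (Q ⧸ Subgroup.center Q))
  obtain ⟨b, rfl⟩ := QuotientGroup.mk'_surjective _ c
  obtain ⟨a, rfl⟩ := hπ b
  refine ⟨a, ?_, ?_⟩
  · by_contra hcon
    push Not at hcon
    apply hc1
    apply Subtype.ext
    change ((π a : Q) : Q ⧸ Subgroup.center Q) = 1
    rw [QuotientGroup.eq_one_iff, Subgroup.mem_center_iff]
    intro y
    obtain ⟨x, rfl⟩ := hπ y
    rw [hcomm]
    exact (hcon x).symm
  · intro x y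
    rw [← hcomm]
    have h1 : π (a * x * a⁻¹ * x⁻¹) ∈ Subgroup.center Q := by
      rw [← QuotientGroup.eq_one_iff]
      rw [Subgroup.mem_center_iff] at hc
      have h2 := hc ((π x : Q) : Q ⧸ Subgroup.center Q)
      change ((π x : Q) : Q ⧸ Subgroup.center Q) * ((π a : Q) : Q ⧸ Subgroup.center Q) =
        ((π a : Q) : Q ⧸ Subgroup.center Q) * ((π x : Q) : Q ⧸ Subgroup.center Q) at h2
      rw [map_mul, map_mul, map_mul, map_inv, map_inv]
      change ((π a : Q) : Q ⧸ Subgroup.center Q) * ((π x : Q) : Q ⧸ Subgroup.center Q) *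
        ((π a : Q) : Q ⧸ Subgroup.center Q)⁻¹ * ((π x : Q) : Q ⧸ Subgroup.center Q)⁻¹ = 1
      rw [← h2]
      group
    rw [Subgroup.mem_center_iff] at h1
    exact (h1 _).symm

theorem lemT (K : Type*) [Field K] [IsAlgClosed K] (p : ℕ) [Fact p.Prime] (hp : (p : K) ≠ 0) :
    ∀ (d : ℕ) (P : Type) [Group P] [Finite P] (_ : IsPGroup p P) (V : Type) [AddCommGroup V]
      [Module K V] [FiniteDimensional K V] (_ : Module.finrank K V ≤ d)
      (ρ : P →* Module.End K V), ∀ g ∈ derivedSeries P d, ρ g = 1 := by
  intro d
  induction d with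
  | zero =>
    intro P _ _ _ V _ _ _ hd ρ g _
    have h1 : Subsingleton V := Module.finrank_zero_iff.1 (Nat.le_zero.1 hd)
    ext v
    exact Subsingleton.elim _ _
  | succ d ih =>
    intro P _ _ hP V _ _ _ hd ρ
    by_cases hna : ∀ x y : P, ρ x * ρ y = ρ y * ρ x
    · intro g hg
      have h1 : derivedSeries P 1 ≤ ρ.ker := by
        rw [derivedSeries_succ, derivedSeries_zero, Subgroup.commutator_le]
        intro x _ y _
        rw [MonoidHom.mem_ker, commutatorElement_def, map_mul, map_mul, map_mul, hna x y,
          mul_assoc (ρ y), ← map_mul ρ x, mul_inv_cancel, map_one, mul_one, ← map_mul,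
          mul_inv_cancel, map_one]
      exact h1 (derivedSeries_antitone P (by omega) hg)
    · obtain ⟨a, ⟨x₀, hx₀⟩, hcen⟩ := ex_second hP ρ hna
      -- the centraliser
      let χ : P →* Module.End K V :=
        { toFun := fun x => ρ (a * x * a⁻¹ * x⁻¹)
          map_one' := by simp
          map_mul' := by
            intro x y
            have h1 : a * (x * y) * a⁻¹ * (x * y)⁻¹ =
              (a * x * a⁻¹ * x⁻¹) * (x * (a * y * a⁻¹ * y⁻¹) * x⁻¹) := by group
            change ρ (a * (x * y) * a⁻¹ * (x * y)⁻¹) = ρ (a * x * a⁻¹ * x⁻¹) * ρ (a * y * a⁻¹ * y⁻¹)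
            rw [h1, map_mul ρ (a * x * a⁻¹ * x⁻¹)]
            congr 1
            rw [map_mul, map_mul, ← hcen y x, mul_assoc, ← map_mul, mul_inv_cancel, map_one,
              mul_one] }
      have hχ : ∀ x, χ x = ρ (a * x * a⁻¹ * x⁻¹) := fun x => rfl
      have hχc : ∀ x, χ x = 1 → ρ a * ρ x = ρ x * ρ a := by
        intro x hx
        have h1 : a * x = (a * x * a⁻¹ * x⁻¹) * (x * a) := by group
        rw [← map_mul, h1, map_mul, ← hχ, hx, one_mul, map_mul]
      have hP1 : derivedSeries P 1 ≤ χ.ker := by
        rw [derivedSeries_succ, derivedSeries_zero, Subgroup.commutator_le]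
        intro x _ y _
        rw [MonoidHom.mem_ker, commutatorElement_def, map_mul, map_mul, map_mul]
        have h1 : χ x * χ y = χ y * χ x := by
          rw [hχ x, hχ y]
          exact hcen x _
        rw [h1, mul_assoc (χ y), ← map_mul χ x, mul_inv_cancel, map_one, mul_one, ← map_mul,
          mul_inv_cancel, map_one]
      -- an eigenvalue
      have hnt : Nontrivial V := by
        by_contra h
        rw [not_nontrivial_iff_subsingleton] at h
        apply hx₀
        ext v
        exact Subsingleton.elim _ _
      obtain ⟨c, hc⟩ := Module.End.exists_eigenvalue (ρ a)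
      let g : Module.End K V := ρ a - algebraMap K (Module.End K V) c
      have hg : ∀ v, g v = ρ a v - c • v := fun v => by
        simp [g]
      have hgc : ∀ x : P, χ x = 1 → ∀ v, g (ρ x v) = ρ x (g v) := by
        intro x hx v
        rw [hg, hg, map_sub, map_smul, ← Module.End.mul_apply, hχc x hx, Module.End.mul_apply]
      have hfg : ∀ v, ρ a v = c • v + g v := fun v => by rw [hg]; abel
      let N := Nat.card P
      have hN : (N : K) ≠ 0 := by
        obtain ⟨k, hk⟩ := IsPGroup.iff_card.1 hP
        change ((Nat.card P : ℕ) : K) ≠ 0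
        rw [hk, Nat.cast_pow]
        exact pow_ne_zero _ hp
      have haN : (ρ a) ^ N = 1 := by
        rw [← map_pow]
        have : a ^ N = 1 := pow_card_eq_one'
        rw [this, map_one]
      have hss : ∀ w, g (g w) = 0 → g w = 0 := by
        intro w hw
        by_contra hv
        have e1 : ∀ n : ℕ, ((ρ a) ^ n) (g w) = (c ^ n) • g w := by
          intro n
          induction n with
          | zero => simp
          | succ n ihn =>
            rw [pow_succ', Module.End.mul_apply, ihn, map_smul, hfg, hw, add_zero, smul_smul,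
              pow_succ]
        have e2 : c ^ N = 1 := by
          have h1 := e1 N
          rw [haN, Module.End.one_apply] at h1
          have h2 : (c ^ N - 1) • g w = 0 := by rw [sub_smul, one_smul, ← h1, sub_self]
          rcases smul_eq_zero.1 h2 with h3 | h3
          · exact sub_eq_zero.1 h3
          · exact absurd h3 hv
        have e3 : ∀ n : ℕ, c • ((ρ a) ^ n) w = (c ^ (n + 1)) • w + ((n : K) * c ^ n) • g w := by
          intro n
          induction n with
          | zero => simp
          | succ n ihn =>
            rw [pow_succ' (ρ a), Module.End.mul_apply, ← map_smul, ihn, map_add, map_smul, map_smul,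
              hfg w, hfg (g w), hw, add_zero, smul_add, smul_smul, smul_smul, add_assoc,
              ← add_smul]
            congr 2
            · ring
            · push_cast
              ring
        have e4 := e3 N
        rw [haN, Module.End.one_apply, pow_succ, e2, one_mul, mul_one] at e4
        have e5 : (N : K) • g w = 0 := by
          have := e4
          rw [left_eq_add] at this
          exact this
        rcases smul_eq_zero.1 e5 with h3 | h3
        · exact hN h3
        · exact hv h3
      let V₁ : Submodule K V := LinearMap.ker g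
      let V₂ : Submodule K V := LinearMap.range g
      have hV₁0 : V₁ ≠ ⊥ := by
        obtain ⟨v, hv⟩ := hc.exists_hasEigenvector
        intro h
        apply hv.2
        have h1 : v ∈ V₁ := by
          change g v = 0
          rw [hg, hv.apply_eq_smul, sub_self]
        rw [h] at h1
        exact (Submodule.mem_bot K).1 h1
      have hV₁t : V₁ ≠ ⊤ := by
        intro h
        apply hx₀
        have h1 : ∀ v, ρ a v = c • v := by
          intro v
          have : v ∈ V₁ := by rw [h]; trivial
          have h2 : g v = 0 := this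
          rw [hfg, h2, add_zero]
        ext v
        rw [Module.End.mul_apply, Module.End.mul_apply, h1, h1, map_smul]
      have hdim : Module.finrank K V₂ + Module.finrank K V₁ = Module.finrank K V :=
        LinearMap.finrank_range_add_finrank_ker g
      have hd1 : Module.finrank K V₁ < Module.finrank K V := Submodule.finrank_lt hV₁t
      have hd10 : 0 < Module.finrank K V₁ := by
        rw [Nat.pos_iff_ne_zero]
        intro h
        exact hV₁0 (Submodule.finrank_eq_zero.1 h)
      have hinf : V₁ ⊓ V₂ = ⊥ := by
        rw [eq_bot_iff]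
        rintro v ⟨h1, w, rfl⟩
        have h2 : g (g w) = 0 := h1
        rw [Submodule.mem_bot]
        exact hss w h2
      have hsup : V₁ ⊔ V₂ = ⊤ := by
        apply Submodule.eq_top_of_finrank_eq
        have h1 := Submodule.finrank_sup_add_finrank_inf_eq V₁ V₂
        rw [hinf, finrank_bot, add_zero] at h1
        rw [h1, add_comm, hdim]
      -- restrict
      have hinv1 : ∀ x : χ.ker, ∀ v ∈ V₁, ρ x v ∈ V₁ := by
        intro x v hv
        change g (ρ x v) = 0
        rw [hgc x x.2]
        have : g v = 0 := hv
        rw [this, map_zero]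
      have hinv2 : ∀ x : χ.ker, ∀ v ∈ V₂, ρ x v ∈ V₂ := by
        rintro x _ ⟨w, rfl⟩
        exact ⟨ρ x w, hgc x x.2 w⟩
      have hP₀ : IsPGroup p χ.ker := hP.to_subgroup _
      have hres : ∀ (U : Submodule K V) (_ : ∀ x : χ.ker, ∀ v ∈ U, ρ x v ∈ U)
          (_ : Module.finrank K U ≤ d), ∀ x ∈ derivedSeries χ.ker d, ∀ v ∈ U, ρ (x : P) v = v := by
        intro U hU hUd x hx v hv
        let ρU : χ.ker →* Module.End K U :=
          { toFun := fun x => (ρ (x : P)).restrict (hU x)
            map_one' := by
              ext v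
              simp [LinearMap.restrict_apply]
            map_mul' := by
              intro x y
              ext v
              simp [LinearMap.restrict_apply] }
        have h1 := ih χ.ker hP₀ U hUd ρU x hx
        have h2 := congrArg (fun f : Module.End K U => ((f ⟨v, hv⟩ : U) : V)) h1
        exact h2
      intro y hy
      obtain ⟨x, hx, rfl⟩ := dS_sub χ.ker hP1 d hy
      change ρ (x : P) = 1
      ext v
      have hv : v ∈ V₁ ⊔ V₂ := by rw [hsup]; trivial
      obtain ⟨v₁, h₁, v₂, h₂, rfl⟩ := Submodule.mem_sup.1 hv
      rw [map_add, hres V₁ hinv1 (by omega) x hx v₁ h₁, hres V₂ hinv2 (by omega) x hx v₂ h₂]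
      rfl

/-- base change -/
theorem lemT' (k : Type) [Field k] (p : ℕ) [Fact p.Prime] (hp : (p : k) ≠ 0) (d : ℕ) (P : Type)
    [Group P] [Finite P] (hP : IsPGroup p P) (V : Type) [AddCommGroup V] [Module k V]
    [FiniteDimensional k V] (hd : Module.finrank k V ≤ d) (ρ : P →* Module.End k V) :
    ∀ g ∈ derivedSeries P d, ρ g = 1 := by
  let K := AlgebraicClosure k
  let b := Module.finBasis k V
  let e := LinearMap.toMatrixAlgEquiv b
  let ρ' : P →* Module.End K (Fin (Module.finrank k V) → K) :=
    { toFun := fun x => Matrix.toLin' ((algebraMap k K).mapMatrix (e (ρ x)))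
      map_one' := by
        rw [map_one, map_one, map_one, Matrix.toLin'_one]
        rfl
      map_mul' := by
        intro x y
        rw [map_mul, map_mul, map_mul, Matrix.toLin'_mul]
        rfl }
  have hpK : (p : K) ≠ 0 := by
    intro h
    apply hp
    apply (algebraMap k K).injective
    rw [map_natCast, map_zero]
    exact h
  intro g hg
  have h1 := lemT K p hpK d P hP (Fin (Module.finrank k V) → K)
    (by rw [Module.finrank_fin_fun]; exact hd) ρ' g hg
  have h2 : Matrix.toLin' ((algebraMap k K).mapMatrix (e (ρ g))) = Matrix.toLin' 1 := by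
    rw [Matrix.toLin'_one]
    exact h1
  have h3 := Matrix.toLin'.injective h2
  have h4 : (algebraMap k K).mapMatrix (e (ρ g)) = (algebraMap k K).mapMatrix 1 := by
    rw [h3, map_one]
  have h5 : e (ρ g) = 1 := by
    ext i j
    have h6 := congrFun (congrFun h4 i) j
    exact (algebraMap k K).injective h6
  have h7 : e (ρ g) = e 1 := by rw [h5, map_one]
  exact e.injective h7

theorem lemP {S G : Type} [Group S] [Group G] (d : ℕ) (k : Type) [Field k] (Z : Type)
    [AddCommGroup Z] [Module k Z] [FiniteDimensional k Z] [Finite Z] (hd : Module.finrank k Z ≤ d)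
    (R : S →* Module.End k Z) (ψ : S →* G) (hψ : Function.Surjective ψ)
    (hker : ∀ s, R s = 1 → ψ s = 1) (p : ℕ) [Fact p.Prime] (hp : (p : k) ≠ 0) (L : Subgroup G)
    (hL : IsPGroup p L) : derivedSeries L d = ⊥ := by
  let Y := S ⧸ R.ker
  let ψ' : Y →* G := QuotientGroup.lift R.ker ψ fun s hs => hker s hs
  have hψ' : Function.Surjective ψ' := by
    intro g
    obtain ⟨s, rfl⟩ := hψ g
    exact ⟨(s : Y), rfl⟩
  let R' : Y →* Module.End k Z := QuotientGroup.lift R.ker R fun s hs => hs
  have hR' : ∀ y, R' y = 1 → y = 1 := by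
    intro y
    induction y using QuotientGroup.induction_on with
    | H s =>
      intro h
      have h1 : R s = 1 := h
      rw [QuotientGroup.eq_one_iff]
      exact h1
  have hR'i : Function.Injective R' := by
    intro x y h
    have h1 : R' (x * y⁻¹) = 1 := by
      rw [map_mul, h, ← map_mul, mul_inv_cancel, map_one]
    exact mul_inv_eq_one.1 (hR' _ h1)
  have hfE : Finite (Module.End k Z) := by
    apply Finite.of_injective (fun f : Module.End k Z => (f : Z → Z))
    intro f g h
    exact LinearMap.ext fun v => congrFun h v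
  have hfY : Finite Y := Finite.of_injective _ hR'i
  obtain ⟨Q, hLQ⟩ := hL.exists_le_sylow
  obtain ⟨P, hPQ⟩ := Sylow.mapSurjective_surjective hψ' p Q
  have hP1 : derivedSeries (P : Subgroup Y) d = ⊥ := by
    rw [eq_bot_iff]
    intro g hg
    have h1 := lemT' k p hp d (P : Subgroup Y) P.2 Z hd (R'.comp (P : Subgroup Y).subtype) g hg
    have h2 : (g : Y) = 1 := hR' _ h1
    exact Subtype.ext h2
  -- the image
  have hQ : (Q : Subgroup G) = (P : Subgroup Y).map ψ' := by
    rw [← hPQ]
    rfl
  have hLe : L ≤ (P : Subgroup Y).map ψ' := hQ ▸ hLQ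
  let f : (P : Subgroup Y) →* (P : Subgroup Y).map ψ' := ψ'.subgroupMap _
  have hf : Function.Surjective f := ψ'.subgroupMap_surjective _
  have hQ1 : derivedSeries ((P : Subgroup Y).map ψ') d = ⊥ := by
    rw [← map_derivedSeries_eq hf, hP1, Subgroup.map_bot]
  have hL1 := map_derivedSeries_le_derivedSeries (f := Subgroup.inclusion hLe) d
  rw [hQ1, le_bot_iff, Subgroup.map_eq_bot_iff_of_injective _ (Subgroup.inclusion_injective hLe)]
    at hL1
  exact hL1

end Pool.MP_22db8c_al.BD
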