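import Pool.Agent.H.MP_22db8c_al.helper22.Lay2
import Pool.Agent.H.MP_22db8c_al.helper22.Rep

set_option autoImplicit false

/-!
MP_22db8c_al: derivations of the free group of rank two with values in a module.
-/

namespace Pool.MP_22db8c_al.BD

open FreeGroup (of)

/-- the commutator of the two generators -/
def com : FreeGroup (Fin 2) := of 0 * of 1 * (of 0)⁻¹ * (of 1)⁻¹

section coc

variable {V : Type} [AddCommGroup V]

theorem coc_one {F : Type} [Group F] {ρ : F →* AddMonoid.End V} {z : F → V} (hz : IsCoc ρ z) :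
    z 1 = 0 := by
  have h := hz 1 1
  rw [mul_one, map_one, AddMonoid.End.one_apply] at h
  exact left_eq_add.1 h

theorem coc_inv {F : Type} [Group F] {ρ : F →* AddMonoid.End V} {z : F → V} (hz : IsCoc ρ z)
    (g : F) : z g⁻¹ = - ρ g⁻¹ (z g) := by
  have h := hz g⁻¹ g
  rw [inv_mul_cancel, coc_one hz] at h
  exact eq_neg_of_add_eq_zero_left h.symm

theorem coc_ext {ρ : FreeGroup (Fin 2) →* AddMonoid.End V} {z z' : FreeGroup (Fin 2) → V}
    (hz : IsCoc ρ z) (hz' : IsCoc ρ z') (h0 : z (of 0) = z' (of 0)) (h1 : z (of 1) = z' (of 1)) :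
    ∀ w, z w = z' w := by
  intro w
  induction w using FreeGroup.induction_on with
  | C1 => rw [coc_one hz, coc_one hz']
  | of i =>
    fin_cases i
    · exact h0
    · exact h1
  | inv_of i ih => rw [coc_inv hz, coc_inv hz', ih]
  | mul a b ha hb => rw [hz, hz', ha, hb]

theorem coc_ext' (f : MulAut (FreeGroup (Fin 2))) {ρ : FreeGroup (Fin 2) →* AddMonoid.End V}
    {z z' : FreeGroup (Fin 2) → V} (hz : IsCoc ρ z) (hz' : IsCoc ρ z')
    (h0 : z (f (of 0)) = z' (f (of 0))) (h1 : z (f (of 1)) = z' (f (of 1))) :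
    ∀ w, z w = z' w := by
  have e : ∀ z : FreeGroup (Fin 2) → V, IsCoc ρ z →
      IsCoc (ρ.comp (f : FreeGroup (Fin 2) →* FreeGroup (Fin 2))) fun w => z (f w) := by
    intro z hz w w'
    change z (f (w * w')) = z (f w) + ρ (f w) (z (f w'))
    rw [map_mul, hz]
  intro w
  obtain ⟨w, rfl⟩ := f.surjective w
  exact coc_ext (e z hz) (e z' hz') h0 h1 w

theorem coc_pow {F : Type} [Group F] {ρ : F →* AddMonoid.End V} {z : F → V} (hz : IsCoc ρ z)
    (g : F) (hg : ρ g = 1) (n : ℕ) : z (g ^ n) = n • z g := by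
  induction n with
  | zero => rw [pow_zero, coc_one hz, zero_smul]
  | succ n ih =>
    rw [pow_succ', hz, hg, ih, AddMonoid.End.one_apply, succ_nsmul']

/-- an affine permutation -/
def affp (ρ : FreeGroup (Fin 2) →* AddMonoid.End V) (g : FreeGroup (Fin 2)) (v : V) :
    Equiv.Perm V where
  toFun x := ρ g x + v
  invFun x := ρ g⁻¹ (x - v)
  left_inv x := by
    change ρ g⁻¹ (ρ g x + v - v) = x
    rw [add_sub_cancel_right]
    change (ρ g⁻¹ * ρ g) x = x
    rw [← map_mul, inv_mul_cancel, map_one]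
    rfl
  right_inv x := by
    change ρ g (ρ g⁻¹ (x - v)) + v = x
    have : ρ g (ρ g⁻¹ (x - v)) = (ρ g * ρ g⁻¹) (x - v) := rfl
    rw [this, ← map_mul, mul_inv_cancel, map_one, AddMonoid.End.one_apply, sub_add_cancel]

/-- derivations have arbitrary values on the generators -/
theorem coc_exists (ρ : FreeGroup (Fin 2) →* AddMonoid.End V) (v₀ v₁ : V) :
    ∃ z : FreeGroup (Fin 2) → V, IsCoc ρ z ∧ z (of 0) = v₀ ∧ z (of 1) = v₁ := by
  let Θ : FreeGroup (Fin 2) →* Equiv.Perm V :=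
    FreeGroup.lift ![affp ρ (of 0) v₀, affp ρ (of 1) v₁]
  have hΘ0 : Θ (of 0) = affp ρ (of 0) v₀ := by simp [Θ]
  have hΘ1 : Θ (of 1) = affp ρ (of 1) v₁ := by simp [Θ]
  have key : ∀ w v, Θ w v = ρ w v + Θ w 0 := by
    intro w
    induction w using FreeGroup.induction_on with
    | C1 => intro v; simp
    | of i =>
      intro v
      fin_cases i
      · change Θ (of 0) v = ρ (of 0) v + Θ (of 0) 0
        rw [hΘ0]
        change ρ (of 0) v + v₀ = ρ (of 0) v + (ρ (of 0) 0 + v₀)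
        rw [map_zero, zero_add]
      · change Θ (of 1) v = ρ (of 1) v + Θ (of 1) 0
        rw [hΘ1]
        change ρ (of 1) v + v₁ = ρ (of 1) v + (ρ (of 1) 0 + v₁)
        rw [map_zero, zero_add]
    | inv_of i ih =>
      intro v
      have h1 : ∀ x, Θ (of i) (Θ (of i)⁻¹ x) = x := by
        intro x
        rw [map_inv, ← Equiv.Perm.mul_apply, mul_inv_cancel]
        rfl
      have h2 : Function.Injective (ρ (of i)) := by
        intro x y hxy
        have h3 : (ρ (of i)⁻¹ * ρ (of i)) x = (ρ (of i)⁻¹ * ρ (of i)) y := by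
          change ρ (of i)⁻¹ (ρ (of i) x) = ρ (of i)⁻¹ (ρ (of i) y)
          rw [hxy]
        rw [← map_mul, inv_mul_cancel, map_one] at h3
        exact h3
      apply h2
      have h3 := h1 v
      have h4 := h1 0
      rw [ih] at h3 h4
      rw [map_add]
      have h5 : ρ (of i) (ρ (of i)⁻¹ v) = v := by
        change (ρ (of i) * ρ (of i)⁻¹) v = v
        rw [← map_mul, mul_inv_cancel, map_one]
        rfl
      rw [h5, eq_sub_of_add_eq h3, eq_sub_of_add_eq h4]
      abel
    | mul a b ha hb =>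
      intro v
      rw [map_mul, map_mul, Equiv.Perm.mul_apply, Equiv.Perm.mul_apply, ha, hb, ha (Θ b 0),
        map_add]
      change _ = ρ a (ρ b v) + _
      abel
  refine ⟨fun w => Θ w 0, ?_, ?_, ?_⟩
  · intro w w'
    change Θ (w * w') 0 = Θ w 0 + ρ w (Θ w' 0)
    rw [map_mul, Equiv.Perm.mul_apply, key w (Θ w' 0), add_comm]
  · change Θ (of 0) 0 = v₀
    rw [hΘ0]
    change ρ (of 0) 0 + v₀ = v₀
    rw [map_zero, zero_add]
  · change Θ (of 1) 0 = v₁
    rw [hΘ1]
    change ρ (of 1) 0 + v₁ = v₁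
    rw [map_zero, zero_add]

theorem coc_com {ρ : FreeGroup (Fin 2) →* AddMonoid.End V} {z : FreeGroup (Fin 2) → V}
    (hz : IsCoc ρ z) : z com = z (of 0) + ρ (of 0) (z (of 1)) -
      ρ (of 0 * of 1 * (of 0)⁻¹) (z (of 0)) - ρ com (z (of 1)) := by
  have e : ∀ g h : FreeGroup (Fin 2), z (g * h⁻¹) = z g - ρ (g * h⁻¹) (z h) := by
    intro g h
    rw [hz, coc_inv hz, map_neg, map_mul]
    change z g + -(ρ g (ρ h⁻¹ (z h))) = z g - ρ g (ρ h⁻¹ (z h))
    abel
  rw [com, e, e, hz]

end coc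

end Pool.MP_22db8c_al.BD
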