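import Pool.Agent.H.MP_22db8c_al.helper22.San

set_option autoImplicit false

/-!
MP_22db8c_al: homomorphisms of the free group extend to the principal congruence subgroup, and the
conjugacy classes of the unipotent elements.
-/

namespace Pool.MP_22db8c_al.BD

open Matrix
open FreeGroup (of)

theorem gN_sq : gN * gN = 1 := by
  apply toM_inj
  rw [map_mul, map_one]
  change !![-1, 0; 0, -1] * !![-1, 0; 0, -1] = 1
  ext i j
  fin_cases i <;> fin_cases j <;> simp [Matrix.mul_apply, Fin.sum_univ_two]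

theorem gN_comm (M : G2) : gN * M = M * gN := by
  apply toM_inj
  rw [map_mul, map_mul]
  change !![-1, 0; 0, -1] * toM M = toM M * !![-1, 0; 0, -1]
  ext i j
  fin_cases i <;> fin_cases j <;> simp [Matrix.mul_apply, Fin.sum_univ_two]

theorem gN_ne : gN ≠ 1 := by
  intro h
  have h1 := congrArg (fun M : G2 => toM M 0 0) h
  have h2 : (-1 : ℤ) = 1 := h1
  norm_num at h2

theorem sv_ne_gN (w : FreeGroup (Fin 2)) (h : sv w = gN) : False := by
  have h1 : sv (w ^ 2) = sv 1 := by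
    rw [map_pow, h, pow_two, gN_sq, map_one]
  have h2 : w ^ 2 = 1 ^ 2 := by
    rw [one_pow]
    exact sv_inj h1
  have h3 : w = 1 := pow_left_injective (by norm_num : (2 : ℕ) ≠ 0) h2
  rw [h3, map_one] at h
  exact gN_ne h.symm

theorem sv_unique (u u' : FreeGroup (Fin 2)) (M : G2) (h : M = sv u ∨ M = gN * sv u)
    (h' : M = sv u' ∨ M = gN * sv u') : u = u' := by
  have key : ∀ u u' : FreeGroup (Fin 2), sv u = gN * sv u' → False := by
    intro u u' h
    apply sv_ne_gN (u * u'⁻¹)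
    rw [map_mul, map_inv, h]
    group
  rcases h with h | h <;> rcases h' with h' | h'
  · exact sv_inj (h.symm.trans h')
  · exact (key u u' (h.symm.trans h')).elim
  · exact (key u' u (h'.symm.trans h)).elim
  · exact sv_inj (mul_left_cancel (h.symm.trans h'))

section psi

variable {G : Type} [Group G] (φ : FreeGroup (Fin 2) →* G)

/-- the word of an element -/
noncomputable def wd (M : G2) : FreeGroup (Fin 2) := Classical.choose (good_all _ M rfl)

theorem wd_spec (M : G2) : M = sv (wd M) ∨ M = gN * sv (wd M) :=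
  Classical.choose_spec (good_all _ M rfl)

theorem wd_eq (M : G2) (u : FreeGroup (Fin 2)) (h : M = sv u ∨ M = gN * sv u) : wd M = u :=
  sv_unique _ _ M (wd_spec M) h

/-- the extension which is trivial on `-1` -/
noncomputable def psi : G2 →* G where
  toFun M := φ (wd M)
  map_one' := by
    rw [wd_eq 1 1 (Or.inl (map_one sv).symm), map_one]
  map_mul' M M' := by
    rw [← map_mul]
    congr 1
    apply wd_eq
    rw [map_mul]
    rcases wd_spec M with h | h <;> rcases wd_spec M' with h' | h'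
    · left
      rw [← h, ← h']
    · right
      rw [← h, ← mul_assoc, gN_comm, mul_assoc, ← h']
    · right
      rw [← mul_assoc, ← h, ← h']
    · left
      have e : M * M' = (gN * gN) * (sv (wd M) * sv (wd M')) := by
        calc M * M' = (gN * sv (wd M)) * (gN * sv (wd M')) := by rw [← h, ← h']
          _ = gN * (sv (wd M) * gN) * sv (wd M') := by group
          _ = gN * (gN * sv (wd M)) * sv (wd M') := by rw [← gN_comm (sv (wd M))]
          _ = (gN * gN) * (sv (wd M) * sv (wd M')) := by group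
      rw [e, gN_sq, one_mul]

theorem psi_sv (u : FreeGroup (Fin 2)) : psi φ (sv u) = φ u := by
  change φ (wd (sv u)) = φ u
  rw [wd_eq _ u (Or.inl rfl)]

theorem psi_gN : psi φ gN = 1 := by
  change φ (wd gN) = 1
  rw [wd_eq gN 1 (Or.inr (by rw [map_one, mul_one])), map_one]

end psi

/-- the unipotent elements -/
def UG (ε α γ : ℤ) : G2 :=
  ⟨⟨!![1 - 2 * ε * α * γ, 2 * ε * α ^ 2; -2 * ε * γ ^ 2, 1 + 2 * ε * α * γ], by
    rw [Matrix.det_fin_two_of]
    ring⟩, by
    have h2 : (2 : ZMod 2) = 0 := rfl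
    rw [CongruenceSubgroup.Gamma_mem]
    refine ⟨?_, ?_, ?_, ?_⟩
    · change ((1 - 2 * ε * α * γ : ℤ) : ZMod 2) = 1
      push_cast
      rw [h2]
      ring
    · change ((2 * ε * α ^ 2 : ℤ) : ZMod 2) = 0
      push_cast
      rw [h2]
      ring
    · change ((-2 * ε * γ ^ 2 : ℤ) : ZMod 2) = 0
      push_cast
      rw [h2]
      ring
    · change ((1 + 2 * ε * α * γ : ℤ) : ZMod 2) = 1
      push_cast
      rw [h2]
      ring⟩

theorem toM_UG (ε α γ : ℤ) : toM (UG ε α γ) =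
    !![1 - 2 * ε * α * γ, 2 * ε * α ^ 2; -2 * ε * γ ^ 2, 1 + 2 * ε * α * γ] := rfl

/-- conjugation of unipotent matrices -/
theorem U_conj (a b c d ε x y : ℤ) :
    !![1 - 2 * ε * (a * x + b * y) * (c * x + d * y), 2 * ε * (a * x + b * y) ^ 2;
      -2 * ε * (c * x + d * y) ^ 2, 1 + 2 * ε * (a * x + b * y) * (c * x + d * y)] *
      !![a, b; c, d] =
    !![a, b; c, d] * !![1 - 2 * (ε * (a * d - b * c)) * x * y, 2 * (ε * (a * d - b * c)) * x ^ 2;
      -2 * (ε * (a * d - b * c)) * y ^ 2, 1 + 2 * (ε * (a * d - b * c)) * x * y] := by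
  ext i j
  fin_cases i <;> fin_cases j <;> simp [Matrix.mul_apply, Fin.sum_univ_two] <;> ring

/-- an element of the congruence subgroup from its entries -/
def mkG (a b c d : ℤ) (hdet : a * d - b * c = 1) (ha : a % 2 = 1) (hb : b % 2 = 0) (hc : c % 2 = 0)
    (hd : d % 2 = 1) : G2 :=
  ⟨⟨!![a, b; c, d], by
    rw [Matrix.det_fin_two_of]
    exact hdet⟩, by
    have e1 : ∀ x : ℤ, x % 2 = 1 → (x : ZMod 2) = 1 := by
      intro x hx
      have : ((x : ℤ) : ZMod 2) = ((1 : ℤ) : ZMod 2) := by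
        rw [ZMod.intCast_eq_intCast_iff]
        exact hx
      rw [this]
      simp
    have e0 : ∀ x : ℤ, x % 2 = 0 → (x : ZMod 2) = 0 := by
      intro x hx
      have : ((x : ℤ) : ZMod 2) = ((0 : ℤ) : ZMod 2) := by
        rw [ZMod.intCast_eq_intCast_iff]
        exact hx
      rw [this]
      simp
    rw [CongruenceSubgroup.Gamma_mem]
    exact ⟨e1 _ ha, e0 _ hb, e0 _ hc, e1 _ hd⟩⟩

theorem toM_mkG (a b c d : ℤ) (hdet : a * d - b * c = 1) (ha : a % 2 = 1) (hb : b % 2 = 0)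
    (hc : c % 2 = 0) (hd : d % 2 = 1) : toM (mkG a b c d hdet ha hb hc hd) = !![a, b; c, d] := rfl

theorem UG_conj_mkG (a b c d : ℤ) (hdet : a * d - b * c = 1) (ha : a % 2 = 1) (hb : b % 2 = 0)
    (hc : c % 2 = 0) (hd : d % 2 = 1) (ε x y : ℤ) :
    UG ε (a * x + b * y) (c * x + d * y) = mkG a b c d hdet ha hb hc hd * UG ε x y *
      (mkG a b c d hdet ha hb hc hd)⁻¹ := by
  rw [eq_mul_inv_iff_mul_eq]
  apply toM_inj
  rw [map_mul, map_mul, toM_mkG, toM_UG, toM_UG, U_conj, hdet, mul_one]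

/-- up to conjugation there are three classes -/
theorem cusp (ε α γ β δ : ℤ) (h : α * δ - β * γ = 1) :
    ∃ M : G2, UG ε α γ = M * UG ε 1 0 * M⁻¹ ∨ UG ε α γ = M * UG ε 0 1 * M⁻¹ ∨
      UG ε α γ = M * UG ε 1 1 * M⁻¹ := by
  rcases Int.emod_two_eq_zero_or_one α with hα | hα <;>
    rcases Int.emod_two_eq_zero_or_one γ with hγ | hγ
  · exfalso
    obtain ⟨a, rfl⟩ : (2 : ℤ) ∣ α := Int.dvd_of_emod_eq_zero hα
    obtain ⟨c, rfl⟩ : (2 : ℤ) ∣ γ := Int.dvd_of_emod_eq_zero hγ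
    have : 2 * (a * δ - β * c) = 1 := by linarith
    omega
  · -- `(0, 1)`
    have key : ∃ p q : ℤ, p * γ - α * q = 1 ∧ q % 2 = 0 := by
      rcases Int.emod_two_eq_zero_or_one δ with hδ | hδ
      · exact ⟨-β, -δ, by linarith, by omega⟩
      · exact ⟨-β + α, -δ + γ, by linarith, by omega⟩
    obtain ⟨p, q, h1, h2⟩ := key
    have h3 : p % 2 = 1 := by
      rcases Int.emod_two_eq_zero_or_one p with hp | hp
      · exfalso
        obtain ⟨p', rfl⟩ : (2 : ℤ) ∣ p := Int.dvd_of_emod_eq_zero hp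
        obtain ⟨q', rfl⟩ : (2 : ℤ) ∣ q := Int.dvd_of_emod_eq_zero h2
        have : 2 * (p' * γ - α * q') = 1 := by linarith
        omega
      · exact hp
    refine ⟨mkG p α q γ h1 h3 hα h2 hγ, Or.inr (Or.inl ?_)⟩
    rw [← UG_conj_mkG]
    congr 1 <;> ring
  · -- `(1, 0)`
    have key : ∃ p q : ℤ, α * q - p * γ = 1 ∧ p % 2 = 0 := by
      rcases Int.emod_two_eq_zero_or_one β with hβ | hβ
      · exact ⟨β, δ, h, hβ⟩
      · exact ⟨β + α, δ + γ, by linarith, by omega⟩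
    obtain ⟨p, q, h1, h2⟩ := key
    have h3 : q % 2 = 1 := by
      rcases Int.emod_two_eq_zero_or_one q with hq | hq
      · exfalso
        obtain ⟨q', rfl⟩ : (2 : ℤ) ∣ q := Int.dvd_of_emod_eq_zero hq
        obtain ⟨p', rfl⟩ : (2 : ℤ) ∣ p := Int.dvd_of_emod_eq_zero h2
        have : 2 * (α * q' - p' * γ) = 1 := by linarith
        omega
      · exact hq
    refine ⟨mkG α p γ q h1 hα h2 hγ h3, Or.inl ?_⟩
    rw [← UG_conj_mkG]
    congr 1 <;> ring
  · -- `(1, 1)`
    have key : ∃ p q : ℤ, p * γ - α * q = 1 ∧ q % 2 = 0 := by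
      rcases Int.emod_two_eq_zero_or_one δ with hδ | hδ
      · exact ⟨-β, -δ, by linarith, by omega⟩
      · exact ⟨-β + α, -δ + γ, by linarith, by omega⟩
    obtain ⟨p, q, h1, h2⟩ := key
    have h3 : p % 2 = 1 := by
      rcases Int.emod_two_eq_zero_or_one p with hp | hp
      · exfalso
        obtain ⟨p', rfl⟩ : (2 : ℤ) ∣ p := Int.dvd_of_emod_eq_zero hp
        obtain ⟨q', rfl⟩ : (2 : ℤ) ∣ q := Int.dvd_of_emod_eq_zero h2
        have : 2 * (p' * γ - α * q') = 1 := by linarith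
        omega
      · exact hp
    refine ⟨mkG p (α - p) q (γ - q) (by linarith) h3 (by omega) h2 (by omega),
      Or.inr (Or.inr ?_)⟩
    rw [← UG_conj_mkG]
    congr 1 <;> ring

theorem UG_val1 : UG 1 1 0 = gA := by
  apply toM_inj
  rw [toM_UG]
  change _ = !![1, 2; 0, 1]
  norm_num

theorem UG_val2 : UG 1 0 1 = gB⁻¹ := by
  apply toM_inj
  rw [toM_UG, toM_Bi]
  norm_num

theorem UG_val3 : UG (-1) 1 1 = gN * (gA * gB⁻¹) := by
  apply toM_inj
  rw [toM_UG, map_mul, map_mul, toM_Bi]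
  change _ = !![-1, 0; 0, -1] * (!![1, 2; 0, 1] * !![1, 0; -2, 1])
  ext i j
  fin_cases i <;> fin_cases j <;> simp [Matrix.mul_apply, Fin.sum_univ_two]

theorem UG_inv (ε x y : ℤ) : (UG ε x y)⁻¹ = UG (-ε) x y := by
  rw [inv_eq_iff_mul_eq_one]
  apply toM_inj
  rw [map_mul, toM_UG, toM_UG, map_one]
  ext i j
  fin_cases i <;> fin_cases j <;> simp [Matrix.mul_apply, Fin.sum_univ_two] <;> ring

/-- orders of the images of the unipotent elements -/
theorem psi_UG {G : Type} [Group G] (φ : FreeGroup (Fin 2) →* G) (N : ℕ)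
    (h0 : ∀ n, φ (of 0) ^ n = 1 → N ∣ n) (h1 : ∀ n, φ (of 1) ^ n = 1 → N ∣ n)
    (h2 : ∀ n, φ (of 0 * (of 1)⁻¹) ^ n = 1 → N ∣ n) (ε α γ β δ : ℤ) (hε : ε = 1 ∨ ε = -1)
    (h : α * δ - β * γ = 1) (n : ℕ) (hn : psi φ (UG ε α γ) ^ n = 1) : N ∣ n := by
  have inv1 : ∀ g : G, g⁻¹ ^ n = 1 → g ^ n = 1 := by
    intro g hg
    rw [inv_pow, inv_eq_one] at hg
    exact hg
  have v1 : psi φ (UG 1 1 0) ^ n = 1 → N ∣ n := by
    intro hh
    rw [UG_val1, ← sv_0, psi_sv] at hh
    exact h0 n hh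
  have v2 : psi φ (UG 1 0 1) ^ n = 1 → N ∣ n := by
    intro hh
    rw [UG_val2, ← sv_1, ← map_inv, psi_sv, map_inv] at hh
    exact h1 n (inv1 _ hh)
  have v3 : psi φ (UG (-1) 1 1) ^ n = 1 → N ∣ n := by
    intro hh
    rw [UG_val3, map_mul, psi_gN, one_mul, ← sv_1, ← sv_0, ← map_inv, ← map_mul, psi_sv] at hh
    exact h2 n hh
  have neg : ∀ x y : ℤ, psi φ (UG (-1) x y) ^ n = 1 → psi φ (UG 1 x y) ^ n = 1 := by
    intro x y hh
    rw [← UG_inv, map_inv] at hh
    exact inv1 _ hh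
  have neg' : ∀ x y : ℤ, psi φ (UG 1 x y) ^ n = 1 → psi φ (UG (-1) x y) ^ n = 1 := by
    intro x y hh
    rw [← UG_inv, map_inv, inv_pow, hh, inv_one]
  have conj : ∀ M X : G2, psi φ (M * X * M⁻¹) ^ n = 1 → psi φ X ^ n = 1 := by
    intro M X hh
    rw [map_mul, map_mul, map_inv, conj_pow] at hh
    rw [mul_inv_eq_one] at hh
    exact left_eq_mul.1 hh.symm
  obtain ⟨M, hM⟩ := cusp ε α γ β δ h
  rcases hM with hM | hM | hM
  · rw [hM] at hn
    have h3 := conj _ _ hn
    rcases hε with rfl | rfl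
    · exact v1 h3
    · exact v1 (neg _ _ h3)
  · rw [hM] at hn
    have h3 := conj _ _ hn
    rcases hε with rfl | rfl
    · exact v2 h3
    · exact v2 (neg _ _ h3)
  · rw [hM] at hn
    have h3 := conj _ _ hn
    rcases hε with rfl | rfl
    · exact v3 (neg' _ _ h3)
    · exact v3 h3

end Pool.MP_22db8c_al.BD
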