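import Mathlib

set_option autoImplicit false

/-!
MP_22db8c_al, bounded degree: finite `p`-groups of large derived length.
-/

namespace Pool.MP_22db8c_al.BD

open RegularWreathProduct
open scoped commutatorElement

section

variable (L Q : Type) [Group L] [Group Q]

/-- evaluation at the identity on the base group -/
def evB : (rightHom : RegularWreathProduct L Q →* Q).ker →* L where
  toFun w := w.1.left 1
  map_one' := rfl
  map_mul' := by
    intro a b
    have h : a.1.right = 1 := a.2
    change (a.1 * b.1).left 1 = a.1.left 1 * b.1.left 1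
    rw [mul_left, h]
    simp

theorem dS_le [Nontrivial Q] (n : ℕ) : derivedSeries L n ≤
    ((derivedSeries (RegularWreathProduct L Q) (n + 1)).subgroupOf
      (rightHom : RegularWreathProduct L Q →* Q).ker).map (evB L Q) := by
  classical
  induction n with
  | zero =>
    intro g _
    obtain ⟨c, hc⟩ := exists_ne (1 : Q)
    let x : RegularWreathProduct L Q := ⟨Pi.mulSingle 1 g, 1⟩
    let y : RegularWreathProduct L Q := ⟨1, c⟩
    have h1 : ⁅x, y⁆ ∈ derivedSeries (RegularWreathProduct L Q) 1 := by
      rw [derivedSeries_succ]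
      exact Subgroup.commutator_mem_commutator trivial trivial
    have h2 : (⁅x, y⁆).right = 1 := by
      rw [commutatorElement_def]
      simp [x, y]
    refine ⟨⟨⁅x, y⁆, h2⟩, h1, ?_⟩
    change (⁅x, y⁆).left 1 = g
    rw [commutatorElement_def]
    have hc2 : c⁻¹ ≠ 1 := by simpa using hc
    simp [x, y, hc]
  | succ n ih =>
    rw [derivedSeries_succ]
    refine (Subgroup.commutator_mono ih ih).trans ?_
    rw [← Subgroup.map_commutator]
    apply Subgroup.map_mono
    rw [Subgroup.commutator_le]
    intro g₁ h₁ g₂ h₂
    have h3 : ⁅(g₁ : RegularWreathProduct L Q), (g₂ : RegularWreathProduct L Q)⁆ ∈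
        derivedSeries (RegularWreathProduct L Q) (n + 1 + 1) := by
      rw [derivedSeries_succ (RegularWreathProduct L Q) (n + 1)]
      exact Subgroup.commutator_mem_commutator h₁ h₂
    exact h3

end

theorem lemW (p : ℕ) [hp : Fact p.Prime] : ∀ d : ℕ, ∃ (L : Type) (_ : Group L) (_ : Finite L),
    IsPGroup p L ∧ derivedSeries L d ≠ ⊥ := by
  intro d
  have : Fact (1 < p) := ⟨hp.out.one_lt⟩
  have hQn : Nontrivial (Multiplicative (ZMod p)) := inferInstance
  have hc : Nat.card (Multiplicative (ZMod p)) = p := by
    rw [Nat.card_congr Multiplicative.toAdd]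
    exact Nat.card_zmod p
  have hne : NeZero p := ⟨hp.out.ne_zero⟩
  have hfin : Finite (Multiplicative (ZMod p)) := inferInstance
  induction d with
  | zero =>
    refine ⟨Multiplicative (ZMod p), inferInstance, hfin, IsPGroup.of_card (n := 1) ?_, ?_⟩
    · rw [hc, pow_one]
    · rw [derivedSeries_zero]
      exact top_ne_bot
  | succ d ih =>
    obtain ⟨L, _, _, hL1, hL2⟩ := ih
    refine ⟨RegularWreathProduct L (Multiplicative (ZMod p)), inferInstance, inferInstance, ?_, ?_⟩
    · obtain ⟨n, hn⟩ := IsPGroup.iff_card.1 hL1
      refine IsPGroup.of_card (n := n * p + 1) ?_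
      rw [RegularWreathProduct.card, hc, hn, ← pow_mul, pow_succ]
    · intro h
      apply hL2
      rw [eq_bot_iff]
      intro g hg
      obtain ⟨w, hw, rfl⟩ := dS_le L (Multiplicative (ZMod p)) d hg
      have h1 : (w : RegularWreathProduct L (Multiplicative (ZMod p))) ∈
          derivedSeries (RegularWreathProduct L (Multiplicative (ZMod p))) (d + 1) := hw
      rw [h, Subgroup.mem_bot] at h1
      have h2 : w = 1 := Subtype.ext h1
      rw [h2, map_one]
      exact Subgroup.one_mem _

end Pool.MP_22db8c_al.BD
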