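import Pool.Agent.H.MP_22db8c_al.helper22.Rank
import Pool.Agent.H.MP_22db8c_al.helper22.Wre
import Pool.Agent.H.MP_22db8c_al.helper22.Alt
import Pool.Agent.H.MP_22db8c_al.helper22.Psi

set_option autoImplicit false

/-!
MP_22db8c_al: the theorem for subgroups of the free group.
-/

namespace Pool.MP_22db8c_al.BD

open FreeGroup (of)

/-- an automorphism from two inverse assignments -/
def mkA (f g : Fin 2 → FreeGroup (Fin 2)) (h1 : ∀ i, FreeGroup.lift g (f i) = of i)
    (h2 : ∀ i, FreeGroup.lift f (g i) = of i) : MulAut (FreeGroup (Fin 2)) where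
  toFun := FreeGroup.lift f
  invFun := FreeGroup.lift g
  left_inv := by
    have h : (FreeGroup.lift g).comp (FreeGroup.lift f) = MonoidHom.id (FreeGroup (Fin 2)) := by
      apply FreeGroup.ext_hom
      intro i
      rw [MonoidHom.comp_apply, FreeGroup.lift_apply_of, h1]
      rfl
    exact fun x => DFunLike.congr_fun h x
  right_inv := by
    have h : (FreeGroup.lift f).comp (FreeGroup.lift g) = MonoidHom.id (FreeGroup (Fin 2)) := by
      apply FreeGroup.ext_hom
      intro i
      rw [MonoidHom.comp_apply, FreeGroup.lift_apply_of, h2]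
      rfl
    exact fun x => DFunLike.congr_fun h x
  map_mul' := map_mul _

theorem mkA_of (f g : Fin 2 → FreeGroup (Fin 2)) (h1 : ∀ i, FreeGroup.lift g (f i) = of i)
    (h2 : ∀ i, FreeGroup.lift f (g i) = of i) (i : Fin 2) : mkA f g h1 h2 (of i) = f i :=
  FreeGroup.lift_apply_of

/-- the automorphism `b ↦ b a²` -/
def VX : MulAut (FreeGroup (Fin 2)) :=
  mkA ![of 0, of 1 * of 0 * of 0] ![of 0, of 1 * (of 0)⁻¹ * (of 0)⁻¹]
    (by intro i; fin_cases i <;> simp [mul_assoc]) (by intro i; fin_cases i <;> simp [mul_assoc])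

/-- the automorphism `a ↦ a b²` -/
def VY : MulAut (FreeGroup (Fin 2)) :=
  mkA ![of 0 * of 1 * of 1, of 1] ![of 0 * (of 1)⁻¹ * (of 1)⁻¹, of 1]
    (by intro i; fin_cases i <;> simp [mul_assoc]) (by intro i; fin_cases i <;> simp [mul_assoc])

theorem VX_0 : VX (of 0) = of 0 := mkA_of _ _ _ _ 0

theorem VX_1 : VX (of 1) = of 1 * of 0 * of 0 := mkA_of _ _ _ _ 1

theorem VY_0 : VY (of 0) = of 0 * of 1 * of 1 := mkA_of _ _ _ _ 0

theorem VY_1 : VY (of 1) = of 1 := mkA_of _ _ _ _ 1

theorem VX_com : VX com = com := by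
  rw [com, map_mul, map_mul, map_mul, map_inv, map_inv, VX_0, VX_1]
  group

theorem VY_com : VY com = com := by
  rw [com, map_mul, map_mul, map_mul, map_inv, map_inv, VY_0, VY_1]
  group

/-- the free group of automorphisms -/
def VV : FreeGroup (Fin 2) →* MulAut (FreeGroup (Fin 2)) := FreeGroup.lift ![VX, VY]

theorem VV_0 : VV (of 0) = VX := by simp [VV]
theorem VV_1 : VV (of 1) = VY := by simp [VV]

theorem VV_com (u : FreeGroup (Fin 2)) : VV u com = com := by
  induction u using FreeGroup.induction_on with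
  | C1 => rw [map_one, MulAut.one_apply]
  | of i =>
    fin_cases i
    · change VV (of 0) com = com
      rw [VV_0, VX_com]
    · change VV (of 1) com = com
      rw [VV_1, VY_com]
  | inv_of i ih =>
    rw [map_inv]
    have h : (VV (of i))⁻¹ (VV (of i) com) = com := MulAut.inv_apply_self _ _ _
    rw [ih] at h
    exact h
  | mul a b ha hb => rw [map_mul, MulAut.mul_apply, hb, ha]

theorem VX_pow0 (n : ℕ) : (VX ^ n) (of 0) = of 0 := by
  induction n with
  | zero => rfl
  | succ n ih => rw [pow_succ, MulAut.mul_apply, VX_0, ih]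

theorem VX_pow1 (n : ℕ) : (VX ^ n) (of 1) = of 1 * (of 0) ^ (2 * n) := by
  induction n with
  | zero => simp
  | succ n ih =>
    rw [pow_succ, MulAut.mul_apply, VX_1, map_mul, map_mul, ih, VX_pow0, mul_add, mul_one,
      pow_add, pow_two]
    group

/-- the exponent sum of the generator `i` -/
def expo (i : Fin 2) : FreeGroup (Fin 2) →* Multiplicative ℤ :=
  FreeGroup.lift fun j => Multiplicative.ofAdd (if j = i then 1 else 0)

/-- the matrix of the automorphism induced on the abelianisation -/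
def mat (f : MulAut (FreeGroup (Fin 2))) : Matrix (Fin 2) (Fin 2) ℤ :=
  Matrix.of fun i j => Multiplicative.toAdd (expo i (f (FreeGroup.of j)))

theorem expo_comp (f : MulAut (FreeGroup (Fin 2))) (i : Fin 2) (w : FreeGroup (Fin 2)) :
    Multiplicative.toAdd (expo i (f w)) = mat f i 0 * Multiplicative.toAdd (expo 0 w) +
      mat f i 1 * Multiplicative.toAdd (expo 1 w) := by
  induction w using FreeGroup.induction_on with
  | C1 => simp
  | of j =>
    fin_cases j
    · change Multiplicative.toAdd (expo i (f (of 0))) = mat f i 0 *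
        Multiplicative.toAdd (expo 0 (of 0)) + mat f i 1 * Multiplicative.toAdd (expo 1 (of 0))
      have h0 : Multiplicative.toAdd (expo 0 (of 0)) = 1 := by simp [expo]
      have h1 : Multiplicative.toAdd (expo 1 (of 0)) = 0 := by simp [expo]
      rw [h0, h1, mul_one, mul_zero, add_zero]
      rfl
    · change Multiplicative.toAdd (expo i (f (of 1))) = mat f i 0 *
        Multiplicative.toAdd (expo 0 (of 1)) + mat f i 1 * Multiplicative.toAdd (expo 1 (of 1))
      have h0 : Multiplicative.toAdd (expo 0 (of 1)) = 0 := by simp [expo]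
      have h1 : Multiplicative.toAdd (expo 1 (of 1)) = 1 := by simp [expo]
      rw [h0, h1, mul_one, mul_zero, zero_add]
      rfl
  | inv_of j ih =>
    have e : ∀ l (z : FreeGroup (Fin 2)), Multiplicative.toAdd (expo l z⁻¹) =
        - Multiplicative.toAdd (expo l z) := fun l z => by rw [map_inv, toAdd_inv]
    rw [map_inv f, e, e, e, ih]
    ring
  | mul a b ha hb =>
    have e : ∀ l (z z' : FreeGroup (Fin 2)), Multiplicative.toAdd (expo l (z * z')) =
        Multiplicative.toAdd (expo l z) + Multiplicative.toAdd (expo l z') :=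
      fun l z z' => by rw [map_mul, toAdd_mul]
    rw [map_mul f, e, e, e, ha, hb]
    ring

/-- the matrix as a homomorphism -/
def matHom : MulAut (FreeGroup (Fin 2)) →* Matrix (Fin 2) (Fin 2) ℤ where
  toFun := mat
  map_one' := by
    ext i j
    fin_cases i <;> fin_cases j <;> simp [mat, expo]
  map_mul' f g := by
    ext i j
    rw [Matrix.mul_apply, Fin.sum_univ_two]
    change Multiplicative.toAdd (expo i (f (g (of j)))) = _
    rw [expo_comp]
    rfl

theorem mat_mul (f g : MulAut (FreeGroup (Fin 2))) : mat (f * g) = mat f * mat g :=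
  map_mul matHom f g

theorem mat_one : mat 1 = 1 := map_one matHom

theorem mat_VX : mat VX = !![1, 2; 0, 1] := by
  ext i j
  fin_cases i <;> fin_cases j
  · change Multiplicative.toAdd (expo 0 (VX (of 0))) = 1
    rw [VX_0]; simp [expo]
  · change Multiplicative.toAdd (expo 0 (VX (of 1))) = 2
    rw [VX_1]; simp [expo]
  · change Multiplicative.toAdd (expo 1 (VX (of 0))) = 0
    rw [VX_0]; simp [expo]
  · change Multiplicative.toAdd (expo 1 (VX (of 1))) = 1
    rw [VX_1]; simp [expo]

theorem mat_VY : mat VY = !![1, 0; 2, 1] := by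
  ext i j
  fin_cases i <;> fin_cases j
  · change Multiplicative.toAdd (expo 0 (VY (of 0))) = 1
    rw [VY_0]; simp [expo]
  · change Multiplicative.toAdd (expo 0 (VY (of 1))) = 0
    rw [VY_1]; simp [expo]
  · change Multiplicative.toAdd (expo 1 (VY (of 0))) = 2
    rw [VY_0]; simp [expo]
  · change Multiplicative.toAdd (expo 1 (VY (of 1))) = 1
    rw [VY_1]; simp [expo]

theorem mat_VV (u : FreeGroup (Fin 2)) : mat (VV u) = toM (sv u) := by
  have h : matHom.comp VV = toM.comp sv := by
    apply FreeGroup.ext_hom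
    intro i
    fin_cases i
    · change mat (VV (of 0)) = toM (sv (of 0))
      rw [VV_0, sv_0, mat_VX]
      rfl
    · change mat (VV (of 1)) = toM (sv (of 1))
      rw [VV_1, sv_1, mat_VY]
      rfl
  exact DFunLike.congr_fun h u

/-- the automorphisms fixing the commutator, with their matrices in the congruence subgroup -/
def Bc : Subgroup (MulAut (FreeGroup (Fin 2)) × G2) where
  carrier := {x | mat x.1 = toM x.2 ∧ x.1 com = com}
  one_mem' := ⟨mat_one, rfl⟩
  mul_mem' := by
    rintro x y ⟨hx, hx2⟩ ⟨hy, hy2⟩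
    refine ⟨?_, ?_⟩
    · change mat (x.1 * y.1) = toM (x.2 * y.2)
      rw [mat_mul, map_mul, hx, hy]
    · change x.1 (y.1 com) = com
      rw [hy2, hx2]
  inv_mem' := by
    rintro x ⟨hx, hx2⟩
    refine ⟨?_, ?_⟩
    · change mat x.1⁻¹ = toM x.2⁻¹
      have h1 : mat x.1⁻¹ * mat x.1 = 1 := by rw [← mat_mul, inv_mul_cancel, mat_one]
      have h2 : toM x.2 * toM x.2⁻¹ = 1 := by rw [← map_mul, mul_inv_cancel, map_one]
      calc mat x.1⁻¹ = mat x.1⁻¹ * (toM x.2 * toM x.2⁻¹) := by rw [h2, mul_one]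
        _ = toM x.2⁻¹ := by rw [← hx, ← mul_assoc, h1, one_mul]
    · change x.1⁻¹ com = com
      have h : x.1⁻¹ (x.1 com) = com := MulAut.inv_apply_self _ _ _
      rw [hx2] at h
      exact h

/-- the action -/
def act : Bc →* MulAut (FreeGroup (Fin 2)) := (MonoidHom.fst _ _).comp Bc.subtype

/-- the second component -/
def prj : Bc →* G2 := (MonoidHom.snd _ _).comp Bc.subtype

theorem act_com (u : Bc) : act u com = com := u.2.2

theorem act_mat (u : Bc) : mat (act u) = toM (prj u) := u.2.1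

theorem main_F2 (D N : ℕ) (hN : 0 < N) : ∃ Λ : Subgroup G2, Λ.FiniteIndex ∧
    ∀ (r : ℕ) (K : Subgroup (FreeGroup (Fin 2))), K.Normal →
      (∀ (f : MulAut (FreeGroup (Fin 2))), ∀ x ∈ K, f x ∈ K) → K.FiniteIndex →
      derivedSeries (FreeGroup (Fin 2)) r ≤ K →
      (∀ A C : Subgroup (FreeGroup (Fin 2)), K ≤ A → IsChief A C → RankLE D A C ∨ PrimND N A C) →
      ∃ (f : MulAut (FreeGroup (Fin 2))) (g : G2), f com = com ∧ toM g = mat f ∧ g ∉ Λ ∧
        ∀ x, f x * x⁻¹ ∈ K := by
  have h2 : Fact (Nat.Prime 2) := ⟨Nat.prime_two⟩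
  have h3 : Fact (Nat.Prime 3) := ⟨Nat.prime_three⟩
  obtain ⟨L₂, _, _, hL₂, hd₂⟩ := lemW 2 (D + 2)
  obtain ⟨L₃, _, _, hL₃, hd₃⟩ := lemW 3 (D + 2)
  have hc₂ : 0 < Nat.card L₂ := Nat.card_pos
  have hc₃ : 0 < Nat.card L₃ := Nat.card_pos
  let m := N * N * (6 * Nat.card L₂ * Nat.card L₃)
  have hmd : m = N * N * (6 * Nat.card L₂ * Nat.card L₃) := rfl
  have hNN : 0 < N * N := Nat.mul_pos hN hN
  have hm0 : 0 < m := by positivity
  have hmz : NeZero m := ⟨hm0.ne'⟩
  have h2m : 2 ∣ m := ⟨N * N * (3 * Nat.card L₂ * Nat.card L₃), by rw [hmd]; ring⟩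
  have h3m : 3 ∣ m := ⟨N * N * (2 * Nat.card L₂ * Nat.card L₃), by rw [hmd]; ring⟩
  have hm2 : 2 ≤ m := Nat.le_of_dvd hm0 h2m
  have hm₂ : Nat.card L₂ ≤ m :=
    Nat.le_of_dvd hm0 ⟨N * N * (6 * Nat.card L₃), by rw [hmd]; ring⟩
  have hm₃ : Nat.card L₃ ≤ m :=
    Nat.le_of_dvd hm0 ⟨N * N * (6 * Nat.card L₂), by rw [hmd]; ring⟩
  have hsimple := alt_simple m hm2
  have hna := alt_na m hm2
  have hfG : Finite (alternatingGroup (Om m)) := inferInstance
  let ψ : G2 →* alternatingGroup (Om m) := psi (phi' m)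
  have hfi : ψ.ker.FiniteIndex := Subgroup.finiteIndex_ker ψ
  refine ⟨ψ.ker, hfi, ?_⟩
  intro r K hKn hKi hKf hr hch
  let φ : Bc →* alternatingGroup (Om m) := ψ.comp prj
  have hφ : Function.Surjective φ := by
    intro g
    obtain ⟨u, rfl⟩ := phi'_surj m g
    exact ⟨⟨(VV u, sv u), mat_VV u, VV_com u⟩, psi_sv (phi' m) u⟩
  have hKi' : Inv act K := fun u x hx => hKi (act u) x hx
  have hord : ∀ (ε α γ β δ : ℤ), (ε = 1 ∨ ε = -1) → α * δ - β * γ = 1 → ∀ n : ℕ,
      ψ (UG ε α γ) ^ n = 1 → N * N ∣ n := by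
    intro ε α γ β δ hε h n hn
    have hNm : N * N * 6 ∣ m := ⟨Nat.card L₂ * Nat.card L₃, by rw [hmd]; ring⟩
    refine psi_UG (phi' m) (N * N) ?_ ?_ ?_ ε α γ β δ hε h n hn
    · intro n hn
      exact ((Dvd.intro _ rfl : N * N ∣ N * N * 6).trans hNm).trans (phi'_ord0 m n hn)
    · intro n hn
      have e1 := hNm.trans (phi'_ord1 m h3m n hn)
      have e2 : 3 * (N * N * 2) ∣ 3 * n := by
        have : 3 * (N * N * 2) = N * N * 6 := by ring
        rw [this]
        exact e1
      exact (Dvd.intro _ rfl : N * N ∣ N * N * 2).trans (Nat.dvd_of_mul_dvd_mul_left (by norm_num) e2)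
    · intro n hn
      have e1 := hNm.trans (phi'_ord2 m h2m n hn)
      have e2 : 2 * (N * N * 3) ∣ 2 * n := by
        have : 2 * (N * N * 3) = N * N * 6 := by ring
        rw [this]
        exact e1
      exact (Dvd.intro _ rfl : N * N ∣ N * N * 3).trans (Nat.dvd_of_mul_dvd_mul_left (by norm_num) e2)
  have hS := main_lay act hna φ hφ r K.index K hKn hKi' hKf rfl hr (by
    intro A C hKA hAC hab
    have hA : A.FiniteIndex := Subgroup.finiteIndex_of_le hKA
    rcases hch A C hKA hAC with h | h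
    · refine kill_rank act act_com φ hna D ?_ A C hA hAC h
      rintro p (rfl | rfl)
      · exact small_sub m L₂ hm₂ 2 _ hL₂ hd₂
      · exact small_sub m L₃ hm₃ 3 _ hL₃ hd₃
    · obtain ⟨f, e, hfc, hNe, he⟩ := h
      -- the twist along the primitive element
      have hff : mat f * mat f⁻¹ = 1 := by rw [← mat_mul, mul_inv_cancel, mat_one]
      have hdet : (mat f).det = 1 ∨ (mat f).det = -1 := by
        have h1 : (mat f).det * (mat f⁻¹).det = 1 := by
          rw [← Matrix.det_mul, hff, Matrix.det_one]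
        exact Int.isUnit_iff.1 (IsUnit.of_mul_eq_one _ h1)
      obtain ⟨ε, hε, hεd⟩ : ∃ ε : ℤ, (ε = 1 ∨ ε = -1) ∧ (mat f).det = ε := ⟨_, hdet, rfl⟩
      rw [Matrix.det_fin_two] at hεd
      have hεε : ε * ε = 1 := by rcases hε with rfl | rfl <;> norm_num
      have hmat : mat (f * VX * f⁻¹) = toM (UG ε (mat f 0 0) (mat f 1 0)) := by
        have e1 : toM (UG ε (mat f 0 0) (mat f 1 0)) * mat f = mat f * mat VX := by
          have e2 : mat f = !![mat f 0 0, mat f 0 1; mat f 1 0, mat f 1 1] := by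
            ext i j
            fin_cases i <;> fin_cases j <;> rfl
          rw [toM_UG, mat_VX]
          ext i j
          rw [Matrix.mul_apply, Matrix.mul_apply, Fin.sum_univ_two, Fin.sum_univ_two]
          fin_cases i <;> fin_cases j
          · change (1 - 2 * ε * mat f 0 0 * mat f 1 0) * mat f 0 0 + 2 * ε * mat f 0 0 ^ 2 *
              mat f 1 0 = mat f 0 0 * 1 + mat f 0 1 * 0
            ring
          · change (1 - 2 * ε * mat f 0 0 * mat f 1 0) * mat f 0 1 + 2 * ε * mat f 0 0 ^ 2 *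
              mat f 1 1 = mat f 0 0 * 2 + mat f 0 1 * 1
            linear_combination (2 * ε * mat f 0 0) * hεd + (2 * mat f 0 0) * hεε
          · change (-2 * ε * mat f 1 0 ^ 2) * mat f 0 0 + (1 + 2 * ε * mat f 0 0 * mat f 1 0) *
              mat f 1 0 = mat f 1 0 * 1 + mat f 1 1 * 0
            ring
          · change (-2 * ε * mat f 1 0 ^ 2) * mat f 0 1 + (1 + 2 * ε * mat f 0 0 * mat f 1 0) *
              mat f 1 1 = mat f 1 0 * 2 + mat f 1 1 * 1
            linear_combination (2 * ε * mat f 1 0) * hεd + (2 * mat f 1 0) * hεε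
        rw [mat_mul, mat_mul, ← e1, mul_assoc, hff, mul_one]
      have hcom : (f * VX * f⁻¹) com = com := by
        change f (VX (f⁻¹ com)) = com
        rcases hfc with hfc | hfc
        · have e1 : f⁻¹ com = com := by
            have h : f⁻¹ (f com) = com := MulAut.inv_apply_self _ _ _
            rw [hfc] at h
            exact h
          rw [e1, VX_com, hfc]
        · have e1 : f⁻¹ com = com⁻¹ := by
            have h : f⁻¹ (f com) = com := MulAut.inv_apply_self _ _ _
            rw [hfc, map_inv] at h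
            exact inv_eq_iff_eq_inv.1 h
          rw [e1, map_inv, VX_com, map_inv, hfc, inv_inv]
      let t : Bc := ⟨(f * VX * f⁻¹, UG ε (mat f 0 0) (mat f 1 0)), hmat, hcom⟩
      have htp : ∀ n : ℕ, act (t ^ n) = f * VX ^ n * f⁻¹ := by
        intro n
        rw [map_pow]
        change (f * VX * f⁻¹) ^ n = _
        exact conj_pow
      have hfi2 : ∀ x, f⁻¹ (f x) = x := fun x => MulAut.inv_apply_self _ _ _
      refine kill_exp act φ hna N f t ?_ ?_ ?_ A C hA hAC hab e hNe he
      · intro n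
        rw [htp]
        change f ((VX ^ n) (f⁻¹ (f (of 0)))) = f (of 0)
        rw [hfi2, VX_pow0]
      · intro n
        rw [htp]
        change f ((VX ^ n) (f⁻¹ (f (of 1)))) = f (of 1) * f (of 0) ^ (2 * n)
        rw [hfi2, VX_pow1, map_mul, map_pow]
      · intro n hn
        refine hord ε (mat f 0 0) (mat f 1 0) (ε * mat f 0 1) (ε * mat f 1 1) hε ?_ n hn
        linear_combination ε * hεd + hεε)
  obtain ⟨g, hg⟩ := exists_ne (1 : alternatingGroup (Om m))
  obtain ⟨u, hu, hug⟩ := ex_of_top hS g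
  refine ⟨act u, prj u, act_com u, (act_mat u).symm, ?_, hu⟩
  intro hk
  apply hg
  rw [← hug]
  exact hk

end Pool.MP_22db8c_al.BD
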