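import Mathlib

set_option autoImplicit false

/-!
MP_22db8c_al, Heisenberg representations: multiplication operators, the shift and the Fourier
transform on the functions on `ℤ/n`.
-/

namespace Pool.MP_22db8c_al.HW

open scoped BigOperators

/-- the functions on `ℤ/n` -/
abbrev W (n : ℕ) (F : Type) : Type := ZMod n → F

section ops

variable {n : ℕ} {F : Type} [Field F] (ψ : AddChar (ZMod n) F)

theorem psi_add (x y : ZMod n) : ψ (x + y) = ψ x * ψ y := AddChar.map_add_eq_mul ψ x y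

theorem psi_neg_mul (x : ZMod n) : ψ (-x) * ψ x = 1 := by
  rw [← psi_add, neg_add_cancel, AddChar.map_zero_eq_one]

theorem psi_mul_neg (x : ZMod n) : ψ x * ψ (-x) = 1 := by
  rw [← psi_add, add_neg_cancel, AddChar.map_zero_eq_one]

theorem psi_ne (x : ZMod n) : ψ x ≠ 0 := by
  intro h
  have := psi_mul_neg ψ x
  rw [h, zero_mul] at this
  exact zero_ne_one this

/-- multiplication by `ψ ∘ q` -/
def mE (q : ZMod n → ZMod n) : W n F ≃ₗ[F] W n F where
  toFun f := fun x => ψ (q x) * f x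
  map_add' f g := by
    funext x
    change ψ (q x) * (f x + g x) = ψ (q x) * f x + ψ (q x) * g x
    ring
  map_smul' c f := by
    funext x
    change ψ (q x) * (c * f x) = c * (ψ (q x) * f x)
    ring
  invFun f := fun x => ψ (-q x) * f x
  left_inv f := by
    funext x
    change ψ (-q x) * (ψ (q x) * f x) = f x
    rw [← mul_assoc, psi_neg_mul, one_mul]
  right_inv f := by
    funext x
    change ψ (q x) * (ψ (-q x) * f x) = f x
    rw [← mul_assoc, psi_mul_neg, one_mul]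

theorem mE_apply (q : ZMod n → ZMod n) (f : W n F) (x : ZMod n) : mE ψ q f x = ψ (q x) * f x := rfl

theorem mE_inv_apply (q : ZMod n → ZMod n) (f : W n F) (x : ZMod n) :
    (mE ψ q)⁻¹ f x = ψ (-q x) * f x := rfl

/-- the shift -/
def sE : W n F ≃ₗ[F] W n F where
  toFun f := fun x => f (x + 1)
  map_add' f g := rfl
  map_smul' c f := rfl
  invFun f := fun x => f (x - 1)
  left_inv f := by
    funext x
    change f (x - 1 + 1) = f x
    rw [sub_add_cancel]
  right_inv f := by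
    funext x
    change f (x + 1 - 1) = f x
    rw [add_sub_cancel_right]

theorem sE_apply (f : W n F) (x : ZMod n) : (sE : W n F ≃ₗ[F] W n F) f x = f (x + 1) := rfl

theorem sE_inv_apply (f : W n F) (x : ZMod n) :
    (sE : W n F ≃ₗ[F] W n F)⁻¹ f x = f (x - 1) := rfl

/-- the two generators of the Heisenberg group -/
def oa : W n F ≃ₗ[F] W n F := mE ψ id
def ob : W n F ≃ₗ[F] W n F := sE

theorem oa_apply (f : W n F) (x : ZMod n) : oa ψ f x = ψ x * f x := rfl
theorem oa_inv_apply (f : W n F) (x : ZMod n) : (oa ψ)⁻¹ f x = ψ (-x) * f x := rfl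
theorem ob_apply (f : W n F) (x : ZMod n) : (ob : W n F ≃ₗ[F] W n F) f x = f (x + 1) := rfl
theorem ob_inv_apply (f : W n F) (x : ZMod n) : (ob : W n F ≃ₗ[F] W n F)⁻¹ f x = f (x - 1) := rfl

/-- the intertwiner of the first twist -/
def oA : W n F ≃ₗ[F] W n F := mE ψ (fun x => -(x * (x - 1)))

theorem oA_apply (f : W n F) (x : ZMod n) : oA ψ f x = ψ (-(x * (x - 1))) * f x := rfl
theorem oA_inv_apply (f : W n F) (x : ZMod n) : (oA ψ)⁻¹ f x = ψ (x * (x - 1)) * f x := by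
  change ψ (- -(x * (x - 1))) * f x = _
  rw [neg_neg]

theorem oA_oa : oA ψ * oa ψ = oa ψ * oA ψ := by
  apply LinearEquiv.ext
  intro f
  funext x
  change ψ (-(x * (x - 1))) * (ψ x * f x) = ψ x * (ψ (-(x * (x - 1))) * f x)
  ring

theorem oA_ob : oA ψ * ob = oa ψ * oa ψ * ob * oA ψ := by
  apply LinearEquiv.ext
  intro f
  funext x
  change ψ (-(x * (x - 1))) * f (x + 1) =
    ψ x * (ψ x * (ψ (-((x + 1) * (x + 1 - 1))) * f (x + 1)))
  rw [← mul_assoc, ← mul_assoc, ← psi_add, ← psi_add]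
  congr 2
  ring

/-- the diagonal operator used for the second twist -/
def oD : W n F ≃ₗ[F] W n F := mE ψ (fun x => -(x * (x + 1)))

theorem oD_apply (f : W n F) (x : ZMod n) : oD ψ f x = ψ (-(x * (x + 1))) * f x := rfl

theorem oD_oa : oD ψ * oa ψ = oa ψ * oD ψ := by
  apply LinearEquiv.ext
  intro f
  funext x
  change ψ (-(x * (x + 1))) * (ψ x * f x) = ψ x * (ψ (-(x * (x + 1))) * f x)
  ring

theorem oD_ob : oD ψ * ob = ob * oa ψ * oa ψ * oD ψ := by
  apply LinearEquiv.ext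
  intro f
  funext x
  change ψ (-(x * (x + 1))) * f (x + 1) =
    ψ (x + 1) * (ψ (x + 1) * (ψ (-((x + 1) * (x + 1 + 1))) * f (x + 1)))
  rw [← mul_assoc, ← mul_assoc, ← psi_add, ← psi_add]
  congr 2
  ring

/-- the reflection -/
def io : W n F ≃ₗ[F] W n F where
  toFun f := fun x => f (-x)
  map_add' f g := rfl
  map_smul' c f := rfl
  invFun f := fun x => f (-x)
  left_inv f := by
    funext x
    change f (- -x) = f x
    rw [neg_neg]
  right_inv f := by
    funext x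
    change f (- -x) = f x
    rw [neg_neg]

theorem io_apply (f : W n F) (x : ZMod n) : (io : W n F ≃ₗ[F] W n F) f x = f (-x) := rfl

theorem oD_ob_io : oD ψ * (ob * io) = ob * io * oD ψ := by
  apply LinearEquiv.ext
  intro f
  funext x
  change ψ (-(x * (x + 1))) * f (-(x + 1)) = ψ (-(-(x + 1) * (-(x + 1) + 1))) * f (-(x + 1))
  congr 2
  ring

end ops

section fourier

variable {n : ℕ} [NeZero n] {F : Type} [Field F] (ψ : AddChar (ZMod n) F)

/-- the Fourier transform -/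
def fo (f : W n F) : W n F := fun y => ∑ x, ψ (x * y) * f x

theorem fo_add (f g : W n F) : fo ψ (f + g) = fo ψ f + fo ψ g := by
  funext y
  change ∑ x, ψ (x * y) * (f x + g x) = ∑ x, ψ (x * y) * f x + ∑ x, ψ (x * y) * g x
  rw [← Finset.sum_add_distrib]
  exact Finset.sum_congr rfl fun x _ => mul_add _ _ _

theorem fo_smul (c : F) (f : W n F) : fo ψ (c • f) = c • fo ψ f := by
  funext y
  change ∑ x, ψ (x * y) * (c * f x) = c * ∑ x, ψ (x * y) * f x
  rw [Finset.mul_sum]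
  exact Finset.sum_congr rfl fun x _ => by ring

theorem fo_oa (f : W n F) : fo ψ (oa ψ f) = ob (fo ψ f) := by
  funext y
  change ∑ x, ψ (x * y) * (ψ x * f x) = ∑ x, ψ (x * (y + 1)) * f x
  refine Finset.sum_congr rfl fun x _ => ?_
  rw [mul_add, mul_one, psi_add]
  ring

theorem fo_ob (f : W n F) : fo ψ (ob f) = (oa ψ)⁻¹ (fo ψ f) := by
  funext y
  rw [oa_inv_apply]
  change ∑ x, ψ (x * y) * f (x + 1) = ψ (-y) * ∑ x, ψ (x * y) * f x
  rw [Finset.mul_sum]
  refine Fintype.sum_equiv (Equiv.addRight (1 : ZMod n)) _ _ fun x => ?_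
  change ψ (x * y) * f (x + 1) = ψ (-y) * (ψ ((x + 1) * y) * f (x + 1))
  rw [← mul_assoc, ← psi_add]
  congr 2
  ring

theorem fo_io (f : W n F) : fo ψ (io f) = io (fo ψ f) := by
  funext y
  change ∑ x, ψ (x * y) * f (-x) = ∑ x, ψ (x * (-y)) * f x
  refine Fintype.sum_equiv (Equiv.neg (ZMod n)) _ _ fun x => ?_
  change ψ (x * y) * f (-x) = ψ (-x * -y) * f (-x)
  rw [neg_mul_neg]

theorem sum_psi (hψ : ∀ x, ψ x = 1 → x = 0) (z : ZMod n) :
    ∑ x, ψ (x * z) = if z = 0 then (n : F) else 0 := by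
  split_ifs with h
  · subst h
    simp [ZMod.card]
  · have h1 : ψ z * ∑ x, ψ (x * z) = ∑ x, ψ (x * z) := by
      rw [Finset.mul_sum]
      refine Fintype.sum_equiv (Equiv.addRight (1 : ZMod n)) _ _ fun x => ?_
      change ψ z * ψ (x * z) = ψ ((x + 1) * z)
      rw [← psi_add]
      congr 1
      ring
    have h2 : (ψ z - 1) * ∑ x, ψ (x * z) = 0 := by
      rw [sub_mul, one_mul, h1, sub_self]
    rcases mul_eq_zero.1 h2 with h3 | h3
    · exact absurd (hψ z (sub_eq_zero.1 h3)) h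
    · exact h3

theorem fo_fo (hψ : ∀ x, ψ x = 1 → x = 0) (f : W n F) : fo ψ (fo ψ f) = (n : F) • io f := by
  funext z
  change ∑ y, ψ (y * z) * ∑ x, ψ (x * y) * f x = (n : F) * f (-z)
  have h1 : ∀ y, ψ (y * z) * ∑ x, ψ (x * y) * f x = ∑ x, ψ (y * (x + z)) * f x := by
    intro y
    rw [Finset.mul_sum]
    refine Finset.sum_congr rfl fun x _ => ?_
    rw [← mul_assoc, ← psi_add]
    congr 2
    ring
  rw [Finset.sum_congr rfl fun y _ => h1 y, Finset.sum_comm]
  have h2 : ∀ x, ∑ y, ψ (y * (x + z)) * f x = if x = -z then (n : F) * f x else 0 := by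
    intro x
    rw [← Finset.sum_mul, sum_psi ψ hψ]
    by_cases h : x = -z
    · rw [if_pos h, if_pos (by rw [h, neg_add_cancel])]
    · rw [if_neg h, if_neg (fun h' => h (eq_neg_of_add_eq_zero_left h')), zero_mul]
  rw [Finset.sum_congr rfl fun x _ => h2 x, Finset.sum_ite_eq']
  simp

/-- the Fourier transform as an automorphism -/
def oF (hψ : ∀ x, ψ x = 1 → x = 0) (hn : (n : F) ≠ 0) : W n F ≃ₗ[F] W n F where
  toFun := fo ψ
  map_add' := fo_add ψ
  map_smul' := fo_smul ψ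
  invFun f := (n : F)⁻¹ • io (fo ψ f)
  left_inv f := by
    change (n : F)⁻¹ • io (fo ψ (fo ψ f)) = f
    rw [fo_fo ψ hψ]
    funext x
    change (n : F)⁻¹ * ((n : F) * f (- -x)) = f x
    rw [neg_neg, inv_mul_cancel_left₀ hn]
  right_inv f := by
    change fo ψ ((n : F)⁻¹ • io (fo ψ f)) = f
    rw [fo_smul, fo_io, fo_fo ψ hψ]
    funext x
    change (n : F)⁻¹ * ((n : F) * f (- -x)) = f x
    rw [neg_neg, inv_mul_cancel_left₀ hn]

variable (hψ : ∀ x, ψ x = 1 → x = 0) (hn : (n : F) ≠ 0)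

theorem oF_oa : oF ψ hψ hn * oa ψ = ob * oF ψ hψ hn := LinearEquiv.ext fun f => fo_oa ψ f
theorem oF_ob : oF ψ hψ hn * ob = (oa ψ)⁻¹ * oF ψ hψ hn := LinearEquiv.ext fun f => fo_ob ψ f
theorem oF_io : oF ψ hψ hn * io = io * oF ψ hψ hn := LinearEquiv.ext fun f => fo_io ψ f

/-- the intertwiner of the second twist -/
def oB : W n F ≃ₗ[F] W n F := (oF ψ hψ hn)⁻¹ * oD ψ * oF ψ hψ hn

theorem oB_ob : oB ψ hψ hn * ob = ob * oB ψ hψ hn := by
  have h1 := oF_ob ψ hψ hn
  have h2 := oD_oa ψ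
  set P := oF ψ hψ hn with hP
  set D := oD ψ with hD
  have h3 : P⁻¹ * (oa ψ)⁻¹ = ob * P⁻¹ := by
    rw [inv_mul_eq_iff_eq_mul, ← mul_assoc, h1]
    group
  have h4 : D * (oa ψ)⁻¹ = (oa ψ)⁻¹ * D := by
    rw [mul_inv_eq_iff_eq_mul, mul_assoc, h2]
    group
  change P⁻¹ * D * P * ob = ob * (P⁻¹ * D * P)
  calc P⁻¹ * D * P * ob = P⁻¹ * D * (P * ob) := by group
    _ = P⁻¹ * (D * (oa ψ)⁻¹) * P := by rw [h1]; group
    _ = (P⁻¹ * (oa ψ)⁻¹) * D * P := by rw [h4]; group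
    _ = ob * (P⁻¹ * D * P) := by rw [h3]; group

theorem oB_oa : oB ψ hψ hn * oa ψ = oa ψ * ob⁻¹ * ob⁻¹ * oB ψ hψ hn := by
  have h1 := oF_oa ψ hψ hn
  have h1' := oF_ob ψ hψ hn
  have h2 := oD_ob ψ
  set P := oF ψ hψ hn with hP
  set D := oD ψ with hD
  have h3 : P⁻¹ * ob = oa ψ * P⁻¹ := by
    rw [inv_mul_eq_iff_eq_mul, ← mul_assoc, h1]
    group
  have h4 : P⁻¹ * oa ψ = ob⁻¹ * P⁻¹ := by
    rw [inv_mul_eq_iff_eq_mul, ← mul_assoc]
    have : P * ob⁻¹ = oa ψ * P := by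
      rw [mul_inv_eq_iff_eq_mul, mul_assoc, h1']
      group
    rw [this]
    group
  change P⁻¹ * D * P * oa ψ = oa ψ * ob⁻¹ * ob⁻¹ * (P⁻¹ * D * P)
  calc P⁻¹ * D * P * oa ψ = P⁻¹ * (D * ob) * P := by rw [mul_assoc _ P, h1]; group
    _ = (P⁻¹ * ob) * oa ψ * oa ψ * D * P := by rw [h2]; group
    _ = oa ψ * (P⁻¹ * oa ψ) * oa ψ * D * P := by rw [h3]; group
    _ = oa ψ * (ob⁻¹ * P⁻¹) * oa ψ * D * P := by rw [h4]
    _ = oa ψ * ob⁻¹ * (P⁻¹ * oa ψ) * D * P := by group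
    _ = oa ψ * ob⁻¹ * ob⁻¹ * (P⁻¹ * D * P) := by rw [h4]; group

theorem oB_oa_io : oB ψ hψ hn * (oa ψ * io) = oa ψ * io * oB ψ hψ hn := by
  have h1 := oF_oa ψ hψ hn
  have h1' := oF_io ψ hψ hn
  have h2 := oD_ob_io ψ
  set P := oF ψ hψ hn with hP
  set D := oD ψ with hD
  have h5 : P * (oa ψ * io) = ob * io * P := by
    rw [← mul_assoc, h1, mul_assoc, h1']
    group
  have h3 : P⁻¹ * (ob * io) = oa ψ * io * P⁻¹ := by
    rw [inv_mul_eq_iff_eq_mul, ← mul_assoc, h5]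
    group
  change P⁻¹ * D * P * (oa ψ * io) = oa ψ * io * (P⁻¹ * D * P)
  calc P⁻¹ * D * P * (oa ψ * io) = P⁻¹ * (D * (ob * io)) * P := by rw [mul_assoc _ P, h5]; group
    _ = (P⁻¹ * (ob * io)) * D * P := by rw [h2]; group
    _ = oa ψ * io * (P⁻¹ * D * P) := by rw [h3]; group

theorem mE_pow (q : ZMod n → ZMod n) (k : ℕ) (f : W n F) (x : ZMod n) :
    (mE ψ q ^ k) f x = ψ (k * q x) * f x := by
  induction k generalizing f with
  | zero => simp
  | succ k ih =>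
    rw [pow_succ, LinearEquiv.mul_apply, ih, mE_apply, ← mul_assoc, ← psi_add]
    congr 2
    push_cast
    ring

theorem mE_pow_n (q : ZMod n → ZMod n) : mE ψ q ^ n = (1 : W n F ≃ₗ[F] W n F) := by
  apply LinearEquiv.ext
  intro f
  funext x
  rw [mE_pow, ZMod.natCast_self, zero_mul, AddChar.map_zero_eq_one, one_mul]
  rfl

theorem oA_pow : oA ψ ^ n = (1 : W n F ≃ₗ[F] W n F) := mE_pow_n ψ _
theorem oa_pow : oa ψ ^ n = (1 : W n F ≃ₗ[F] W n F) := mE_pow_n ψ _
theorem oD_pow : oD ψ ^ n = (1 : W n F ≃ₗ[F] W n F) := mE_pow_n ψ _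

theorem oB_pow : oB ψ hψ hn ^ n = 1 := by
  have h : ∀ k : ℕ, oB ψ hψ hn ^ k = (oF ψ hψ hn)⁻¹ * oD ψ ^ k * oF ψ hψ hn := by
    intro k
    induction k with
    | zero => simp
    | succ k ih =>
      rw [pow_succ, ih, oB, pow_succ]
      group
  rw [h, oD_pow]
  group

theorem ob_pow (k : ℕ) (f : W n F) (x : ZMod n) :
    ((ob : W n F ≃ₗ[F] W n F) ^ k) f x = f (x + k) := by
  induction k generalizing f with
  | zero => simp
  | succ k ih =>
    rw [pow_succ, LinearEquiv.mul_apply, ih, ob_apply]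
    congr 1
    push_cast
    ring

theorem ob_pow_n : (ob : W n F ≃ₗ[F] W n F) ^ n = 1 := by
  apply LinearEquiv.ext
  intro f
  funext x
  rw [ob_pow, ZMod.natCast_self, add_zero]
  rfl

end fourier

end Pool.MP_22db8c_al.HW
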