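import Pool.Agent.H.MP_22db8c_al.Sol1

set_option autoImplicit false

/-!
MP_22db8c_al, Heisenberg representations: the action of the twists on the cocycles.
-/

namespace Pool.MP_22db8c_al.HW

open FreeGroup (of)
open Pool.MP_59b15d_al.H76 (F2 XX YY VV VV_0 VV_1)

section abs

variable {F M : Type} [Field F] [AddCommGroup M] [Module F M]

theorem le_mul (f g : M ≃ₗ[F] M) (x : M) : (f * g) x = f (g x) := rfl
theorem le_inv (f : M ≃ₗ[F] M) (x : M) : f⁻¹ (f x) = x := f.symm_apply_apply x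
theorem le_inv' (f : M ≃ₗ[F] M) (x : M) : f (f⁻¹ x) = x := f.apply_symm_apply x

/-- the affine group of the space -/
abbrev UU (F M : Type) [Field F] [AddCommGroup M] [Module F M] : Type := SD (M ≃ₗ[F] M) M

/-- the homomorphism given by the cocycle -/
def cz (a b : M ≃ₗ[F] M) (z : M × M) : F2 →* UU F M := FreeGroup.lift ![⟨a, a z.1⟩, ⟨b, z.2⟩]

theorem cz_0 (a b : M ≃ₗ[F] M) (z : M × M) : cz a b z (of 0) = ⟨a, a z.1⟩ := by simp [cz]
theorem cz_1 (a b : M ≃ₗ[F] M) (z : M × M) : cz a b z (of 1) = ⟨b, z.2⟩ := by simp [cz]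

/-- the action of the first twist -/
def Xe (a A : M ≃ₗ[F] M) : (M × M) ≃ₗ[F] (M × M) where
  toFun z := (A⁻¹ z.1, A⁻¹ (a (a z.2) + a z.1 + a (a z.1)))
  map_add' z w := by
    refine Prod.ext ?_ ?_
    · exact map_add A⁻¹ _ _
    · change A⁻¹ (a (a (z.2 + w.2)) + a (z.1 + w.1) + a (a (z.1 + w.1))) =
        A⁻¹ (a (a z.2) + a z.1 + a (a z.1)) + A⁻¹ (a (a w.2) + a w.1 + a (a w.1))
      rw [← map_add A⁻¹]
      congr 1
      simp only [map_add]
      abel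
  map_smul' c z := by
    refine Prod.ext ?_ ?_
    · exact map_smul A⁻¹ _ _
    · change A⁻¹ (a (a (c • z.2)) + a (c • z.1) + a (a (c • z.1))) =
        c • A⁻¹ (a (a z.2) + a z.1 + a (a z.1))
      rw [← map_smul A⁻¹]
      congr 1
      simp only [map_smul, smul_add]
  invFun z := (A z.1, a⁻¹ (a⁻¹ (A z.2 - a (A z.1) - a (a (A z.1)))))
  left_inv z := by
    refine Prod.ext ?_ ?_
    · exact le_inv' A z.1
    · change a⁻¹ (a⁻¹ (A (A⁻¹ (a (a z.2) + a z.1 + a (a z.1))) - a (A (A⁻¹ z.1)) -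
        a (a (A (A⁻¹ z.1))))) = z.2
      rw [le_inv', le_inv', add_sub_assoc, add_sub_assoc]
      have h : a (a z.2) + a z.1 + a (a z.1) - a z.1 - a (a z.1) = a (a z.2) := by abel
      rw [← add_sub_assoc, ← add_sub_assoc, h, le_inv, le_inv]
  right_inv z := by
    refine Prod.ext ?_ ?_
    · exact le_inv A z.1
    · change A⁻¹ (a (a (a⁻¹ (a⁻¹ (A z.2 - a (A z.1) - a (a (A z.1)))))) + a (A z.1) +
        a (a (A z.1))) = z.2
      rw [le_inv', le_inv']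
      have h : A z.2 - a (A z.1) - a (a (A z.1)) + a (A z.1) + a (a (A z.1)) = A z.2 := by abel
      rw [h, le_inv]

theorem Xe_apply (a A : M ≃ₗ[F] M) (z : M × M) : Xe a A z =
    (A⁻¹ z.1, A⁻¹ (a (a z.2) + a z.1 + a (a z.1))) := rfl

/-- the action of the second twist -/
def Ye (b B : M ≃ₗ[F] M) : (M × M) ≃ₗ[F] (M × M) where
  toFun z := (B⁻¹ (b (b z.1) - z.2 - b z.2), B⁻¹ z.2)
  map_add' z w := by
    refine Prod.ext ?_ ?_
    · change B⁻¹ (b (b (z.1 + w.1)) - (z.2 + w.2) - b (z.2 + w.2)) =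
        B⁻¹ (b (b z.1) - z.2 - b z.2) + B⁻¹ (b (b w.1) - w.2 - b w.2)
      rw [← map_add B⁻¹]
      congr 1
      simp only [map_add]
      abel
    · exact map_add B⁻¹ _ _
  map_smul' c z := by
    refine Prod.ext ?_ ?_
    · change B⁻¹ (b (b (c • z.1)) - c • z.2 - b (c • z.2)) = c • B⁻¹ (b (b z.1) - z.2 - b z.2)
      rw [← map_smul B⁻¹]
      congr 1
      simp only [map_smul, smul_sub]
    · exact map_smul B⁻¹ _ _
  invFun z := (b⁻¹ (b⁻¹ (B z.1 + B z.2 + b (B z.2))), B z.2)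
  left_inv z := by
    refine Prod.ext ?_ ?_
    · change b⁻¹ (b⁻¹ (B (B⁻¹ (b (b z.1) - z.2 - b z.2)) + B (B⁻¹ z.2) + b (B (B⁻¹ z.2)))) = z.1
      rw [le_inv', le_inv']
      have h : b (b z.1) - z.2 - b z.2 + z.2 + b z.2 = b (b z.1) := by abel
      rw [h, le_inv, le_inv]
    · exact le_inv' B z.2
  right_inv z := by
    refine Prod.ext ?_ ?_
    · change B⁻¹ (b (b (b⁻¹ (b⁻¹ (B z.1 + B z.2 + b (B z.2))))) - B z.2 - b (B z.2)) = z.1
      rw [le_inv', le_inv']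
      have h : B z.1 + B z.2 + b (B z.2) - B z.2 - b (B z.2) = B z.1 := by abel
      rw [h, le_inv]
    · exact le_inv B z.2

theorem Ye_apply (b B : M ≃ₗ[F] M) (z : M × M) : Ye b B z =
    (B⁻¹ (b (b z.1) - z.2 - b z.2), B⁻¹ z.2) := rfl

theorem cz_XX (a b A : M ≃ₗ[F] M) (e1 : A * a = a * A) (e2 : A * b = a * a * b * A)
    (z : M × M) (g : F2) :
    cz a b z (XX g) = (⟨A, 0⟩ : UU F M) * cz a b (Xe a A z) g * (⟨A, 0⟩ : UU F M)⁻¹ := by
  refine hom_ext2 (f := (cz a b z).comp XX.toMonoidHom)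
    (g := (MulAut.conj (⟨A, 0⟩ : UU F M)).toMonoidHom.comp (cz a b (Xe a A z))) ?_ ?_ g
  · change cz a b z (XX (of 0)) = (⟨A, 0⟩ : UU F M) * cz a b (Xe a A z) (of 0) * (⟨A, 0⟩ : UU F M)⁻¹
    rw [Pool.MP_59b15d_al.H76.XX_a, cz_0, cz_0, eq_mul_inv_iff_mul_eq]
    apply SD.ext
    · exact e1.symm
    · change a z.1 + a 0 = 0 + A (a (A⁻¹ z.1))
      rw [← le_mul A a, e1, le_mul, le_inv', map_zero, add_zero, zero_add]
  · change cz a b z (XX (of 1)) = (⟨A, 0⟩ : UU F M) * cz a b (Xe a A z) (of 1) * (⟨A, 0⟩ : UU F M)⁻¹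
    rw [Pool.MP_59b15d_al.H76.XX_b, map_mul, map_mul, cz_0, cz_1, cz_1, eq_mul_inv_iff_mul_eq]
    apply SD.ext
    · exact e2.symm
    · change a z.1 + a (a z.1) + (a * a) z.2 + (a * a * b) 0 =
        0 + A (A⁻¹ (a (a z.2) + a z.1 + a (a z.1)))
      rw [le_inv', map_zero, add_zero, zero_add, le_mul]
      abel

theorem cz_YY (a b B : M ≃ₗ[F] M) (e1 : B * a = a * b⁻¹ * b⁻¹ * B) (e2 : B * b = b * B)
    (z : M × M) (g : F2) :
    cz a b z (YY g) = (⟨B, 0⟩ : UU F M) * cz a b (Ye b B z) g * (⟨B, 0⟩ : UU F M)⁻¹ := by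
  refine hom_ext2 (f := (cz a b z).comp YY.toMonoidHom)
    (g := (MulAut.conj (⟨B, 0⟩ : UU F M)).toMonoidHom.comp (cz a b (Ye b B z))) ?_ ?_ g
  · change cz a b z (YY (of 0)) = (⟨B, 0⟩ : UU F M) * cz a b (Ye b B z) (of 0) *
      (⟨B, 0⟩ : UU F M)⁻¹
    rw [Pool.MP_59b15d_al.H76.YY_a, map_mul, map_mul, map_inv, cz_0, cz_1, cz_0,
      eq_mul_inv_iff_mul_eq]
    apply SD.ext
    · exact e1.symm
    · change a z.1 + a (-(b⁻¹ z.2)) + (a * b⁻¹) (-(b⁻¹ z.2)) +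
        (a * b⁻¹ * b⁻¹) 0 = 0 + B (a (B⁻¹ (b (b z.1) - z.2 - b z.2)))
      rw [← le_mul B a, e1, le_mul _ B, le_inv', map_zero, add_zero, zero_add, map_sub, map_sub,
        map_neg, map_neg, le_mul, le_mul, le_mul, le_mul, le_inv, le_inv, le_mul, le_mul, le_mul,
        le_inv]
      abel
  · change cz a b z (YY (of 1)) = (⟨B, 0⟩ : UU F M) * cz a b (Ye b B z) (of 1) *
      (⟨B, 0⟩ : UU F M)⁻¹
    rw [Pool.MP_59b15d_al.H76.YY_b, cz_1, cz_1, eq_mul_inv_iff_mul_eq]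
    apply SD.ext
    · exact e2.symm
    · change z.2 + b 0 = 0 + B (B⁻¹ z.2)
      rw [le_inv', map_zero, add_zero, zero_add]

/-- the intertwiners of the words -/
def Cw (A B : M ≃ₗ[F] M) : F2 →* (M ≃ₗ[F] M) := FreeGroup.lift ![A, B]

/-- the representation on the pairs; the word `u` acts by the inverse -/
def R0 (a b A B : M ≃ₗ[F] M) : F2 →* ((M × M) ≃ₗ[F] (M × M)) :=
  FreeGroup.lift ![(Xe a A)⁻¹, (Ye b B)⁻¹]

theorem R0_0 (a b A B : M ≃ₗ[F] M) : (R0 a b A B (of 0))⁻¹ = Xe a A := by simp [R0]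
theorem R0_1 (a b A B : M ≃ₗ[F] M) : (R0 a b A B (of 1))⁻¹ = Ye b B := by simp [R0]

theorem cz_VV (a b A B : M ≃ₗ[F] M) (e1 : A * a = a * A) (e2 : A * b = a * a * b * A)
    (e3 : B * a = a * b⁻¹ * b⁻¹ * B) (e4 : B * b = b * B) (u : F2) : ∀ (z : M × M) (g : F2),
    cz a b z (VV u g) = (⟨Cw A B u, 0⟩ : UU F M) * cz a b ((R0 a b A B u)⁻¹ z) g *
      (⟨Cw A B u, 0⟩ : UU F M)⁻¹ := by
  induction u using FreeGroup.induction_on with
  | C1 =>
    intro z g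
    rw [map_one, map_one, map_one, MulAut.one_apply, inv_one]
    change cz a b z g = (1 : UU F M) * cz a b z g * (1 : UU F M)⁻¹
    rw [one_mul, inv_one, mul_one]
  | of i =>
    intro z g
    fin_cases i
    · change cz a b z (VV (of 0) g) = (⟨Cw A B (of 0), 0⟩ : UU F M) *
        cz a b ((R0 a b A B (of 0))⁻¹ z) g * (⟨Cw A B (of 0), 0⟩ : UU F M)⁻¹
      rw [R0_0, VV_0, cz_XX a b A e1 e2]
      simp [Cw]
    · change cz a b z (VV (of 1) g) = (⟨Cw A B (of 1), 0⟩ : UU F M) *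
        cz a b ((R0 a b A B (of 1))⁻¹ z) g * (⟨Cw A B (of 1), 0⟩ : UU F M)⁻¹
      rw [R0_1, VV_1, cz_YY a b B e3 e4]
      simp [Cw]
  | inv_of i ih =>
    intro z g
    have h1 := ih ((R0 a b A B (of i)⁻¹)⁻¹ z) (VV (of i)⁻¹ g)
    rw [← MulAut.mul_apply, ← map_mul, mul_inv_cancel, map_one, MulAut.one_apply] at h1
    have h2 : (R0 a b A B (of i))⁻¹ ((R0 a b A B (of i)⁻¹)⁻¹ z) = z := by
      rw [map_inv, inv_inv]
      exact le_inv _ z
    rw [h2] at h1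
    have h3 : (⟨Cw A B (of i)⁻¹, 0⟩ : UU F M) = (⟨Cw A B (of i), 0⟩ : UU F M)⁻¹ := by
      apply SD.ext
      · exact map_inv _ _
      · change (0 : M) = -((Cw A B (of i))⁻¹ 0)
        rw [map_zero, neg_zero]
    rw [h3, h1]
    group
  | mul u v hu hv =>
    intro z g
    rw [map_mul, MulAut.mul_apply, hu, hv]
    have h3 : (⟨Cw A B (u * v), 0⟩ : UU F M) = (⟨Cw A B u, 0⟩ : UU F M) *
        (⟨Cw A B v, 0⟩ : UU F M) := by
      apply SD.ext
      · exact map_mul _ _ _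
      · change (0 : M) = 0 + (Cw A B u) 0
        rw [map_zero, zero_add]
    have h4 : (R0 a b A B (u * v))⁻¹ z = (R0 a b A B v)⁻¹ ((R0 a b A B u)⁻¹ z) := by
      rw [map_mul, mul_inv_rev]
      rfl
    rw [h3, h4]
    group

end abs

end Pool.MP_22db8c_al.HW
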