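import Pool.Agent.H.MP_22db8c_al.helper22.HwB

set_option autoImplicit false

/-!
MP_22db8c_al, Heisenberg representations: a word which acts as an inner automorphism acts on the
cocycles by a scalar.
-/

namespace Pool.MP_22db8c_al.HW

open FreeGroup (of)
open Pool.MP_59b15d_al.H76 (F2 XX YY VV VV_0 VV_1)

section abs

variable {F M : Type} [Field F] [AddCommGroup M] [Module F M]

/-- the linear part -/
def La (a b : M ≃ₗ[F] M) : F2 →* (M ≃ₗ[F] M) := FreeGroup.lift ![a, b]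

theorem cz_p (a b : M ≃ₗ[F] M) (z : M × M) (g : F2) : (cz a b z g).p = La a b g := by
  refine hom_ext2 (f := (SD.pr : UU F M →* (M ≃ₗ[F] M)).comp (cz a b z)) (g := La a b) ?_ ?_ g
  · rw [MonoidHom.comp_apply, cz_0]
    simp [La, SD.pr]
  · rw [MonoidHom.comp_apply, cz_1]
    simp [La, SD.pr]

theorem rel_c (a b A B : M ≃ₗ[F] M) (e1 : A * a = a * A) (e2 : A * b = a * a * b * A)
    (e3 : B * a = a * b⁻¹ * b⁻¹ * B) (e4 : B * b = b * B)
    (sch : ∀ C : M ≃ₗ[F] M, C * a = a * C → C * b = b * C → ∃ c : F, ∀ x, C x = c • x)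
    (q : F) (hq : q ≠ 1) (hom : ∀ x, La a b om x = q • x) (u k : F2)
    (hyp : ∀ (z : M × M) (g : F2), cz a b z (VV u g) = cz a b z k * cz a b z g * (cz a b z k)⁻¹) :
    ∃ c : F, (∀ x, La a b k x = c • Cw A B u x) ∧
      ∀ z : M × M, (cz a b z om).m = 0 → (R0 a b A B u)⁻¹ z = c • z := by
  set C := Cw A B u with hC
  -- the main relation
  obtain ⟨κ, kp, main⟩ : ∃ κ : M × M → UU F M, (∀ z, (κ z).p = C⁻¹ * La a b k) ∧
      ∀ (z : M × M) (g : F2), cz a b ((R0 a b A B u)⁻¹ z) g * κ z = κ z * cz a b z g := by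
    refine ⟨fun z => (⟨C, 0⟩ : UU F M)⁻¹ * cz a b z k, fun z => ?_, fun z g => ?_⟩
    · change ((⟨C, 0⟩ : UU F M)⁻¹ * cz a b z k).p = _
      rw [SD.mul_p, SD.inv_p, cz_p]
    · have h1 := hyp z g
      rw [cz_VV a b A B e1 e2 e3 e4 u z g, ← hC] at h1
      have h2 : cz a b ((R0 a b A B u)⁻¹ z) g = (⟨C, 0⟩ : UU F M)⁻¹ *
          ((⟨C, 0⟩ : UU F M) * cz a b ((R0 a b A B u)⁻¹ z) g * (⟨C, 0⟩ : UU F M)⁻¹) *
          (⟨C, 0⟩ : UU F M) := by group
      rw [h2, h1]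
      group
  obtain ⟨c, hc⟩ : ∃ c : F, ∀ x, (C⁻¹ * La a b k) x = c • x := by
    apply sch
    · have h1 := congrArg SD.p (main 0 (of 0))
      rw [SD.mul_p, SD.mul_p, kp, cz_0, cz_0] at h1
      exact h1.symm
    · have h1 := congrArg SD.p (main 0 (of 1))
      rw [SD.mul_p, SD.mul_p, kp, cz_1, cz_1] at h1
      exact h1.symm
  refine ⟨c, fun x => ?_, fun z hz => ?_⟩
  · have h1 := congrArg C (hc x)
    rw [le_mul, le_inv', map_smul] at h1
    exact h1
  · -- the value at the commutator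
    have m1 : (cz a b ((R0 a b A B u)⁻¹ z) om).m = 0 := by
      have h1 := cz_VV a b A B e1 e2 e3 e4 u z om
      rw [VV_om, ← hC, eq_mul_inv_iff_mul_eq] at h1
      have h2 := congrArg SD.m h1
      rw [SD.mul_m, SD.mul_m, hz] at h2
      change (0 : M) + (cz a b z om).p 0 = 0 + C (cz a b ((R0 a b A B u)⁻¹ z) om).m at h2
      rw [map_zero, add_zero, zero_add] at h2
      have h3 := congrArg (fun x => C⁻¹ x) h2
      change C⁻¹ (0 : M) = C⁻¹ (C (cz a b ((R0 a b A B u)⁻¹ z) om).m) at h3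
      rw [le_inv, map_zero] at h3
      exact h3.symm
    have m2 : (κ z).m = 0 := by
      have h2 := congrArg SD.m (main z om)
      rw [SD.mul_m, SD.mul_m, hz, m1, cz_p, zero_add, smul_zero, add_zero] at h2
      change La a b om _ = _ at h2
      rw [hom] at h2
      have h3 : (q - 1) • (κ z).m = 0 := by
        rw [sub_smul, one_smul, h2, sub_self]
      rcases smul_eq_zero.1 h3 with h4 | h4
      · exact absurd (sub_eq_zero.1 h4) hq
      · exact h4
    have m3 := congrArg SD.m (main z (of 0))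
    have m4 := congrArg SD.m (main z (of 1))
    rw [SD.mul_m, SD.mul_m, m2, kp, cz_0, cz_0, smul_zero, add_zero, zero_add] at m3
    rw [SD.mul_m, SD.mul_m, m2, kp, cz_1, cz_1, smul_zero, add_zero, zero_add] at m4
    change a ((R0 a b A B u)⁻¹ z).1 = (C⁻¹ * La a b k) (a z.1) at m3
    change ((R0 a b A B u)⁻¹ z).2 = (C⁻¹ * La a b k) z.2 at m4
    rw [hc, ← map_smul] at m3
    rw [hc] at m4
    refine Prod.ext ?_ m4
    exact a.injective m3

/-- the value at the commutator vanishes if the pair satisfies one equation -/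
theorem cz_om (a b : M ≃ₗ[F] M) (z : M × M) (h : b z.1 - z.1 = z.2 - a⁻¹ z.2) :
    (cz a b z om).m = 0 := by
  have h1 : (cz a b z om).m = a z.1 - a (b⁻¹ z.2) - a (b⁻¹ (a⁻¹ (a z.1))) +
      a (b⁻¹ (a⁻¹ z.2)) := by
    rw [om, map_mul, map_mul, map_mul, map_inv, map_inv, cz_0, cz_1]
    change a z.1 + a (-(b⁻¹ z.2)) + (a * b⁻¹) (-(a⁻¹ (a z.1))) + (a * b⁻¹ * a⁻¹) z.2 = _
    rw [map_neg, map_neg, le_mul, le_mul, le_mul]
    abel
  have h2 : z.1 - b⁻¹ z.1 = b⁻¹ z.2 - b⁻¹ (a⁻¹ z.2) := by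
    rw [← map_sub, ← h, map_sub, le_inv]
  rw [h1, le_inv]
  have h3 : a z.1 - a (b⁻¹ z.2) - a (b⁻¹ z.1) + a (b⁻¹ (a⁻¹ z.2)) =
      a (z.1 - b⁻¹ z.1) - a (b⁻¹ z.2 - b⁻¹ (a⁻¹ z.2)) := by
    rw [map_sub, map_sub]
    abel
  rw [h3, h2, sub_self]

end abs

end Pool.MP_22db8c_al.HW
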