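import Pool.Agent.H.MP_22db8c_al.Sol4
import Pool.Agent.H.MP_22db8c_al.helper22.HwA
import Pool.Agent.H.MP_22db8c_al.helper22.HwC

set_option autoImplicit false

/-!
MP_22db8c_al, Heisenberg representations: the finite group, Schur's lemma and determinants.
-/

namespace Pool.MP_22db8c_al.HW

open FreeGroup (of)
open Pool.MP_59b15d_al.H76 (F2 XX YY VV VV_0 VV_1)

section sub

variable {F M : Type} [Field F] [AddCommGroup M] [Module F M]

theorem sd_derived' {P N : Type} [Group P] [AddCommGroup N] [DistribMulAction P N] (s : ℕ)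
    (h : derivedSeries P s = ⊥) : derivedSeries (SD P N) (s + 1) = ⊥ := by
  rw [eq_bot_iff, derivedSeries_succ, Subgroup.commutator_le]
  have hp : ∀ a ∈ derivedSeries (SD P N) s, a.p = 1 := by
    intro a ha
    have := map_derivedSeries_le_derivedSeries (SD.pr : SD P N →* P) s ⟨a, ha, rfl⟩
    rw [h, Subgroup.mem_bot] at this
    exact this
  intro a ha b hb
  rw [Subgroup.mem_bot, commutatorElement_eq_one_iff_mul_comm]
  apply SD.ext
  · rw [SD.mul_p, SD.mul_p, hp a ha, hp b hb]
  · rw [SD.mul_m, SD.mul_m, hp a ha, hp b hb, one_smul, one_smul, add_comm]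

/-- the inclusion of the semidirect product with a subgroup -/
def incl (H : Subgroup (M ≃ₗ[F] M)) : SD H M →* UU F M :=
  SD.map H.subtype (AddMonoidHom.id M) (fun _ _ => rfl)

theorem hyp_of (H : Subgroup (M ≃ₗ[F] M)) (a b : M ≃ₗ[F] M) (ha : a ∈ H) (hb : b ∈ H) (u k : F2)
    (h : ∀ (φ : F2 →* SD H M) (g : F2), φ (VV u g) = φ k * φ g * (φ k)⁻¹) (z : M × M) (g : F2) :
    cz a b z (VV u g) = cz a b z k * cz a b z g * (cz a b z k)⁻¹ := by
  set φ : F2 →* SD H M := FreeGroup.lift ![⟨⟨a, ha⟩, a z.1⟩, ⟨⟨b, hb⟩, z.2⟩] with hφ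
  have h1 : ∀ x, incl H (φ x) = cz a b z x := by
    intro x
    refine hom_ext2 (f := (incl H).comp φ) (g := cz a b z) ?_ ?_ x
    · rw [MonoidHom.comp_apply, cz_0, hφ, FreeGroup.lift_apply_of]
      rfl
    · rw [MonoidHom.comp_apply, cz_1, hφ, FreeGroup.lift_apply_of]
      rfl
  rw [← h1, h φ g, map_mul, map_mul, map_inv, h1, h1]

end sub

section heis

/-- the Heisenberg group -/
@[ext] structure Hs (n : ℕ) where
  x : ZMod n
  y : ZMod n
  z : ZMod n

namespace Hs

variable {n : ℕ}

instance : Mul (Hs n) := ⟨fun a b => ⟨a.x + b.x, a.y + b.y, a.z + b.z + b.x * a.y⟩⟩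
instance : One (Hs n) := ⟨⟨0, 0, 0⟩⟩
instance : Inv (Hs n) := ⟨fun a => ⟨-a.x, -a.y, -a.z + a.x * a.y⟩⟩

@[simp] theorem mul_x (a b : Hs n) : (a * b).x = a.x + b.x := rfl
@[simp] theorem mul_y (a b : Hs n) : (a * b).y = a.y + b.y := rfl
@[simp] theorem mul_z (a b : Hs n) : (a * b).z = a.z + b.z + b.x * a.y := rfl
@[simp] theorem one_x : (1 : Hs n).x = 0 := rfl
@[simp] theorem one_y : (1 : Hs n).y = 0 := rfl
@[simp] theorem one_z : (1 : Hs n).z = 0 := rfl
@[simp] theorem inv_x (a : Hs n) : (a⁻¹).x = -a.x := rfl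
@[simp] theorem inv_y (a : Hs n) : (a⁻¹).y = -a.y := rfl
@[simp] theorem inv_z (a : Hs n) : (a⁻¹).z = -a.z + a.x * a.y := rfl

instance : Group (Hs n) where
  mul_assoc a b c := by
    ext
    · simp [add_assoc]
    · simp [add_assoc]
    · simp only [mul_x, mul_y, mul_z]
      ring
  one_mul a := by ext <;> simp
  mul_one a := by ext <;> simp
  inv_mul_cancel a := by
    ext
    · simp
    · simp
    · simp only [mul_z, inv_z, inv_y, one_z]
      ring

instance [NeZero n] : Finite (Hs n) :=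
  Finite.of_injective (fun a : Hs n => (a.x, a.y, a.z)) (by
    intro a b h
    simp only [Prod.mk.injEq] at h
    exact Hs.ext h.1 h.2.1 h.2.2)

/-- the projection to the abelianization -/
def ab : Hs n →* Multiplicative (ZMod n × ZMod n) where
  toFun a := Multiplicative.ofAdd (a.x, a.y)
  map_one' := rfl
  map_mul' _ _ := rfl

theorem derived : derivedSeries (Hs n) 2 = ⊥ := by
  have h1 : derivedSeries (Hs n) 1 ≤ (ab : Hs n →* _).ker := by
    rw [derivedSeries_one]
    exact Abelianization.commutator_subset_ker _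
  have h2 : ∀ a ∈ derivedSeries (Hs n) 1, a.x = 0 ∧ a.y = 0 := by
    intro a ha
    have := h1 ha
    rw [MonoidHom.mem_ker] at this
    have h3 : (a.x, a.y) = (0, 0) := this
    exact Prod.mk.injEq _ _ _ _ ▸ h3
  rw [eq_bot_iff, derivedSeries_succ, Subgroup.commutator_le]
  intro a ha b hb
  rw [Subgroup.mem_bot, commutatorElement_eq_one_iff_mul_comm]
  obtain ⟨a1, a2⟩ := h2 a ha
  obtain ⟨b1, b2⟩ := h2 b hb
  ext
  · simp [a1, b1]
  · simp [a2, b2]
  · simp [a1, a2, b1, b2, add_comm]

end Hs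

variable {n : ℕ} {F : Type} [Field F] (ψ : AddChar (ZMod n) F)

/-- the operator of an element of the Heisenberg group -/
def hsE (h : Hs n) : W n F ≃ₗ[F] W n F where
  toFun f := fun t => ψ (h.z + h.x * t) * f (t + h.y)
  map_add' f g := by
    funext t
    change ψ (h.z + h.x * t) * (f (t + h.y) + g (t + h.y)) =
      ψ (h.z + h.x * t) * f (t + h.y) + ψ (h.z + h.x * t) * g (t + h.y)
    ring
  map_smul' c f := by
    funext t
    change ψ (h.z + h.x * t) * (c * f (t + h.y)) = c * (ψ (h.z + h.x * t) * f (t + h.y))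
    ring
  invFun f := fun t => ψ (-(h.z + h.x * (t - h.y))) * f (t - h.y)
  left_inv f := by
    funext t
    change ψ (-(h.z + h.x * (t - h.y))) * (ψ (h.z + h.x * (t - h.y)) * f (t - h.y + h.y)) = f t
    rw [← mul_assoc, psi_neg_mul, one_mul, sub_add_cancel]
  right_inv f := by
    funext t
    change ψ (h.z + h.x * t) * (ψ (-(h.z + h.x * (t + h.y - h.y))) * f (t + h.y - h.y)) = f t
    rw [add_sub_cancel_right, ← mul_assoc, psi_mul_neg, one_mul]

/-- the representation of the Heisenberg group -/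
def hs : Hs n →* (W n F ≃ₗ[F] W n F) where
  toFun := hsE ψ
  map_one' := by
    apply LinearEquiv.ext
    intro f
    funext t
    change ψ (0 + 0 * t) * f (t + 0) = f t
    rw [zero_mul, add_zero, add_zero, AddChar.map_zero_eq_one, one_mul]
  map_mul' a b := by
    apply LinearEquiv.ext
    intro f
    funext t
    change ψ (a.z + b.z + b.x * a.y + (a.x + b.x) * t) * f (t + (a.y + b.y)) =
      ψ (a.z + a.x * t) * (ψ (b.z + b.x * (t + a.y)) * f (t + a.y + b.y))
    rw [← mul_assoc, ← psi_add, add_assoc t]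
    congr 2
    ring

theorem oa_mem : oa ψ ∈ (hs ψ).range := by
  refine ⟨⟨1, 0, 0⟩, ?_⟩
  apply LinearEquiv.ext
  intro f
  funext t
  change ψ (0 + 1 * t) * f (t + 0) = ψ t * f t
  rw [zero_add, one_mul, add_zero]

theorem ob_mem : ob ∈ (hs ψ).range := by
  refine ⟨⟨0, 1, 0⟩, ?_⟩
  apply LinearEquiv.ext
  intro f
  funext t
  change ψ (0 + 0 * t) * f (t + 1) = f (t + 1)
  rw [zero_mul, add_zero, AddChar.map_zero_eq_one, one_mul]

theorem hs_derived : derivedSeries (hs ψ).range 2 = ⊥ := by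
  rw [← map_derivedSeries_eq (hs ψ).rangeRestrict_surjective, Hs.derived, Subgroup.map_bot]

theorem schur (hψ : ∀ x, ψ x = 1 → x = 0) (C : W n F ≃ₗ[F] W n F)
    (h1 : C * oa ψ = oa ψ * C) (h2 : C * ob = ob * C) [NeZero n] :
    ∃ c : F, ∀ f, C f = c • f := by
  have k1 : ∀ f, C (oa ψ f) = oa ψ (C f) := fun f => by rw [← le_mul, h1, le_mul]
  have k2 : ∀ f, C (ob f) = ob (C f) := fun f => by rw [← le_mul, h2, le_mul]
  -- the images of the delta functions
  have d1 : ∀ x y : ZMod n, y ≠ x → C (Pi.single x 1) y = 0 := by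
    intro x y hxy
    have e1 : oa ψ (Pi.single x 1 : W n F) = ψ x • Pi.single x 1 := by
      funext t
      change ψ t * (Pi.single x 1 : W n F) t = ψ x * (Pi.single x 1 : W n F) t
      by_cases ht : t = x
      · rw [ht]
      · rw [Pi.single_eq_of_ne ht, mul_zero, mul_zero]
    have e2 := congrFun (k1 (Pi.single x 1)) y
    rw [e1, map_smul, oa_apply] at e2
    change ψ x * C (Pi.single x 1) y = ψ y * C (Pi.single x 1) y at e2
    have e3 : (ψ x - ψ y) * C (Pi.single x 1) y = 0 := by
      rw [sub_mul, e2, sub_self]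
    rcases mul_eq_zero.1 e3 with e4 | e4
    · exfalso
      have e5 : ψ (x - y) = 1 := by
        have e6 := psi_add ψ (x - y) y
        rw [sub_add_cancel, sub_eq_zero.1 e4] at e6
        exact (mul_left_eq_self₀.1 e6.symm).resolve_right (psi_ne ψ y)
      exact hxy (sub_eq_zero.1 (hψ _ e5)).symm
    · exact e4
  have d2 : ∀ x : ZMod n, C (Pi.single (x - 1) 1) (x - 1) = C (Pi.single x 1) x := by
    intro x
    have e1 : (ob (Pi.single x 1 : W n F) : W n F) = Pi.single (x - 1) 1 := by
      funext t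
      rw [ob_apply]
      by_cases ht : t = x - 1
      · rw [ht, sub_add_cancel, Pi.single_eq_same, Pi.single_eq_same]
      · rw [Pi.single_eq_of_ne ht, Pi.single_eq_of_ne (fun h => ht (eq_sub_of_add_eq h))]
    have e2 := congrFun (k2 (Pi.single x 1)) (x - 1)
    rw [e1, ob_apply, sub_add_cancel] at e2
    exact e2
  have d3 : ∀ k : ℕ, C (Pi.single (-(k : ZMod n)) 1) (-(k : ZMod n)) = C (Pi.single 0 1) 0 := by
    intro k
    induction k with
    | zero => simp
    | succ k ih =>
      have h := d2 (-(k : ZMod n))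
      rw [ih] at h
      have e : -((k + 1 : ℕ) : ZMod n) = -(k : ZMod n) - 1 := by
        push_cast
        ring
      rw [e]
      exact h
  have d4 : ∀ x : ZMod n, C (Pi.single x 1) x = C (Pi.single 0 1) 0 := by
    intro x
    have h := d3 (-x).val
    rw [ZMod.natCast_val, ZMod.cast_id', id, neg_neg] at h
    exact h
  refine ⟨C (Pi.single 0 1) 0, fun f => ?_⟩
  have hf : f = ∑ x, f x • (Pi.single x 1 : W n F) := by
    funext t
    rw [Finset.sum_apply, Finset.sum_eq_single t]
    · change f t = f t * (Pi.single t 1 : W n F) t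
      rw [Pi.single_eq_same, mul_one]
    · intro x _ hx
      change f x * (Pi.single x 1 : W n F) t = 0
      rw [Pi.single_eq_of_ne (Ne.symm hx), mul_zero]
    · intro h
      exact absurd (Finset.mem_univ t) h
  funext t
  rw [hf, map_sum, Finset.sum_apply, Finset.sum_eq_single t]
  · rw [map_smul]
    change f t * C (Pi.single t 1) t = C (Pi.single 0 1) 0 * (∑ x, f x • (Pi.single x 1 : W n F)) t
    rw [← hf, d4, mul_comm]
  · intro x _ hx
    rw [map_smul]
    change f x * C (Pi.single x 1) t = 0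
    rw [d1 x t (Ne.symm hx), mul_zero]
  · intro h
    exact absurd (Finset.mem_univ t) h

theorem La_om (f : W n F) : La (oa ψ) ob om f = ψ 1 • f := by
  have h : La (oa ψ) (ob : W n F ≃ₗ[F] W n F) om = oa ψ * ob⁻¹ * (oa ψ)⁻¹ * ob := by
    simp [La, om]
  rw [h]
  funext x
  change ψ x * (ψ (-(x - 1)) * f (x - 1 + 1)) = ψ 1 * f x
  rw [sub_add_cancel, ← mul_assoc, ← psi_add]
  congr 2
  ring

end heis

end Pool.MP_22db8c_al.HW
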