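import Pool.Agent.H.MP_22db8c_al.helper22.HwC

set_option autoImplicit false

/-!
MP_22db8c_al, Heisenberg representations: the invariant subspace of the symmetric cocycles.
-/

namespace Pool.MP_22db8c_al.HW

open FreeGroup (of)
open Pool.MP_59b15d_al.H76 (F2 XX YY VV VV_0 VV_1)

section abs

variable {F M : Type} [Field F] [AddCommGroup M] [Module F M]

/-- the symmetric cocycles which vanish at the commutator -/
def VP (a b io : M ≃ₗ[F] M) : Submodule F (M × M) where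
  carrier := {z | io (b z.1) = z.1 ∧ a (io z.2) = z.2 ∧ b z.1 - z.1 = z.2 - a⁻¹ z.2}
  add_mem' := by
    rintro z w ⟨h1, h2, h3⟩ ⟨h4, h5, h6⟩
    refine ⟨?_, ?_, ?_⟩
    · rw [Prod.fst_add, map_add, map_add, h1, h4]
    · rw [Prod.snd_add, map_add, map_add, h2, h5]
    · rw [Prod.fst_add, Prod.snd_add, map_add, map_add, add_sub_add_comm, h3, h6,
        add_sub_add_comm]
  zero_mem' := by
    refine ⟨?_, ?_, ?_⟩ <;> simp
  smul_mem' := by
    rintro c z ⟨h1, h2, h3⟩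
    refine ⟨?_, ?_, ?_⟩
    · rw [Prod.smul_fst, map_smul, map_smul, h1]
    · rw [Prod.smul_snd, map_smul, map_smul, h2]
    · rw [Prod.smul_fst, Prod.smul_snd, map_smul, map_smul, ← smul_sub, h3, smul_sub]

theorem mem_VP (a b io : M ≃ₗ[F] M) (z : M × M) : z ∈ VP a b io ↔
    io (b z.1) = z.1 ∧ a (io z.2) = z.2 ∧ b z.1 - z.1 = z.2 - a⁻¹ z.2 := Iff.rfl

variable (a b A B io : M ≃ₗ[F] M)

theorem Xe_mem (e1 : A * a = a * A) (e2 : A * b = a * a * b * A) (e6 : io * b = b⁻¹ * io)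
    (e7 : A * (io * b) = io * b * A) (e8 : io * a = a⁻¹ * io) (z : M × M)
    (hz : z ∈ VP a b io) : Xe a A z ∈ VP a b io := by
  obtain ⟨h1, h2, h3⟩ := hz
  obtain ⟨s, β⟩ := z
  simp only at h1 h2 h3
  have k1 : ∀ x, a (A⁻¹ x) = A⁻¹ (a x) := fun x => by
    have : a * A⁻¹ = A⁻¹ * a := by
      rw [mul_inv_eq_iff_eq_mul, mul_assoc, ← e1, inv_mul_cancel_left]
    rw [← le_mul, this, le_mul]
  have k1' : ∀ x, a⁻¹ (A⁻¹ x) = A⁻¹ (a⁻¹ x) := fun x => by
    have : a⁻¹ * A⁻¹ = A⁻¹ * a⁻¹ := by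
      rw [← mul_inv_rev, e1, mul_inv_rev]
    rw [← le_mul, this, le_mul]
  have e10 : b * A⁻¹ = A⁻¹ * (a * a * b) := by
    rw [eq_inv_mul_iff_mul_eq, ← mul_assoc, e2, mul_inv_cancel_right]
  have k2 : ∀ x, b (A⁻¹ x) = A⁻¹ (a (a (b x))) := fun x => by
    rw [← le_mul, e10, le_mul, le_mul, le_mul]
  have k6 : ∀ x, io (b x) = b⁻¹ (io x) := fun x => by rw [← le_mul, e6, le_mul]
  have k8 : ∀ x, io (a x) = a⁻¹ (io x) := fun x => by rw [← le_mul, e8, le_mul]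
  have e9 : io * b * A⁻¹ = A⁻¹ * (io * b) := by
    rw [mul_inv_eq_iff_eq_mul, mul_assoc A⁻¹, ← e7, inv_mul_cancel_left]
  have k7 : ∀ x, io (b (A⁻¹ x)) = A⁻¹ (io (b x)) := fun x => by
    rw [← le_mul io b, ← le_mul, e9, le_mul, le_mul]
  have k9 : ∀ x, io (A⁻¹ x) = A⁻¹ (a (a (io x))) := fun x => by
    have h : io * A⁻¹ = A⁻¹ * (a * a * io) := by
      have e11 : io * a⁻¹ = a * io := by
        rw [mul_inv_eq_iff_eq_mul, mul_assoc, e8, mul_inv_cancel_left]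
      have e12 : io * (A⁻¹ * (a * a * b)) = A⁻¹ * (io * b) := by
        rw [← e10, ← mul_assoc, e9]
      calc io * A⁻¹ = (io * (A⁻¹ * (a * a * b))) * b⁻¹ * a⁻¹ * a⁻¹ := by group
        _ = A⁻¹ * (io * a⁻¹) * a⁻¹ := by rw [e12]; group
        _ = A⁻¹ * (a * io) * a⁻¹ := by rw [e11]
        _ = A⁻¹ * a * (io * a⁻¹) := by group
        _ = A⁻¹ * (a * a * io) := by rw [e11]; group
    rw [← le_mul, h, le_mul, le_mul, le_mul]
  have hs : io s = b s := by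
    have h := h1
    rw [k6] at h
    rw [← h, le_inv', h]
  have hb : b s = s + β - a⁻¹ β := by
    rw [add_sub_assoc, ← h3]
    abel
  rw [Xe_apply, mem_VP]
  refine ⟨?_, ?_, ?_⟩
  · change io (b (A⁻¹ s)) = A⁻¹ s
    rw [k7, h1]
  · change a (io (A⁻¹ (a (a β) + a s + a (a s)))) = A⁻¹ (a (a β) + a s + a (a s))
    rw [k9, k1]
    congr 1
    simp only [map_add, map_sub, k8, le_inv', h2, hs, hb]
    abel
  · change b (A⁻¹ s) - A⁻¹ s = A⁻¹ (a (a β) + a s + a (a s)) -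
      a⁻¹ (A⁻¹ (a (a β) + a s + a (a s)))
    rw [k2, k1', ← map_sub, ← map_sub]
    congr 1
    rw [hb, map_sub, map_add, le_inv', map_sub, map_add, map_add, map_add, le_inv, le_inv, le_inv]
    abel

theorem Ye_mem (e3 : B * a = a * b⁻¹ * b⁻¹ * B) (e4 : B * b = b * B)
    (e5 : B * (a * io) = a * io * B) (e6 : io * b = b⁻¹ * io) (z : M × M)
    (hz : z ∈ VP a b io) : Ye b B z ∈ VP a b io := by
  obtain ⟨h1, h2, h3⟩ := hz
  obtain ⟨s, β⟩ := z
  simp only at h1 h2 h3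
  have k1 : ∀ x, b (B⁻¹ x) = B⁻¹ (b x) := fun x => by
    have : b * B⁻¹ = B⁻¹ * b := by
      rw [mul_inv_eq_iff_eq_mul, mul_assoc, ← e4, inv_mul_cancel_left]
    rw [← le_mul, this, le_mul]
  have e10 : a⁻¹ * B⁻¹ = B⁻¹ * (b * b * a⁻¹) := by
    rw [← mul_inv_rev, e3, mul_inv_rev, mul_inv_rev, mul_inv_rev, inv_inv, mul_assoc b b]
  have k2 : ∀ x, a⁻¹ (B⁻¹ x) = B⁻¹ (b (b (a⁻¹ x))) := fun x => by
    rw [← le_mul, e10, le_mul, le_mul, le_mul]
  have e11 : a * io * B⁻¹ = B⁻¹ * (a * io) := by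
    rw [mul_inv_eq_iff_eq_mul, mul_assoc B⁻¹, ← e5, inv_mul_cancel_left]
  have k3 : ∀ x, a (io (B⁻¹ x)) = B⁻¹ (a (io x)) := fun x => by
    rw [← le_mul a io, ← le_mul, e11, le_mul, le_mul]
  have k4 : ∀ x, io (B⁻¹ x) = B⁻¹ (b (b (io x))) := fun x => by
    have h : a⁻¹ (a (io (B⁻¹ x))) = a⁻¹ (B⁻¹ (a (io x))) := congrArg (fun y => a⁻¹ y) (k3 x)
    rw [le_inv, k2, le_inv] at h
    exact h
  have k6 : ∀ x, io (b x) = b⁻¹ (io x) := fun x => by rw [← le_mul, e6, le_mul]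
  have hi : io β = a⁻¹ β := by
    have h : a⁻¹ (a (io β)) = a⁻¹ β := congrArg (fun y => a⁻¹ y) h2
    rw [le_inv] at h
    exact h
  have hb : b s = s + β - a⁻¹ β := by
    rw [add_sub_assoc, ← h3]
    abel
  have hs : b⁻¹ (io s) = s := by rw [← k6, h1]
  have hv : b (b s) - β - b β = s - a⁻¹ β - b (a⁻¹ β) := by
    rw [hb, map_sub, map_add, hb]
    abel
  rw [Ye_apply, mem_VP]
  refine ⟨?_, ?_, ?_⟩
  · change io (b (B⁻¹ (b (b s) - β - b β))) = B⁻¹ (b (b s) - β - b β)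
    rw [k1, k4]
    congr 1
    have h4 : io (b (b (b s) - β - b β)) = b⁻¹ (b⁻¹ (s - b (a⁻¹ β) - a⁻¹ β)) := by
      simp only [k6, map_sub, hs, hi, le_inv]
    rw [h4, le_inv', le_inv', hv]
    exact sub_right_comm _ _ _
  · change a (io (B⁻¹ β)) = B⁻¹ β
    rw [k3, h2]
  · change b (B⁻¹ (b (b s) - β - b β)) - B⁻¹ (b (b s) - β - b β) = B⁻¹ β - a⁻¹ (B⁻¹ β)
    rw [hv, k1, k2, ← map_sub, ← map_sub]
    congr 1
    rw [map_sub, map_sub, hb]
    abel

end abs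

section restr

variable {F N : Type} [Field F] [AddCommGroup N] [Module F N]

/-- restriction of an automorphism to an invariant subspace -/
noncomputable def rs (V : Submodule F N) [FiniteDimensional F V] (e : N ≃ₗ[F] N)
    (h : ∀ z ∈ V, e z ∈ V) : V ≃ₗ[F] V :=
  LinearEquiv.ofInjectiveEndo (e.toLinearMap.restrict h) (by
    intro x y hxy
    apply Subtype.ext
    exact e.injective (congrArg Subtype.val hxy))

theorem rs_apply (V : Submodule F N) [FiniteDimensional F V] (e : N ≃ₗ[F] N)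
    (h : ∀ z ∈ V, e z ∈ V) (z : V) : ((rs V e h z : V) : N) = e z := rfl

theorem rs_inv_apply (V : Submodule F N) [FiniteDimensional F V] (e : N ≃ₗ[F] N)
    (h : ∀ z ∈ V, e z ∈ V) (z : V) : (((rs V e h)⁻¹ z : V) : N) = e⁻¹ z := by
  apply e.injective
  rw [le_inv', ← rs_apply V e h, le_inv']

/-- the two restricted operators generate a representation -/
noncomputable def R1 (V : Submodule F N) [FiniteDimensional F V] (X Y : N ≃ₗ[F] N)
    (hX : ∀ z ∈ V, X z ∈ V) (hY : ∀ z ∈ V, Y z ∈ V) : F2 →* (V ≃ₗ[F] V) :=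
  FreeGroup.lift ![(rs V X hX)⁻¹, (rs V Y hY)⁻¹]

theorem R1_apply (V : Submodule F N) [FiniteDimensional F V] (X Y : N ≃ₗ[F] N)
    (hX : ∀ z ∈ V, X z ∈ V) (hY : ∀ z ∈ V, Y z ∈ V) (u : F2) :
    ∀ z : V, ((R1 V X Y hX hY u z : V) : N) = FreeGroup.lift ![X⁻¹, Y⁻¹] u (z : N) := by
  induction u using FreeGroup.induction_on with
  | C1 => intro z; rw [map_one, map_one]; rfl
  | of i =>
    intro z
    fin_cases i
    · change ((FreeGroup.lift ![(rs V X hX)⁻¹, (rs V Y hY)⁻¹] (of 0) z : V) : N) =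
        FreeGroup.lift ![X⁻¹, Y⁻¹] (of 0) (z : N)
      rw [FreeGroup.lift_apply_of, FreeGroup.lift_apply_of]
      exact rs_inv_apply V X hX z
    · change ((FreeGroup.lift ![(rs V X hX)⁻¹, (rs V Y hY)⁻¹] (of 1) z : V) : N) =
        FreeGroup.lift ![X⁻¹, Y⁻¹] (of 1) (z : N)
      rw [FreeGroup.lift_apply_of, FreeGroup.lift_apply_of]
      exact rs_inv_apply V Y hY z
  | inv_of i ih =>
    intro z
    have h := ih ((R1 V X Y hX hY (of i)⁻¹) z)
    rw [← le_mul, ← map_mul, mul_inv_cancel, map_one] at h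
    have h2 : FreeGroup.lift ![X⁻¹, Y⁻¹] (of i)⁻¹ (z : N) = FreeGroup.lift ![X⁻¹, Y⁻¹] (of i)⁻¹
        (FreeGroup.lift ![X⁻¹, Y⁻¹] (of i) ((R1 V X Y hX hY (of i)⁻¹ z : V) : N)) :=
      congrArg (fun y => FreeGroup.lift ![X⁻¹, Y⁻¹] (of i)⁻¹ y) h
    rw [← le_mul, ← map_mul, inv_mul_cancel, map_one] at h2
    exact h2.symm
  | mul u v hu hv =>
    intro z
    rw [map_mul, map_mul, le_mul, le_mul, hu, hv]

end restr

end Pool.MP_22db8c_al.HW
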