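import Pool.Agent.H.MP_22db8c_al.helper22.HwE
import Pool.Agent.H.MP_22db8c_al.helper22.HwA

set_option autoImplicit false

/-!
MP_22db8c_al, Heisenberg representations: the invariant subspace in the concrete model.
-/

namespace Pool.MP_22db8c_al.HW

open scoped BigOperators

section conc

variable {n : ℕ} {F : Type} [Field F] (ψ : AddChar (ZMod n) F)

theorem io_ob : (io : W n F ≃ₗ[F] W n F) * ob = ob⁻¹ * io := by
  apply LinearEquiv.ext
  intro f
  funext x
  change f (-x + 1) = f (-(x - 1))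
  congr 1
  ring

theorem oA_io_ob : oA ψ * (io * ob) = io * ob * oA ψ := by
  apply LinearEquiv.ext
  intro f
  funext x
  change ψ (-(x * (x - 1))) * f (-x + 1) = ψ (-((-x + 1) * (-x + 1 - 1))) * f (-x + 1)
  congr 2
  ring

theorem io_oa : io * oa ψ = (oa ψ)⁻¹ * io := by
  apply LinearEquiv.ext
  intro f
  funext x
  change ψ (-x) * f (-x) = ψ (-x) * f (-x)
  rfl

/-- the invariant subspace -/
abbrev VW : Submodule F (W n F × W n F) := VP (oa ψ) ob io

theorem mem_VW (z : W n F × W n F) : z ∈ VW ψ ↔ (∀ x, z.1 (1 - x) = z.1 x) ∧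
    (∀ x, ψ x * z.2 (-x) = z.2 x) ∧ ∀ x, z.1 (x + 1) - z.1 x = z.2 x - ψ (-x) * z.2 x := by
  rw [mem_VP]
  constructor
  · rintro ⟨h1, h2, h3⟩
    refine ⟨fun x => ?_, fun x => congrFun h2 x, fun x => congrFun h3 x⟩
    have h := congrFun h1 x
    change z.1 (-x + 1) = z.1 x at h
    rw [← h, neg_add_eq_sub]
  · rintro ⟨h1, h2, h3⟩
    refine ⟨?_, funext h2, funext h3⟩
    funext x
    change z.1 (-x + 1) = z.1 x
    rw [← h1 x, neg_add_eq_sub]

/-- the inverse of `1 - ψ (-y)` -/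
noncomputable def hh (y : ZMod n) : F := by
  classical exact if y = 0 then 0 else (1 - ψ (-y))⁻¹

theorem hh_zero : hh ψ 0 = 0 := by
  rw [hh, if_pos rfl]

variable (hψ : ∀ x, ψ x = 1 → x = 0)

include hψ

theorem one_sub_ne {y : ZMod n} (hy : y ≠ 0) : 1 - ψ (-y) ≠ 0 := by
  intro h
  have := hψ (-y) (sub_eq_zero.1 h).symm
  exact hy (neg_eq_zero.1 this)

theorem hh_mul {y : ZMod n} (hy : y ≠ 0) : hh ψ y * (1 - ψ (-y)) = 1 := by
  rw [hh, if_neg hy, inv_mul_cancel₀ (one_sub_ne ψ hψ hy)]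

theorem hh_neg {y : ZMod n} (hy : y ≠ 0) : hh ψ (-y) = 1 - hh ψ y := by
  have h1 := hh_mul ψ hψ hy
  have h2 := hh_mul ψ hψ (neg_ne_zero.2 hy)
  rw [neg_neg] at h2
  have h3 := psi_mul_neg ψ y
  have h4 : 1 - ψ y ≠ 0 := by
    have := one_sub_ne ψ hψ (neg_ne_zero.2 hy)
    rwa [neg_neg] at this
  apply mul_right_cancel₀ h4
  rw [h2, sub_mul, one_mul]
  have h5 : hh ψ y * (1 - ψ y) = -ψ y * (hh ψ y * (1 - ψ (-y))) := by
    linear_combination (-hh ψ y) * h3
  rw [h5, h1]
  ring

omit hψ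

/-- the pair with given symmetric first entry and given value at zero of the second entry -/
noncomputable def mkz (s : W n F) (c : F) : W n F × W n F :=
  (s, fun x => (Pi.single 0 c : ZMod n → F) x + hh ψ x * (s (x + 1) - s x))

theorem mkz_fst (s : W n F) (c : F) (x : ZMod n) : (mkz ψ s c).1 x = s x := rfl

theorem mkz_zero (s : W n F) (c : F) : (mkz ψ s c).2 0 = c := by
  change (Pi.single 0 c : ZMod n → F) 0 + hh ψ 0 * _ = c
  rw [hh_zero, zero_mul, add_zero, Pi.single_eq_same]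

theorem mkz_snd (s : W n F) (c : F) {x : ZMod n} (hx : x ≠ 0) :
    (mkz ψ s c).2 x = hh ψ x * (s (x + 1) - s x) := by
  change (Pi.single 0 c : ZMod n → F) x + _ = _
  rw [Pi.single_eq_of_ne hx, zero_add]

include hψ

theorem mkz_mem (s : W n F) (c : F) (hs : ∀ x, s (1 - x) = s x) : mkz ψ s c ∈ VW ψ := by
  rw [mem_VW]
  refine ⟨hs, fun x => ?_, fun x => ?_⟩
  · by_cases hx : x = 0
    · rw [hx, neg_zero, AddChar.map_zero_eq_one, one_mul]
    · rw [mkz_snd ψ s c hx, mkz_snd ψ s c (neg_ne_zero.2 hx)]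
      have e1 : s (-x + 1) = s x := by rw [← hs x]; congr 1; ring
      have e2 : s (-x) = s (x + 1) := by rw [← hs (-x)]; congr 1; ring
      have h1 := hh_mul ψ hψ hx
      have h2 := hh_neg ψ hψ hx
      have h3 := psi_mul_neg ψ x
      have h5 : hh ψ x * ψ (-x) = hh ψ x - 1 := by linear_combination -h1
      have h6 : ψ x * hh ψ (-x) = - hh ψ x := by
        rw [h2]
        linear_combination (ψ x) * h5 - (hh ψ x) * h3
      rw [e1, e2, ← mul_assoc, h6]
      ring
  · rw [mkz_fst, mkz_fst]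
    by_cases hx : x = 0
    · rw [hx, neg_zero, AddChar.map_zero_eq_one, one_mul, sub_self, zero_add, ← hs 0, sub_zero,
        sub_self]
    · rw [mkz_snd ψ s c hx]
      have h1 := hh_mul ψ hψ hx
      linear_combination (-(s (x + 1) - s x)) * h1

theorem eq_mkz (z : W n F × W n F) (hz : z ∈ VW ψ) : z = mkz ψ z.1 (z.2 0) := by
  rw [mem_VW] at hz
  obtain ⟨_, _, h3⟩ := hz
  refine Prod.ext rfl ?_
  funext x
  by_cases hx : x = 0
  · rw [hx, mkz_zero]
  · rw [mkz_snd ψ _ _ hx, h3]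
    have h1 := hh_mul ψ hψ hx
    linear_combination (-z.2 x) * h1

/-- an element of the subspace is determined by its first entry and one value -/
theorem VW_ext (z w : VW ψ) (h1 : ∀ x, z.1.1 x = w.1.1 x) (h2 : z.1.2 0 = w.1.2 0) : z = w := by
  apply Subtype.ext
  rw [eq_mkz ψ hψ z.1 z.2, eq_mkz ψ hψ w.1 w.2, h2, funext h1]

end conc

section dim

variable {n : ℕ} [NeZero n] {F : Type} [Field F] (ψ : AddChar (ZMod n) F)
  (hψ : ∀ x, ψ x = 1 → x = 0) (k : ℕ) (hk : n = 2 * k + 1)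

include hk in
theorem nat_lt (x : ZMod n) : x.valMinAbs.natAbs < k + 1 := by
  have := ZMod.natAbs_valMinAbs_le x
  omega

/-- one half -/
def hf : ZMod n := (k : ZMod n) + 1

omit [NeZero n] in
include hk in
theorem two_hf : (hf k : ZMod n) + hf k = 1 := by
  have h : ((2 * k + 1 : ℕ) : ZMod n) = 0 := by
    rw [← hk, ZMod.natCast_self]
  push_cast at h
  rw [hf]
  linear_combination h

/-- the coordinates of the subspace -/
noncomputable def eqv : VW ψ ≃ₗ[F] (Fin (k + 2) → F) where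
  toFun z := Fin.cons (z.1.2 0) (fun i : Fin (k + 1) => z.1.1 (hf k + ((i : ℕ) : ZMod n)))
  map_add' z w := by
    funext i
    refine Fin.cases ?_ (fun j => ?_) i <;> rfl
  map_smul' c z := by
    funext i
    refine Fin.cases ?_ (fun j => ?_) i <;> rfl
  invFun c := ⟨mkz ψ (fun x => c (Fin.succ ⟨(x - hf k).valMinAbs.natAbs, nat_lt k hk _⟩)) (c 0), by
    apply mkz_mem ψ hψ
    intro x
    congr 2
    apply Fin.ext
    change (1 - x - hf k).valMinAbs.natAbs = (x - hf k).valMinAbs.natAbs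
    have h : 1 - x - hf k = -(x - hf k) := by
      linear_combination -(two_hf k hk)
    rw [h, ZMod.natAbs_valMinAbs_neg]⟩
  left_inv z := by
    apply VW_ext ψ hψ
    · intro x
      have hz := ((mem_VW ψ z.1).1 z.2).1
      change z.1.1 (hf k + (((x - hf k).valMinAbs.natAbs : ℕ) : ZMod n)) = z.1.1 x
      have h1 : (((x - hf k).valMinAbs : ℤ) : ZMod n) = x - hf k := ZMod.coe_valMinAbs _
      rcases Int.natAbs_eq (x - hf k).valMinAbs with h2 | h2
      · have h3 : (((x - hf k).valMinAbs.natAbs : ℕ) : ZMod n) = x - hf k := by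
          rw [← Int.cast_natCast, ← h2, h1]
        rw [h3, add_sub_cancel]
      · have h3 : (((x - hf k).valMinAbs.natAbs : ℕ) : ZMod n) = -(x - hf k) := by
          have h4 : ((x - hf k).valMinAbs.natAbs : ℤ) = - (x - hf k).valMinAbs := by omega
          rw [← Int.cast_natCast, h4, Int.cast_neg, h1]
        have h4 : hf k + -(x - hf k) = 1 - x := by
          linear_combination (two_hf k hk)
        rw [h3, ← hz x, h4]
    · change (mkz ψ _ _).2 0 = _
      rw [mkz_zero]
      rfl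
  right_inv c := by
    funext i
    refine Fin.cases ?_ (fun j => ?_) i
    · change (mkz ψ _ _).2 0 = _
      rw [mkz_zero]
    · change c (Fin.succ ⟨(hf k + ((j : ℕ) : ZMod n) - hf k).valMinAbs.natAbs, _⟩) = c (Fin.succ j)
      congr 2
      apply Fin.ext
      change (hf k + ((j : ℕ) : ZMod n) - hf k).valMinAbs.natAbs = (j : ℕ)
      have hj : (j : ℕ) ≤ n / 2 := by
        have := j.2
        omega
      rw [add_sub_cancel_left, ZMod.valMinAbs_natCast_of_le_half hj, Int.natAbs_natCast]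

end dim

end Pool.MP_22db8c_al.HW
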