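import Pool.Agent.H.MP_22db8c_al.helper22.HwB

set_option autoImplicit false

/-!
MP_22db8c_al, Heisenberg representations: groups generated by transvections.
-/

namespace Pool.MP_22db8c_al.HW

open scoped BigOperators

section tr

variable {p : ℕ} [Fact p.Prime] {V : Type} [AddCommGroup V] [Module (ZMod p) V]
  (G : Subgroup (V ≃ₗ[ZMod p] V))

/-- the transvection given by a vector and a functional lies in the group -/
def TT (v : V) (φ : Module.Dual (ZMod p) V) : Prop :=
  φ v = 0 ∧ ∃ g ∈ G, ∀ x, g x = x + φ x • v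

variable {G}

theorem TT.zero_right {v : V} : TT G v 0 := by
  refine ⟨rfl, 1, G.one_mem, fun x => ?_⟩
  rw [LinearMap.zero_apply, zero_smul, add_zero]
  rfl

theorem TT.zero_left {φ : Module.Dual (ZMod p) V} : TT G 0 φ := by
  refine ⟨map_zero _, 1, G.one_mem, fun x => ?_⟩
  rw [smul_zero, add_zero]
  rfl

theorem TT.add {v : V} {φ χ : Module.Dual (ZMod p) V} (h1 : TT G v φ) (h2 : TT G v χ) :
    TT G v (φ + χ) := by
  obtain ⟨a1, g, hg, a2⟩ := h1
  obtain ⟨b1, h, hh, b2⟩ := h2
  refine ⟨?_, g * h, G.mul_mem hg hh, fun x => ?_⟩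
  · rw [LinearMap.add_apply, a1, b1, add_zero]
  · rw [le_mul, b2, map_add, map_smul, a2, a2, a1, zero_smul, add_zero, LinearMap.add_apply,
      add_smul, add_assoc]

theorem TT.nsmul {v : V} {φ : Module.Dual (ZMod p) V} (h1 : TT G v φ) (m : ℕ) :
    TT G v (m • φ) := by
  induction m with
  | zero => rw [zero_smul]; exact TT.zero_right
  | succ m ih => rw [succ_nsmul]; exact ih.add h1

theorem TT.smul {v : V} {φ : Module.Dual (ZMod p) V} (h1 : TT G v φ) (c : ZMod p) :
    TT G v (c • φ) := by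
  have h2 := h1.nsmul c.val
  have h3 : (c.val • φ) = c • φ := by
    rw [← Nat.cast_smul_eq_nsmul (ZMod p), ZMod.natCast_val, ZMod.cast_id', id]
  rw [← h3]
  exact h2

theorem TT.sub {v : V} {φ χ : Module.Dual (ZMod p) V} (h1 : TT G v φ) (h2 : TT G v χ) :
    TT G v (φ - χ) := by
  have h3 := h1.add (h2.smul (-1))
  have h4 : φ + (-1 : ZMod p) • χ = φ - χ := by
    apply LinearMap.ext
    intro x
    change φ x + (-1) * χ x = φ x - χ x
    ring
  rwa [h4] at h3

theorem TT.of_smul {v : V} {φ : Module.Dual (ZMod p) V} {c : ZMod p} (hc : c ≠ 0)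
    (h1 : TT G v (c • φ)) : TT G v φ := by
  have h2 := h1.smul c⁻¹
  rwa [smul_smul, inv_mul_cancel₀ hc, one_smul] at h2

theorem TT.smul_left {v : V} {φ : Module.Dual (ZMod p) V} (h1 : TT G v φ) (c : ZMod p) :
    TT G (c • v) φ := by
  obtain ⟨a1, g, hg, a2⟩ := h1.smul c
  refine ⟨?_, g, hg, fun x => ?_⟩
  · rw [map_smul, h1.1, smul_zero]
  · rw [a2, LinearMap.smul_apply, smul_smul, smul_eq_mul, mul_comm]

theorem TT.add_left {v w : V} {φ : Module.Dual (ZMod p) V} (h1 : TT G v φ) (h2 : TT G w φ) :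
    TT G (v + w) φ := by
  obtain ⟨a1, g, hg, a2⟩ := h1
  obtain ⟨b1, h, hh, b2⟩ := h2
  refine ⟨?_, g * h, G.mul_mem hg hh, fun x => ?_⟩
  · rw [map_add, a1, b1, add_zero]
  · rw [le_mul, b2, map_add, map_smul, a2, a2, b1, zero_smul, add_zero, smul_add, add_assoc]

theorem TT.conj {v : V} {φ : Module.Dual (ZMod p) V} (h1 : TT G v φ) (h : V ≃ₗ[ZMod p] V)
    (hh : h ∈ G) : TT G (h v) (φ ∘ₗ (h⁻¹ : V ≃ₗ[ZMod p] V).toLinearMap) := by
  obtain ⟨a1, g, hg, a2⟩ := h1
  refine ⟨?_, h * g * h⁻¹, G.mul_mem (G.mul_mem hh hg) (G.inv_mem hh), fun x => ?_⟩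
  · change φ (h⁻¹ (h v)) = 0
    rw [le_inv, a1]
  · change h (g (h⁻¹ x)) = x + φ (h⁻¹ x) • h v
    rw [a2, map_add, map_smul, le_inv']

/-- conjugation, given the values -/
theorem TT.conj' {v w : V} {φ χ : Module.Dual (ZMod p) V} (h1 : TT G v φ) (h : V ≃ₗ[ZMod p] V)
    (hh : h ∈ G) (hw : h v = w) (hχ : ∀ x, χ (h x) = φ x) : TT G w χ := by
  have h2 := h1.conj h hh
  have h3 : φ ∘ₗ (h⁻¹ : V ≃ₗ[ZMod p] V).toLinearMap = χ := by
    apply LinearMap.ext
    intro x
    change φ (h⁻¹ x) = χ x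
    rw [← hχ, le_inv']
  rwa [hw, h3] at h2

/-- a commutator of two transvections -/
theorem TT.comm {v w : V} {φ χ : Module.Dual (ZMod p) V} (h1 : TT G v φ) (h2 : TT G w χ)
    (h3 : φ w = 0) (h4 : χ v ≠ 0) : TT G w φ := by
  obtain ⟨a1, g, hg, a2⟩ := h1
  have h5 : TT G w (χ - χ v • φ) := by
    refine h2.conj' g hg ?_ (fun x => ?_)
    · rw [a2, h3, zero_smul, add_zero]
    · rw [a2, map_add, map_smul, LinearMap.sub_apply, LinearMap.sub_apply, LinearMap.smul_apply,
        LinearMap.smul_apply, a1]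
      simp only [smul_eq_mul]
      ring
  have h6 := h2.sub h5
  rw [sub_sub_cancel] at h6
  exact h6.of_smul h4

/-- all transvections with this vector lie in the group -/
def Full (G : Subgroup (V ≃ₗ[ZMod p] V)) (v : V) : Prop :=
  ∀ φ : Module.Dual (ZMod p) V, φ v = 0 → TT G v φ

theorem Full.conj {v : V} (h1 : Full G v) (h : V ≃ₗ[ZMod p] V) (hh : h ∈ G) : Full G (h v) := by
  intro φ hφ
  refine (h1 (φ ∘ₗ h.toLinearMap) hφ).conj' h hh rfl (fun x => rfl)

theorem Full.smul {v : V} (h1 : Full G v) (c : ZMod p) : Full G (c • v) := by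
  intro φ hφ
  by_cases hc : c = 0
  · rw [hc, zero_smul]
    exact TT.zero_left
  · have h2 : φ v = 0 := by
      rw [map_smul, smul_eq_mul] at hφ
      exact (mul_eq_zero.1 hφ).resolve_left hc
    exact (h1 φ h2).smul_left c

theorem Full.zero : Full G 0 := fun _ _ => TT.zero_left

theorem Full.add {v w : V} (h1 : Full G v) (h2 : Full G w) : Full G (v + w) := by
  by_cases h : v ∈ Submodule.span (ZMod p) {w}
  · obtain ⟨c, hc⟩ := Submodule.mem_span_singleton.1 h
    have h3 : v + w = (c + 1) • w := by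
      rw [add_smul, one_smul, hc]
    rw [h3]
    exact h2.smul _
  · obtain ⟨θ, h3, h4⟩ := Submodule.exists_le_ker_of_notMem h
    have h5 : θ w = 0 := by
      have := h4 (Submodule.mem_span_singleton_self w)
      exact this
    obtain ⟨_, g, hg, h6⟩ := (h2 θ h5).smul (θ v)⁻¹
    have h7 := h1.conj g hg
    rw [h6, LinearMap.smul_apply, smul_eq_mul, inv_mul_cancel₀ h3, one_smul] at h7
    exact h7

theorem Full.sum {ι : Type} (s : Finset ι) (f : ι → V) (h : ∀ i ∈ s, Full G (f i)) :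
    Full G (∑ i ∈ s, f i) := by
  classical
  induction s using Finset.induction_on with
  | empty => rw [Finset.sum_empty]; exact Full.zero
  | insert a s ha ih =>
    rw [Finset.sum_insert ha]
    exact (h a (Finset.mem_insert_self a s)).add
      (ih fun i hi => h i (Finset.mem_insert_of_mem hi))

theorem TT.sum {ι : Type} (s : Finset ι) (v : V) (f : ι → Module.Dual (ZMod p) V)
    (h : ∀ i ∈ s, TT G v (f i)) : TT G v (∑ i ∈ s, f i) := by
  classical
  induction s using Finset.induction_on with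
  | empty => rw [Finset.sum_empty]; exact TT.zero_right
  | insert a s ha ih =>
    rw [Finset.sum_insert ha]
    exact (h a (Finset.mem_insert_self a s)).add
      (ih fun i hi => h i (Finset.mem_insert_of_mem hi))

end tr

end Pool.MP_22db8c_al.HW
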