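import Pool.Agent.H.MP_22db8c_al.helper22.HwG

set_option autoImplicit false
set_option linter.unusedSectionVars false
set_option linter.unusedSimpArgs false

/-!
MP_22db8c_al, Heisenberg representations: a group which contains all transvections contains the
special linear group.
-/

namespace Pool.MP_22db8c_al.HW

open Matrix

section tr

theorem diag_eq {F : Type*} [Field F] {ι : Type*} [Fintype ι] [DecidableEq ι]
    {i j : ι} (hij : i ≠ j) (a : F) (ha : a ≠ 0) :
    SpecialLinearGroup.diag2n hij a ha = SpecialLinearGroup.transvection hij a *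
      SpecialLinearGroup.transvection hij.symm (- a⁻¹) *
      SpecialLinearGroup.transvection hij a *
      SpecialLinearGroup.transvection hij (-1) *
      SpecialLinearGroup.transvection hij.symm 1 *
      SpecialLinearGroup.transvection hij (-1) := by
  apply SpecialLinearGroup.coeMonoidHom_injective
  simp only [map_mul, SpecialLinearGroup.coeMonoidHom_apply]
  have key : ∀ (i j : ι) (h : i ≠ j) (b : F),
      (SpecialLinearGroup.transvection h b : Matrix ι ι F) = 1 + Matrix.single i j b :=
    fun i j h b => rfl
  rw [show (SpecialLinearGroup.diag2n hij a ha : Matrix ι ι F) =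
    diagonal (fun k ↦ if k = i then a else if k = j then a⁻¹ else 1) from rfl,
    key, key, key, key]
  simp only [mul_add, add_mul, Matrix.mul_one, Matrix.one_mul,
    Matrix.single_mul_single_same, Matrix.single_mul_single_of_ne _ _ _ _ hij,
    Matrix.single_mul_single_of_ne _ _ _ _ hij.symm, add_zero, zero_add, Matrix.zero_mul]
  ext x y
  simp only [Matrix.add_apply, Matrix.single_apply, Matrix.diagonal_apply, Matrix.one_apply]
  by_cases hxi : x = i
  · subst hxi
    by_cases hyi : y = x
    · subst hyi
      simp [hij, hij.symm]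
      field_simp
      ring
    · by_cases hyj : y = j
      · subst hyj
        simp [hij, hij.symm]
        field_simp
        ring
      · simp [hyi, hyj, Ne.symm hyi, Ne.symm hyj, hij]
  · by_cases hxj : x = j
    · subst hxj
      by_cases hyi : y = i
      · subst hyi
        simp [hij, hij.symm]
        field_simp
        ring
      · by_cases hyj : y = x
        · subst hyj
          simp [hij, hij.symm]
          field_simp
          ring
        · simp [hyi, hyj, Ne.symm hyi, Ne.symm hyj, hij]
    · simp [hxi, hxj, Ne.symm hxi, Ne.symm hxj]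

theorem top_of_tr {F : Type*} [Field F] {ι : Type*} [Fintype ι] [DecidableEq ι]
    [Nontrivial ι] (H : Subgroup (SpecialLinearGroup ι F))
    (h : ∀ (i j : ι) (hij : i ≠ j) (c : F), SpecialLinearGroup.transvection hij c ∈ H) :
    H = ⊤ := by
  rw [eq_top_iff]
  intro M _
  refine SpecialLinearGroup.diagonal_transvection_induction' (fun A => A ∈ H) M ?_ h
    (fun A B hA hB => H.mul_mem hA hB)
  intro i j hij c hc
  rw [diag_eq hij c hc]
  exact H.mul_mem (H.mul_mem (H.mul_mem (H.mul_mem (H.mul_mem (h _ _ _ _) (h _ _ _ _))
    (h _ _ _ _)) (h _ _ _ _)) (h _ _ _ _)) (h _ _ _ _)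

end tr

section mat

variable {F : Type} [Field F] {V : Type} [AddCommGroup V] [Module F V] {d : ℕ}
  (b : Module.Basis (Fin d) F V)

/-- the matrix of an automorphism -/
noncomputable def tm : (V ≃ₗ[F] V) →* GL (Fin d) F :=
  (Units.map ((LinearMap.toMatrixAlgEquiv b : (V →ₗ[F] V) ≃ₐ[F] Matrix (Fin d) (Fin d) F) :
    (V →ₗ[F] V) →* Matrix (Fin d) (Fin d) F)).comp
    (LinearMap.GeneralLinearGroup.generalLinearEquiv F V).symm.toMonoidHom

theorem tm_apply (g : V ≃ₗ[F] V) (i j : Fin d) :
    (tm b g : Matrix (Fin d) (Fin d) F) i j = b.repr (g (b j)) i := by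
  change (LinearMap.toMatrixAlgEquiv b (g.toLinearMap)) i j = _
  rw [LinearMap.toMatrixAlgEquiv_apply]
  rfl

end mat

section full

variable {p : ℕ} [Fact p.Prime] {V : Type} [AddCommGroup V] [Module (ZMod p) V]
  (G : Subgroup (V ≃ₗ[ZMod p] V)) {d : ℕ} (b : Module.Basis (Fin d) (ZMod p) V)

theorem sl_of_full (hd : 2 ≤ d) (hG : ∀ v, Full G v) (S : SpecialLinearGroup (Fin d) (ZMod p)) :
    ∃ g ∈ G, tm b g = (S : GL (Fin d) (ZMod p)) := by
  have hn : Nontrivial (Fin d) := Fin.nontrivial_iff_two_le.2 hd
  set H : Subgroup (SpecialLinearGroup (Fin d) (ZMod p)) :=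
    (G.map (tm b)).comap SpecialLinearGroup.toGL with hH
  have h1 : H = ⊤ := by
    apply top_of_tr
    intro i j hij c
    rw [hH, Subgroup.mem_comap, Subgroup.mem_map]
    obtain ⟨_, g, hg, h2⟩ := hG (b i) (c • b.coord j) (by
      change c * b.repr (b i) j = 0
      rw [b.repr_self, Finsupp.single_eq_of_ne (Ne.symm hij), mul_zero])
    refine ⟨g, hg, ?_⟩
    apply Units.ext
    ext x y
    rw [tm_apply, h2]
    change b.repr (b y + (c * b.repr (b y) j) • b i) x = (1 + Matrix.single i j c) x y
    rw [map_add, map_smul, b.repr_self, b.repr_self]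
    change (Finsupp.single y (1 : ZMod p) x) + (c * Finsupp.single y (1 : ZMod p) j) *
      (Finsupp.single i (1 : ZMod p) x) = (1 : Matrix _ _ _) x y + Matrix.single i j c x y
    rw [Matrix.one_apply, Matrix.single_apply, Finsupp.single_apply, Finsupp.single_apply,
      Finsupp.single_apply]
    have e4 : (x = y) = (y = x) := propext eq_comm
    have e5 : (j = y) = (y = j) := propext eq_comm
    simp only [e4, e5]
    congr 1
    by_cases e2 : y = j <;> by_cases e3 : i = x <;>
      simp only [e2, e3, if_true, if_false, and_self, and_true, and_false,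
        mul_one, mul_zero, false_and, true_and]
  have h2 : S ∈ H := by
    rw [h1]
    exact Subgroup.mem_top S
  exact h2

end full

end Pool.MP_22db8c_al.HW
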