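import Pool.Agent.H.MP_22db8c_al.helper22.HwG
import Pool.Agent.H.MP_22db8c_al.helper22.HwA

set_option autoImplicit false

/-!
MP_22db8c_al, Heisenberg representations: two transvections and a diagonal element generate a group
which contains all transvections.
-/

namespace Pool.MP_22db8c_al.HW

open scoped BigOperators

section gen

variable {p n : ℕ} [Fact p.Prime] [Fact n.Prime]

/-- the quadratic function -/
def qq (x : ZMod n) : ZMod n := x * (x - 1)

theorem qq_eq {x y : ZMod n} (h : qq x = qq y) : x = y ∨ x = 1 - y := by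
  have h1 : (x - y) * (x + y - 1) = 0 := by
    unfold qq at h
    linear_combination h
  rcases mul_eq_zero.1 h1 with h2 | h2
  · left; exact sub_eq_zero.1 h2
  · right; linear_combination h2

theorem qq_symm (y : ZMod n) : qq (1 - y) = qq y := by
  unfold qq
  ring

theorem qq_zero {x : ZMod n} : qq x = 0 ↔ x = 0 ∨ x = 1 := by
  unfold qq
  rw [mul_eq_zero, sub_eq_zero]

variable (p) in
/-- the number of arguments with the same value -/
def NN (y : ZMod n) : ZMod p := ∑ x : ZMod n, if qq x = qq y then 1 else 0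

theorem NN_ne (hp2 : (2 : ZMod p) ≠ 0) (y : ZMod n) : NN p y ≠ 0 := by
  rw [NN, Finset.sum_ite, Finset.sum_const_zero, add_zero, Finset.sum_const, nsmul_eq_mul, mul_one]
  by_cases h : y = 1 - y
  · have h1 : Finset.univ.filter (fun x : ZMod n => qq x = qq y) = {y} := by
      ext x
      rw [Finset.mem_filter, Finset.mem_singleton]
      constructor
      · rintro ⟨_, h2⟩
        rcases qq_eq h2 with h3 | h3
        · exact h3
        · rw [h3, ← h]
      · rintro rfl
        exact ⟨Finset.mem_univ _, rfl⟩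
    rw [h1, Finset.card_singleton, Nat.cast_one]
    exact one_ne_zero
  · have h1 : Finset.univ.filter (fun x : ZMod n => qq x = qq y) = {y, 1 - y} := by
      ext x
      rw [Finset.mem_filter, Finset.mem_insert, Finset.mem_singleton]
      constructor
      · rintro ⟨_, h2⟩
        exact qq_eq h2
      · rintro (rfl | rfl)
        · exact ⟨Finset.mem_univ _, rfl⟩
        · exact ⟨Finset.mem_univ _, qq_symm y⟩
    rw [h1, Finset.card_pair h]
    exact hp2

variable (ψ : AddChar (ZMod n) (ZMod p)) (hψ : ∀ x, ψ x = 1 → x = 0)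

include hψ in
theorem sum_ch (x y : ZMod n) :
    ∑ i : ZMod n, ψ (-(i * y)) * ψ (i * x) = if x = y then (n : ZMod p) else 0 := by
  have h1 := sum_psi ψ hψ (x - y)
  have h2 : ∀ i : ZMod n, ψ (-(i * y)) * ψ (i * x) = ψ (i * (x - y)) := by
    intro i
    rw [← psi_add]
    congr 1
    ring
  rw [Finset.sum_congr rfl fun i _ => h2 i, h1]
  simp only [sub_eq_zero]

variable {V : Type} [AddCommGroup V] [Module (ZMod p) V]
  (G : Subgroup (V ≃ₗ[ZMod p] V)) (sy : ZMod n → Module.Dual (ZMod p) V)
  (b0 : Module.Dual (ZMod p) V) (c : ZMod n → ZMod p)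

/-- the sum which measures the position of the transvections -/
def ka (j : ZMod n) : ZMod p := ∑ x, c x * ψ (j * qq x)

include hψ in
theorem sum_ka : ∑ j, ka ψ c j = n * (c 0 + c 1) := by
  have h1 : ∑ j, ka ψ c j = ∑ x, c x * (if qq x = 0 then (n : ZMod p) else 0) := by
    unfold ka
    rw [Finset.sum_comm]
    refine Finset.sum_congr rfl fun x _ => ?_
    rw [← Finset.mul_sum, sum_psi ψ hψ]
  have h01 : (0 : ZMod n) ≠ 1 := zero_ne_one
  rw [h1]
  have h2 : ∀ x, c x * (if qq x = 0 then (n : ZMod p) else 0) =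
      (if x = 0 then n * c 0 else 0) + (if x = 1 then n * c 1 else 0) := by
    intro x
    by_cases hx0 : x = 0
    · rw [hx0, if_pos (qq_zero.2 (Or.inl rfl)), if_pos rfl, if_neg h01]
      ring
    · by_cases hx1 : x = 1
      · rw [hx1, if_pos (qq_zero.2 (Or.inr rfl)), if_neg h01.symm, if_pos rfl]
        ring
      · rw [if_neg (fun h => (qq_zero.1 h).elim hx0 hx1), if_neg hx0, if_neg hx1]
        ring
  rw [Finset.sum_congr rfl fun x _ => h2 x, Finset.sum_add_distrib, Finset.sum_ite_eq',
    Finset.sum_ite_eq', if_pos (Finset.mem_univ _), if_pos (Finset.mem_univ _)]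
  ring

include hψ in
theorem exists_j_ka (hp2 : (2 : ZMod p) ≠ 0) (hnp : (n : ZMod p) ≠ 0) (hc : c 0 + c 1 ≠ 0) :
    ∃ j, ka ψ c j + ka ψ c (-j) ≠ 0 := by
  by_contra h
  push Not at h
  have h1 := sum_ka ψ hψ c
  have h2 : ∑ j, ka ψ c (-j) = ∑ j, ka ψ c j :=
    Fintype.sum_equiv (Equiv.neg (ZMod n)) _ _ fun j => rfl
  have h3 : ∑ j, (ka ψ c j + ka ψ c (-j)) = 0 := Finset.sum_eq_zero fun j _ => h j
  rw [Finset.sum_add_distrib, h2, h1] at h3
  have h4 : (2 : ZMod p) * (n * (c 0 + c 1)) = 0 := by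
    rw [two_mul]
    exact h3
  exact mul_ne_zero hp2 (mul_ne_zero hnp hc) h4

end gen

end Pool.MP_22db8c_al.HW
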