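import Pool.Agent.H.MP_22db8c_al.helper22.HwI

set_option autoImplicit false

/-!
MP_22db8c_al, Heisenberg representations: two transvections and a diagonal element generate a group
which contains all transvections.
-/

namespace Pool.MP_22db8c_al.HW

open scoped BigOperators

section gen

variable {p n : ℕ} [Fact p.Prime] [Fact n.Prime]
  {ψ : AddChar (ZMod n) (ZMod p)} {V : Type} [AddCommGroup V] [Module (ZMod p) V]
  {G : Subgroup (V ≃ₗ[ZMod p] V)}

/-- the data of the generation theorem -/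
structure Dat (ψ : AddChar (ZMod n) (ZMod p)) (G : Subgroup (V ≃ₗ[ZMod p] V))
    (sy : ZMod n → Module.Dual (ZMod p) V) (b0 : Module.Dual (ZMod p) V)
    (c : ZMod n → ZMod p) (u0 v0 : V) (φ0 : Module.Dual (ZMod p) V) : Prop where
  hψ : ∀ x, ψ x = 1 → x = 0
  hp2 : (2 : ZMod p) ≠ 0
  hnp : (n : ZMod p) ≠ 0
  hsym : ∀ x z, sy (1 - x) z = sy x z
  ext : ∀ z w, (∀ x, sy x z = sy x w) → b0 z = b0 w → z = w
  hS : ∀ j : ZMod n, ∃ g ∈ G, ∀ z, (∀ x, sy x (g z) = ψ (j * qq x) * sy x z) ∧ b0 (g z) = b0 z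
  u0s : ∀ x, sy x u0 = 0
  u0b : b0 u0 = 1
  v0s : ∀ x, sy x v0 = 1
  v0b : b0 v0 = 0
  hφ0 : ∀ z, φ0 z = b0 z + ∑ x, c x * sy x z
  hu : TT G u0 (sy 0)
  hv : TT G v0 φ0
  c01 : c 0 + c 1 ≠ 0
  cne : ∀ x, x ≠ 0 → x ≠ 1 → c x ≠ 0
  csym : ∀ x, x ≠ 0 → x ≠ 1 → c (1 - x) = c x

variable {sy : ZMod n → Module.Dual (ZMod p) V} {b0 : Module.Dual (ZMod p) V}
  {c : ZMod n → ZMod p} {u0 v0 : V} {φ0 : Module.Dual (ZMod p) V}
  (D : Dat ψ G sy b0 c u0 v0 φ0)

include D

theorem Dat.sy_congr {x y : ZMod n} (h : qq x = qq y) (z : V) : sy x z = sy y z := by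
  rcases qq_eq h with h1 | h1
  · rw [h1]
  · rw [h1, D.hsym]

theorem Dat.c_congr {x y : ZMod n} (h : qq x = qq y) (hy : qq y ≠ 0) : c x = c y := by
  rcases qq_eq h with h1 | h1
  · rw [h1]
  · rw [h1]
    exact D.csym y (fun h2 => hy (qq_zero.2 (Or.inl h2))) (fun h2 => hy (qq_zero.2 (Or.inr h2)))

/-- the element spanned by the orbit of `v0` -/
theorem Dat.exists_w (hv0 : Full G v0) (y : ZMod n) : ∃ w, Full G w ∧
    (∀ x, sy x w = if qq x = qq y then (n : ZMod p) else 0) ∧ b0 w = 0 := by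
  choose g hg h1 using D.hS
  refine ⟨∑ i, ψ (-(i * qq y)) • g i v0, ?_, fun x => ?_, ?_⟩
  · exact Full.sum _ _ fun i _ => (hv0.conj (g i) (hg i)).smul _
  · rw [map_sum, ← sum_ch ψ D.hψ (qq x) (qq y)]
    refine Finset.sum_congr rfl fun i _ => ?_
    rw [map_smul, (h1 i v0).1, D.v0s, smul_eq_mul, mul_one]
  · rw [map_sum]
    refine Finset.sum_eq_zero fun i _ => ?_
    rw [map_smul, (h1 i v0).2, D.v0b, smul_zero]

/-- the decomposition of a vector -/
theorem Dat.decomp (w : ZMod n → V) (hw : ∀ y x, sy x (w y) = if qq x = qq y then (n : ZMod p) else 0)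
    (hw0 : ∀ y, b0 (w y) = 0) (z : V) :
    z = b0 z • u0 + ∑ y, (sy y z * (n * NN p y)⁻¹) • w y := by
  apply D.ext
  · intro x
    rw [map_add, map_smul, D.u0s, smul_zero, zero_add, map_sum]
    have h1 : ∀ y, sy x ((sy y z * (n * NN p y)⁻¹) • w y) =
        (if qq y = qq x then 1 else 0) * (sy x z * (NN p x)⁻¹) := by
      intro y
      rw [map_smul, hw, smul_eq_mul]
      by_cases h : qq x = qq y
      · rw [if_pos h, if_pos h.symm, one_mul, D.sy_congr h]
        have h2 : NN p x = NN p y := by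
          unfold NN
          rw [h]
        rw [h2]
        have h3 := D.hnp
        have h4 := NN_ne D.hp2 y
        field_simp
      · rw [if_neg h, if_neg (Ne.symm h), mul_zero, zero_mul]
    rw [Finset.sum_congr rfl fun y _ => h1 y, ← Finset.sum_mul]
    change _ = NN p x * _
    have h4 := NN_ne D.hp2 x
    field_simp
  · rw [map_add, map_smul, D.u0b, smul_eq_mul, mul_one, map_sum]
    rw [Finset.sum_eq_zero fun y _ => ?_, add_zero]
    rw [map_smul, hw0, smul_zero]

/-- the two vectors lie in one orbit -/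
theorem Dat.move : ∃ h ∈ G, h u0 = v0 := by
  obtain ⟨_, g2, hg2, h2⟩ := D.hu
  obtain ⟨_, g3, hg3, h3⟩ := D.hv.smul (-1)
  refine ⟨g2⁻¹ * g3⁻¹, G.mul_mem (G.inv_mem hg2) (G.inv_mem hg3), ?_⟩
  have h4 : g3 (g2 v0) = u0 := by
    rw [h2, D.v0s, one_smul, h3, LinearMap.smul_apply, map_add, D.hφ0 u0, D.u0b, D.hv.1]
    rw [Finset.sum_eq_zero fun x _ => by rw [D.u0s, mul_zero]]
    rw [add_zero, zero_add, smul_eq_mul, mul_one, neg_smul, one_smul]
    abel
  rw [← h4, le_mul, le_inv, le_inv]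

/-- the functional of the second transvection with different coefficients -/
def Phj (ψ : AddChar (ZMod n) (ZMod p)) (sy : ZMod n → Module.Dual (ZMod p) V)
    (b0 : Module.Dual (ZMod p) V) (c : ZMod n → ZMod p) (j : ZMod n) : Module.Dual (ZMod p) V :=
  b0 + ∑ x, (c x * ψ (-(j * qq x))) • sy x

omit D in
theorem Phj_apply (j : ZMod n) (z : V) : Phj ψ sy b0 c j z =
    b0 z + ∑ x, c x * ψ (-(j * qq x)) * sy x z := by
  rw [Phj, LinearMap.add_apply, LinearMap.sum_apply]
  rfl

/-- the functional of the first entry which is obtained from commutators -/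
theorem Dat.eta : ∃ j : ZMod n, j ≠ 0 ∧ ∃ κ : ZMod p,
    TT G u0 (Phj ψ sy b0 c j - (φ0 + κ • sy 0)) := by
  obtain ⟨j, hj⟩ := exists_j_ka ψ D.hψ c D.hp2 D.hnp D.c01
  have hka0 : ka ψ c 0 = 0 := by
    have h1 := D.hv.1
    rw [D.hφ0, D.v0b, zero_add] at h1
    rw [← h1]
    unfold ka
    refine Finset.sum_congr rfl fun x _ => ?_
    rw [zero_mul, AddChar.map_zero_eq_one, D.v0s]
  refine ⟨j, ?_, ka ψ c (-j), ?_⟩
  · rintro rfl
    rw [neg_zero, hka0, add_zero] at hj
    exact hj rfl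
  set κ := ka ψ c (-j) with hκ
  have φu : φ0 u0 = 1 := by
    rw [D.hφ0, D.u0b, Finset.sum_eq_zero fun x _ => by rw [D.u0s, mul_zero], add_zero]
  have Pu : Phj ψ sy b0 c j u0 = 1 := by
    rw [Phj_apply, D.u0b, Finset.sum_eq_zero fun x _ => by rw [D.u0s, mul_zero], add_zero]
  have Pv : Phj ψ sy b0 c j v0 = κ := by
    rw [Phj_apply, D.v0b, zero_add, hκ]
    unfold ka
    refine Finset.sum_congr rfl fun x _ => ?_
    rw [D.v0s, mul_one, neg_mul]
  obtain ⟨g, hg, hS⟩ := D.hS j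
  -- the transvection of the moved vector
  have t1 : TT G (g v0) (Phj ψ sy b0 c j) := by
    refine D.hv.conj' g hg rfl (fun z => ?_)
    rw [Phj_apply, (hS z).2, D.hφ0]
    congr 1
    refine Finset.sum_congr rfl fun x _ => ?_
    rw [(hS z).1]
    have h1 := psi_neg_mul ψ (j * qq x)
    linear_combination (c x * sy x z) * h1
  have t2 : TT G (v0 + (-κ) • u0) (φ0 + κ • sy 0) := by
    obtain ⟨_, g1, hg1, h1⟩ := D.hu.smul (-κ)
    refine D.hv.conj' g1 hg1 ?_ (fun z => ?_)
    · rw [h1, LinearMap.smul_apply, D.v0s, smul_eq_mul, mul_one]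
    · rw [h1, map_add, map_smul, LinearMap.add_apply, LinearMap.add_apply, LinearMap.smul_apply,
        LinearMap.smul_apply, LinearMap.smul_apply, φu, D.u0s]
      simp only [smul_eq_mul]
      ring
  have t3 : TT G (v0 + (-κ) • u0) (Phj ψ sy b0 c j) := by
    refine t1.comm t2 ?_ ?_
    · rw [map_add, map_smul, Pu, Pv, smul_eq_mul]
      ring
    · rw [LinearMap.add_apply, LinearMap.smul_apply, (hS v0).1, D.v0s, D.hφ0, (hS v0).2, D.v0b,
        zero_add]
      have h1 : ∑ x, c x * sy x (g v0) = ka ψ c j := by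
        unfold ka
        refine Finset.sum_congr rfl fun x _ => ?_
        rw [(hS v0).1, D.v0s, mul_one]
      have h2 : qq (0 : ZMod n) = 0 := qq_zero.2 (Or.inl rfl)
      rw [h1, h2, mul_zero, AddChar.map_zero_eq_one, smul_eq_mul, mul_one, mul_one]
      exact hj
  have t4 := t3.sub t2
  set η := Phj ψ sy b0 c j - (φ0 + κ • sy 0) with hη
  have ηu : η u0 = 0 := by
    rw [hη, LinearMap.sub_apply, LinearMap.add_apply, LinearMap.smul_apply, Pu, φu, D.u0s,
      smul_zero, add_zero, sub_self]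
  have ηv : η v0 = 0 := by
    rw [hη, LinearMap.sub_apply, LinearMap.add_apply, LinearMap.smul_apply, Pv, D.hv.1, D.v0s,
      smul_eq_mul, mul_one, zero_add, sub_self]
  have t5 : TT G v0 η := by
    obtain ⟨_, g1, hg1, h1⟩ := D.hu.smul κ
    refine t4.conj' g1 hg1 ?_ (fun z => ?_)
    · rw [h1, LinearMap.smul_apply, map_add, map_smul, D.v0s, D.u0s, smul_zero, add_zero,
        smul_eq_mul, mul_one, neg_smul]
      abel
    · rw [h1, map_add, map_smul, ηu, smul_zero, add_zero]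
  have t6 : TT G (v0 + u0) η := by
    obtain ⟨_, g1, hg1, h1⟩ := D.hu
    refine t5.conj' g1 hg1 ?_ (fun z => ?_)
    · rw [h1, D.v0s, one_smul]
    · rw [h1, map_add, map_smul, ηu, smul_zero, add_zero]
  obtain ⟨_, g1, hg1, h1⟩ := D.hv.smul (-1)
  refine t6.conj' g1 hg1 ?_ (fun z => ?_)
  · rw [h1, LinearMap.smul_apply, map_add, φu, D.hv.1, zero_add, smul_eq_mul, mul_one, neg_smul,
      one_smul]
    abel
  · rw [h1, map_add, map_smul, ηv, smul_zero, add_zero]

theorem Dat.coord (y : ZMod n) : TT G u0 (sy y) := by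
  by_cases hy : qq y = 0
  · have h1 : sy y = sy 0 := LinearMap.ext fun z =>
      D.sy_congr (hy.trans (qq_zero.2 (Or.inl rfl)).symm) z
    rw [h1]
    exact D.hu
  obtain ⟨j, hj, κ, hη⟩ := D.eta
  set η := Phj ψ sy b0 c j - (φ0 + κ • sy 0) with hη'
  have hηz : ∀ z, η z = ∑ x, (c x * (ψ (-(j * qq x)) - 1) - if x = 0 then κ else 0) * sy x z := by
    intro z
    have h1 : ∀ x, (c x * (ψ (-(j * qq x)) - 1) - if x = 0 then κ else 0) * sy x z =
        c x * ψ (-(j * qq x)) * sy x z - c x * sy x z - if x = 0 then κ * sy 0 z else 0 := by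
      intro x
      by_cases h : x = 0
      · rw [h, if_pos rfl, if_pos rfl]
        ring
      · rw [if_neg h, if_neg h]
        ring
    rw [hη', LinearMap.sub_apply, LinearMap.add_apply, LinearMap.smul_apply, Phj_apply, D.hφ0,
      Finset.sum_congr rfl fun x _ => h1 x, Finset.sum_sub_distrib, Finset.sum_sub_distrib,
      Finset.sum_ite_eq', if_pos (Finset.mem_univ _), smul_eq_mul]
    ring
  set e : ZMod n → ZMod p := fun x => c x * (ψ (-(j * qq x)) - 1) - if x = 0 then κ else 0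
    with he
  -- the conjugates by the diagonal elements
  have t1 : ∀ i : ZMod n, TT G u0 (∑ x, (e x * ψ (-(i * qq x))) • sy x) := by
    intro i
    obtain ⟨g, hg, hS⟩ := D.hS i
    refine hη.conj' g hg ?_ (fun z => ?_)
    · apply D.ext
      · intro x
        rw [(hS u0).1, D.u0s, mul_zero]
      · rw [(hS u0).2]
    · rw [LinearMap.sum_apply, hηz]
      refine Finset.sum_congr rfl fun x _ => ?_
      rw [LinearMap.smul_apply, (hS z).1, smul_eq_mul]
      have h1 := psi_neg_mul ψ (i * qq x)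
      linear_combination (e x * sy x z) * h1
  have t2 : TT G u0 (∑ i : ZMod n, ψ (i * qq y) • ∑ x, (e x * ψ (-(i * qq x))) • sy x) :=
    TT.sum _ _ _ fun i _ => (t1 i).smul _
  have hey : ∀ x, qq x = qq y → e x = c y * (ψ (-(j * qq y)) - 1) := by
    intro x hx
    have hx0 : x ≠ 0 := by
      rintro rfl
      exact hy (hx.symm.trans (qq_zero.2 (Or.inl rfl)))
    rw [he]
    simp only
    rw [if_neg hx0, sub_zero, hx, D.c_congr hx hy]
  have t3 : ∑ i : ZMod n, ψ (i * qq y) • ∑ x, (e x * ψ (-(i * qq x))) • sy x =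
      (n * NN p y * (c y * (ψ (-(j * qq y)) - 1))) • sy y := by
    apply LinearMap.ext
    intro z
    have h1 : ∀ i : ZMod n, (ψ (i * qq y) • ∑ x, (e x * ψ (-(i * qq x))) • sy x) z =
        ∑ x, e x * sy x z * (ψ (-(i * qq x)) * ψ (i * qq y)) := by
      intro i
      rw [LinearMap.smul_apply, LinearMap.sum_apply, smul_eq_mul, Finset.mul_sum]
      refine Finset.sum_congr rfl fun x _ => ?_
      rw [LinearMap.smul_apply, smul_eq_mul]
      ring
    rw [LinearMap.sum_apply, Finset.sum_congr rfl fun i _ => h1 i, Finset.sum_comm,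
      LinearMap.smul_apply, smul_eq_mul]
    have h2 : ∀ x, ∑ i, e x * sy x z * (ψ (-(i * qq x)) * ψ (i * qq y)) =
        (if qq x = qq y then 1 else 0) * (n * (c y * (ψ (-(j * qq y)) - 1)) * sy y z) := by
      intro x
      rw [← Finset.mul_sum, sum_ch ψ D.hψ]
      by_cases h : qq x = qq y
      · rw [if_pos h.symm, if_pos h, hey x h, D.sy_congr h]
        ring
      · rw [if_neg (Ne.symm h), if_neg h]
        ring
    rw [Finset.sum_congr rfl fun x _ => h2 x, ← Finset.sum_mul]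
    change NN p y * _ = _
    ring
  rw [t3] at t2
  refine t2.of_smul ?_
  refine mul_ne_zero (mul_ne_zero D.hnp (NN_ne D.hp2 y)) (mul_ne_zero ?_ ?_)
  · exact D.cne y (fun h => hy (qq_zero.2 (Or.inl h))) (fun h => hy (qq_zero.2 (Or.inr h)))
  · intro h
    have h1 := D.hψ _ (sub_eq_zero.1 h)
    rw [neg_eq_zero] at h1
    exact (mul_ne_zero hj hy) h1

omit D in
theorem Dat.exists_w' (D : Dat ψ G sy b0 c u0 v0 φ0) (y : ZMod n) : ∃ w : V,
    (∀ x, sy x w = if qq x = qq y then (n : ZMod p) else 0) ∧ b0 w = 0 := by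
  choose g hg h1 using D.hS
  refine ⟨∑ i, ψ (-(i * qq y)) • g i v0, fun x => ?_, ?_⟩
  · rw [map_sum, ← sum_ch ψ D.hψ (qq x) (qq y)]
    refine Finset.sum_congr rfl fun i _ => ?_
    rw [map_smul, (h1 i v0).1, D.v0s, smul_eq_mul, mul_one]
  · rw [map_sum]
    refine Finset.sum_eq_zero fun i _ => ?_
    rw [map_smul, (h1 i v0).2, D.v0b, smul_zero]

theorem Dat.full_u0 : Full G u0 := by
  intro φ hφ
  choose w hw hw0 using D.exists_w'
  have h1 : φ = ∑ y, ((n * NN p y)⁻¹ * φ (w y)) • sy y := by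
    apply LinearMap.ext
    intro z
    rw [LinearMap.sum_apply]
    conv_lhs => rw [D.decomp w hw hw0 z]
    rw [map_add, map_smul, hφ, smul_zero, zero_add, map_sum]
    refine Finset.sum_congr rfl fun y _ => ?_
    rw [map_smul, LinearMap.smul_apply]
    simp only [smul_eq_mul]
    ring
  rw [h1]
  exact TT.sum _ _ _ fun y _ => (D.coord y).smul _

theorem Dat.full (z : V) : Full G z := by
  have h1 : Full G v0 := by
    obtain ⟨h, hh, h2⟩ := D.move
    have h3 := D.full_u0.conj h hh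
    rwa [h2] at h3
  choose w hw1 hw hw0 using D.exists_w h1
  rw [D.decomp w hw hw0 z]
  exact (D.full_u0.smul _).add (Full.sum _ _ fun y _ => (hw1 y).smul _)

end gen

end Pool.MP_22db8c_al.HW
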