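import Pool.Agent.H.MP_22db8c_al.helper22.HwE
import Pool.Agent.H.MP_22db8c_al.helper22.HwA

set_option autoImplicit false

/-!
MP_22db8c_al, Heisenberg representations: powers of the second twist.
-/

namespace Pool.MP_22db8c_al.HW

open scoped BigOperators

section abs

variable {F M : Type} [Field F] [AddCommGroup M] [Module F M]

theorem Ye_pow (b B : M ≃ₗ[F] M) (e : B * b = b * B) (m : ℕ) (z : M × M) :
    (Ye b B ^ m) z = ((B⁻¹ ^ m) (((b * b) ^ m) z.1 -
      ∑ j ∈ Finset.range m, ((b * b) ^ j) (z.2 + b z.2)), (B⁻¹ ^ m) z.2) := by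
  have hc : Commute B⁻¹ (b * b) := by
    have h1 : Commute B b := e
    exact (h1.mul_right h1).inv_left
  have hc1 : Commute B⁻¹ b := by
    have h1 : Commute B b := e
    exact h1.inv_left
  induction m with
  | zero =>
    rw [pow_zero, pow_zero, pow_zero, Finset.sum_range_zero, sub_zero]
    rfl
  | succ m ih =>
    rw [pow_succ', le_mul, ih, Ye_apply]
    simp only
    refine Prod.ext ?_ ?_
    · change B⁻¹ (b (b ((B⁻¹ ^ m) (((b * b) ^ m) z.1 -
        ∑ j ∈ Finset.range m, ((b * b) ^ j) (z.2 + b z.2)))) - (B⁻¹ ^ m) z.2 -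
          b ((B⁻¹ ^ m) z.2)) = (B⁻¹ ^ (m + 1)) (((b * b) ^ (m + 1)) z.1 -
        ∑ j ∈ Finset.range (m + 1), ((b * b) ^ j) (z.2 + b z.2))
      have h1 : ∀ x, b (b ((B⁻¹ ^ m) x)) = (B⁻¹ ^ m) ((b * b) x) := by
        intro x
        have h2 : (b * b) * B⁻¹ ^ m = B⁻¹ ^ m * (b * b) := ((hc.pow_left m).eq).symm
        rw [← le_mul b b, ← le_mul, h2, le_mul]
      have h3 : ∀ x, b ((B⁻¹ ^ m) x) = (B⁻¹ ^ m) (b x) := by
        intro x
        have h2 : b * B⁻¹ ^ m = B⁻¹ ^ m * b := ((hc1.pow_left m).eq).symm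
        rw [← le_mul, h2, le_mul]
      rw [h1, h3, ← map_sub, ← map_sub, pow_succ' B⁻¹]
      change B⁻¹ ((B⁻¹ ^ m) _) = B⁻¹ ((B⁻¹ ^ m) _)
      congr 2
      rw [Finset.sum_range_succ', map_sub, map_sum, pow_zero]
      have h4 : ∀ j, (b * b) (((b * b) ^ j) (z.2 + b z.2)) = ((b * b) ^ (j + 1)) (z.2 + b z.2) := by
        intro j
        rw [← le_mul, ← pow_succ']
      rw [Finset.sum_congr rfl fun j _ => h4 j, ← le_mul, ← pow_succ']
      change _ = _ - (_ + (z.2 + b z.2))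
      abel
    · change B⁻¹ ((B⁻¹ ^ m) z.2) = (B⁻¹ ^ (m + 1)) z.2
      rw [← le_mul, ← pow_succ']

theorem rs_pow (V : Submodule F M) [FiniteDimensional F V] (e : M ≃ₗ[F] M)
    (h : ∀ z ∈ V, e z ∈ V) (m : ℕ) (z : V) : (((rs V e h ^ m) z : V) : M) = (e ^ m) z := by
  induction m generalizing z with
  | zero => rfl
  | succ m ih =>
    rw [pow_succ, le_mul, ih, pow_succ, le_mul, rs_apply]

end abs

section conc

variable {n : ℕ} [NeZero n] {F : Type} [Field F]

theorem sum_range_zmod (f : ZMod n → F) : ∑ j ∈ Finset.range n, f ((j : ℕ) : ZMod n) = ∑ y, f y := by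
  refine Finset.sum_nbij' (fun j => ((j : ℕ) : ZMod n)) (fun y => y.val) ?_ ?_ ?_ ?_ ?_
  · intro a _
    exact Finset.mem_univ _
  · intro a _
    exact Finset.mem_range.2 (ZMod.val_lt a)
  · intro a ha
    exact ZMod.val_natCast_of_lt (Finset.mem_range.1 ha)
  · intro a _
    exact ZMod.natCast_zmod_val a
  · intro a _
    rfl

/-- powers of the square of the shift -/
theorem ob2_pow (j : ℕ) (f : W n F) (x : ZMod n) :
    (((ob : W n F ≃ₗ[F] W n F) * ob) ^ j : W n F ≃ₗ[F] W n F) f x = f (x + 2 * j) := by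
  rw [← pow_two, ← pow_mul, ob_pow]
  congr 1
  push_cast
  ring

theorem sum_shift (h : ZMod n) (h2 : h + h = 1) (β : W n F) (x : ZMod n) :
    (∑ j ∈ Finset.range n, (((ob : W n F ≃ₗ[F] W n F) * ob) ^ j : W n F ≃ₗ[F] W n F) (β + ob β)) x =
      2 * ∑ y, β y := by
  rw [Finset.sum_apply]
  have h1 : ∀ j : ℕ, (((ob : W n F ≃ₗ[F] W n F) * ob) ^ j : W n F ≃ₗ[F] W n F) (β + ob β) x =
      β (x + 2 * j) + β (x + 2 * j + 1) := by
    intro j
    rw [ob2_pow]
    rfl
  rw [Finset.sum_congr rfl fun j _ => h1 j, Finset.sum_add_distrib,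
    sum_range_zmod (fun t => β (x + 2 * t)), sum_range_zmod (fun t => β (x + 2 * t + 1)), two_mul]
  congr 1
  · refine Fintype.sum_equiv ⟨fun t => x + 2 * t, fun t => h * (t - x), fun t => ?_, fun t => ?_⟩
      _ _ fun t => rfl
    · linear_combination t * h2
    · linear_combination (t - x) * h2
  · refine Fintype.sum_equiv ⟨fun t => x + 2 * t + 1, fun t => h * (t - 1 - x), fun t => ?_,
      fun t => ?_⟩ _ _ fun t => rfl
    · linear_combination t * h2
    · linear_combination (t - 1 - x) * h2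

end conc

end Pool.MP_22db8c_al.HW
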