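import Pool.Agent.H.MP_22db8c_al.helper22.HwF
import Pool.Agent.H.MP_22db8c_al.helper22.HwJ
import Pool.Agent.H.MP_22db8c_al.helper22.HwK

set_option autoImplicit false

/-!
MP_22db8c_al, Heisenberg representations: the twists generate a group which contains all
transvections of the invariant subspace.
-/

namespace Pool.MP_22db8c_al.HW

open scoped BigOperators

section co

variable {n : ℕ} {F : Type} [Field F] (ψ : AddChar (ZMod n) F) (hψ : ∀ x, ψ x = 1 → x = 0)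

/-- the coefficients of the functional -/
noncomputable def cc (x : ZMod n) : F := hh ψ (x - 1) - hh ψ x

include hψ

theorem cc_symm (x : ZMod n) (h0 : x ≠ 0) (h1 : x ≠ 1) : cc ψ (1 - x) = cc ψ x := by
  unfold cc
  have e1 : 1 - x - 1 = -x := by ring
  have e2 : 1 - x = -(x - 1) := by ring
  rw [e1, e2, hh_neg ψ hψ h0, hh_neg ψ hψ (sub_ne_zero.2 h1)]
  ring

theorem cc_ne (hn1 : (1 : ZMod n) ≠ 0) (x : ZMod n) (h0 : x ≠ 0) (h1 : x ≠ 1) : cc ψ x ≠ 0 := by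
  unfold cc
  intro h
  have h2 := hh_mul ψ hψ h0
  have h3 := hh_mul ψ hψ (sub_ne_zero.2 h1)
  rw [sub_eq_zero.1 h] at h3
  have h4 : hh ψ x ≠ 0 := by
    intro h5
    rw [h5, zero_mul] at h2
    exact zero_ne_one h2
  have h5 : ψ (-(x - 1)) = ψ (-x) := by
    have h6 := mul_left_cancel₀ h4 (h3.trans h2.symm)
    linear_combination -h6
  have h6 : ψ 1 = 1 := by
    have e : -(x - 1) = 1 + -x := by ring
    rw [e, psi_add] at h5
    exact (mul_left_eq_self₀.1 h5).resolve_right (psi_ne ψ _)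
  exact hn1 (hψ 1 h6)

theorem cc_01 (h : ZMod n) (h2 : h + h = 1) (hn1 : (1 : ZMod n) ≠ 0) :
    cc ψ 0 + cc ψ 1 ≠ 0 := by
  unfold cc
  rw [zero_sub, sub_self]
  intro h0
  have h3 := hh_mul ψ hψ hn1
  have h4 := hh_mul ψ hψ (neg_ne_zero.2 hn1)
  have h5 : hh ψ (-1) = hh ψ 1 := by linear_combination h0
  rw [h5, neg_neg] at h4
  have h6 : hh ψ 1 ≠ 0 := by
    intro h7
    rw [h7, zero_mul] at h3
    exact zero_ne_one h3
  have h7 : ψ 1 = ψ (-1) := by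
    have h8 := mul_left_cancel₀ h6 (h3.trans h4.symm)
    linear_combination h8
  have h8 : ψ (1 + 1) = 1 := by
    rw [psi_add]
    have h9 := psi_neg_mul ψ 1
    rw [← h7] at h9
    exact h9
  have h9 := hψ _ h8
  apply hn1
  have h10 : (1 : ZMod n) = h * (1 + 1) := by linear_combination -h2
  rw [h10, h9, mul_zero]

end co

section fun_

variable {n : ℕ} [NeZero n] {F : Type} [Field F] (ψ : AddChar (ZMod n) F)
  (hψ : ∀ x, ψ x = 1 → x = 0)

/-- the values of the first entry -/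
def syV (x : ZMod n) : Module.Dual F (VW ψ) where
  toFun z := z.1.1 x
  map_add' _ _ := rfl
  map_smul' _ _ := rfl

/-- the value at zero of the second entry -/
def b0V : Module.Dual F (VW ψ) where
  toFun z := z.1.2 0
  map_add' _ _ := rfl
  map_smul' _ _ := rfl

/-- the sum of the values of the second entry -/
def f0V : Module.Dual F (VW ψ) where
  toFun z := ∑ y, z.1.2 y
  map_add' z w := by
    change ∑ y, (z.1.2 y + w.1.2 y) = _
    rw [Finset.sum_add_distrib]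
  map_smul' c z := by
    change ∑ y, (c * z.1.2 y) = c * _
    rw [Finset.mul_sum]

/-- the two vectors -/
noncomputable def u0V : VW ψ := ⟨mkz ψ (fun _ => 0) 1, mkz_mem ψ hψ _ _ fun _ => rfl⟩
noncomputable def v0V : VW ψ := ⟨mkz ψ (fun _ => 1) 0, mkz_mem ψ hψ _ _ fun _ => rfl⟩

include hψ in
theorem f0V_eq (z : VW ψ) : f0V ψ z = b0V ψ z + ∑ x, cc ψ x * syV ψ x z := by
  change ∑ y, z.1.2 y = z.1.2 0 + ∑ x, cc ψ x * z.1.1 x
  have h1 : ∀ y, z.1.2 y = (Pi.single 0 (z.1.2 0) : ZMod n → F) y +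
      hh ψ y * (z.1.1 (y + 1) - z.1.1 y) := fun y =>
    congrFun (congrArg Prod.snd (eq_mkz ψ hψ z.1 z.2)) y
  rw [Finset.sum_congr rfl fun y _ => h1 y, Finset.sum_add_distrib, Finset.sum_pi_single',
    if_pos (Finset.mem_univ _)]
  congr 1
  have h2 : ∑ y, hh ψ y * z.1.1 (y + 1) = ∑ x, hh ψ (x - 1) * z.1.1 x := by
    refine Fintype.sum_equiv (Equiv.addRight (1 : ZMod n)) _ _ fun x => ?_
    change hh ψ x * z.1.1 (x + 1) = hh ψ (x + 1 - 1) * z.1.1 (x + 1)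
    rw [add_sub_cancel_right]
  have h3 : ∀ y, hh ψ y * (z.1.1 (y + 1) - z.1.1 y) = hh ψ y * z.1.1 (y + 1) - hh ψ y * z.1.1 y :=
    fun y => mul_sub _ _ _
  have h4 : ∀ x, cc ψ x * z.1.1 x = hh ψ (x - 1) * z.1.1 x - hh ψ x * z.1.1 x := fun x => by
    unfold cc
    ring
  rw [Finset.sum_congr rfl fun y _ => h3 y, Finset.sum_congr rfl fun x _ => h4 x,
    Finset.sum_sub_distrib, Finset.sum_sub_distrib, h2]

end fun_

section tw

variable {n : ℕ} [NeZero n] {F : Type} [Field F] (ψ : AddChar (ZMod n) F)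
  (hψ : ∀ x, ψ x = 1 → x = 0) (hn : (n : F) ≠ 0)

omit [NeZero n] in
/-- the first twist preserves the subspace -/
theorem Xw_mem (z : W n F × W n F) (hz : z ∈ VW ψ) : Xe (oa ψ) (oA ψ) z ∈ VW ψ :=
  Xe_mem (oa ψ) ob (oA ψ) io (oA_oa ψ) (oA_ob ψ) io_ob (oA_io_ob ψ) (io_oa ψ) z hz

/-- the second twist preserves the subspace -/
theorem Yw_mem (z : W n F × W n F) (hz : z ∈ VW ψ) : Ye ob (oB ψ hψ hn) z ∈ VW ψ :=
  Ye_mem (oa ψ) ob (oB ψ hψ hn) io (oB_oa ψ hψ hn) (oB_ob ψ hψ hn) (oB_oa_io ψ hψ hn) io_ob z hz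

/-- the restricted twists -/
noncomputable def Xv : VW ψ ≃ₗ[F] VW ψ := rs (VW ψ) (Xe (oa ψ) (oA ψ)) (Xw_mem ψ)
noncomputable def Yv : VW ψ ≃ₗ[F] VW ψ :=
  rs (VW ψ) (Ye ob (oB ψ hψ hn)) (Yw_mem ψ hψ hn)

theorem Xv_1 (z : VW ψ) (x : ZMod n) : (Xv ψ z).1.1 x = ψ (x * (x - 1)) * z.1.1 x := by
  have h1 : ((Xv ψ z : VW ψ) : W n F × W n F) = Xe (oa ψ) (oA ψ) z := rs_apply _ _ _ z
  rw [h1, Xe_apply]
  exact oA_inv_apply ψ _ x

theorem Xv_2 (z : VW ψ) : (Xv ψ z).1.2 0 = z.1.2 0 + 2 * z.1.1 0 := by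
  have h1 : ((Xv ψ z : VW ψ) : W n F × W n F) = Xe (oa ψ) (oA ψ) z := rs_apply _ _ _ z
  rw [h1, Xe_apply]
  refine (oA_inv_apply ψ _ 0).trans ?_
  change ψ (0 * (0 - 1)) * (ψ 0 * (ψ 0 * z.1.2 0) + ψ 0 * z.1.1 0 + ψ 0 * (ψ 0 * z.1.1 0)) = _
  rw [zero_mul, AddChar.map_zero_eq_one]
  ring

theorem Xv_pow (m : ℕ) (z : VW ψ) :
    (∀ x, ((Xv ψ ^ m) z).1.1 x = ψ (m * (x * (x - 1))) * z.1.1 x) ∧
      ((Xv ψ ^ m) z).1.2 0 = z.1.2 0 + 2 * m * z.1.1 0 := by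
  induction m with
  | zero =>
    refine ⟨fun x => ?_, ?_⟩
    · rw [pow_zero, Nat.cast_zero, zero_mul, AddChar.map_zero_eq_one, one_mul]
      rfl
    · rw [pow_zero, Nat.cast_zero, mul_zero, zero_mul, add_zero]
      rfl
  | succ m ih =>
    obtain ⟨h1, h2⟩ := ih
    refine ⟨fun x => ?_, ?_⟩
    · rw [pow_succ', le_mul, Xv_1, h1, ← mul_assoc, ← psi_add]
      congr 2
      push_cast
      ring
    · rw [pow_succ', le_mul, Xv_2, h1, h2]
      rw [zero_mul, mul_zero, AddChar.map_zero_eq_one]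
      push_cast
      ring

theorem Yv_pow_n (h : ZMod n) (h2 : h + h = 1) (z : VW ψ) :
    (Yv ψ hψ hn ^ n) z = z + (-2 * f0V ψ z) • v0V ψ hψ := by
  have h1 : (((Yv ψ hψ hn ^ n) z : VW ψ) : W n F × W n F) = (Ye ob (oB ψ hψ hn) ^ n) z :=
    rs_pow _ _ _ n z
  have h3 : ((ob : W n F ≃ₗ[F] W n F) * ob) ^ n = 1 := by
    rw [← pow_two, ← pow_mul, mul_comm, pow_mul, ob_pow_n, one_pow]
  have h4 : (oB ψ hψ hn)⁻¹ ^ n = 1 := by
    rw [inv_pow, oB_pow, inv_one]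
  rw [Ye_pow _ _ (oB_ob ψ hψ hn), h3, h4] at h1
  apply VW_ext ψ hψ
  · intro x
    rw [h1]
    change z.1.1 x - (∑ j ∈ Finset.range n,
      (((ob : W n F ≃ₗ[F] W n F) * ob) ^ j : W n F ≃ₗ[F] W n F) (z.1.2 + ob z.1.2)) x =
        z.1.1 x + (-2 * ∑ y, z.1.2 y) * 1
    rw [sum_shift h h2]
    ring
  · rw [h1]
    change z.1.2 0 = z.1.2 0 + (-2 * ∑ y, z.1.2 y) * (mkz ψ (fun _ => 1) 0).2 0
    rw [mkz_zero, mul_zero, add_zero]

end tw

section dat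

variable {p n : ℕ} [Fact p.Prime] [Fact n.Prime] (ψ : AddChar (ZMod n) (ZMod p))
  (hψ : ∀ x, ψ x = 1 → x = 0) (hn : (n : ZMod p) ≠ 0) (hp2 : (2 : ZMod p) ≠ 0)
  (k : ℕ) (hk : n = 2 * k + 1) (hpn : n.Coprime p)

include hk hp2 hpn in
theorem dat (G : Subgroup (VW ψ ≃ₗ[ZMod p] VW ψ)) (hX : Xv ψ ∈ G) (hY : Yv ψ hψ hn ∈ G) :
    Dat ψ G (syV ψ) (b0V ψ) (cc ψ) (u0V ψ hψ) (v0V ψ hψ) (f0V ψ) where
  hψ := hψ
  hp2 := hp2
  hnp := hn
  hsym x z := ((mem_VW ψ z.1).1 z.2).1 x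
  ext z w h1 h2 := VW_ext ψ hψ z w h1 h2
  hS j := by
    obtain ⟨m, hm1, hm2⟩ := Nat.chineseRemainder hpn 1 0
    have e1 : (m : ZMod n) = 1 := by
      have := (ZMod.natCast_eq_natCast_iff m 1 n).2 hm1
      rwa [Nat.cast_one] at this
    have e2 : (m : ZMod p) = 0 := by
      have := (ZMod.natCast_eq_natCast_iff m 0 p).2 hm2
      rwa [Nat.cast_zero] at this
    refine ⟨Xv ψ ^ (m * j.val), G.pow_mem hX _, fun z => ⟨fun x => ?_, ?_⟩⟩
    · change ((Xv ψ ^ (m * j.val)) z).1.1 x = ψ (j * qq x) * z.1.1 x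
      rw [(Xv_pow ψ _ z).1, Nat.cast_mul, e1, one_mul, ZMod.natCast_zmod_val, qq]
    · change ((Xv ψ ^ (m * j.val)) z).1.2 0 = z.1.2 0
      rw [(Xv_pow ψ _ z).2, Nat.cast_mul, e2, zero_mul, mul_zero, zero_mul, add_zero]
  u0s x := rfl
  u0b := mkz_zero ψ (fun _ => 0) 1
  v0s x := rfl
  v0b := mkz_zero ψ (fun _ => 1) 0
  hφ0 z := f0V_eq ψ hψ z
  hu := by
    have h1 : TT G (u0V ψ hψ) ((2 * n : ZMod p) • syV ψ 0) := by
      refine ⟨?_, Xv ψ ^ n, G.pow_mem hX _, fun z => ?_⟩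
      · change (2 * n : ZMod p) * 0 = 0
        rw [mul_zero]
      · apply VW_ext ψ hψ
        · intro x
          rw [(Xv_pow ψ _ z).1, ZMod.natCast_self, zero_mul, AddChar.map_zero_eq_one, one_mul]
          change z.1.1 x = z.1.1 x + (2 * n * z.1.1 0) * 0
          rw [mul_zero, add_zero]
        · rw [(Xv_pow ψ _ z).2]
          change _ = z.1.2 0 + (2 * n * z.1.1 0) * (mkz ψ (fun _ => 0) 1).2 0
          rw [mkz_zero, mul_one]
    exact h1.of_smul (mul_ne_zero hp2 hn)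
  hv := by
    have h2 := two_hf k hk
    have h1 : TT G (v0V ψ hψ) ((-2 : ZMod p) • f0V ψ) := by
      refine ⟨?_, Yv ψ hψ hn ^ n, G.pow_mem hY _, fun z => ?_⟩
      · change (-2 : ZMod p) * f0V ψ (v0V ψ hψ) = 0
        have h3 : f0V ψ (v0V ψ hψ) = 0 := by
          change ∑ y, (mkz ψ (fun _ => 1) 0).2 y = 0
          refine Finset.sum_eq_zero fun y _ => ?_
          by_cases hy : y = 0
          · rw [hy, mkz_zero]
          · rw [mkz_snd ψ _ _ hy, sub_self, mul_zero]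
        rw [h3, mul_zero]
      · rw [Yv_pow_n ψ hψ hn _ h2]
        rfl
    exact h1.of_smul (neg_ne_zero.2 hp2)
  c01 := cc_01 ψ hψ _ (two_hf k hk) one_ne_zero
  cne := cc_ne ψ hψ one_ne_zero
  csym := cc_symm ψ hψ

end dat

end Pool.MP_22db8c_al.HW
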