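import Pool.Agent.H.MP_22db8c_al.Sol4
import Pool.Agent.H.MP_22db8c_al.helper22.HwD
import Pool.Agent.H.MP_22db8c_al.helper22.HwL

set_option autoImplicit false

/-!
MP_22db8c_al, Heisenberg representations: the scalar is one.
-/

namespace Pool.MP_22db8c_al.HW

open FreeGroup (of)
open Pool.MP_59b15d_al.H76 (F2 XX YY VV VV_0 VV_1)

section det

variable {F M : Type} [Field F] [AddCommGroup M] [Module F M]

/-- the determinant as a homomorphism on the words -/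
theorem det_lift (a b : M ≃ₗ[F] M) (u : F2) : LinearEquiv.det (FreeGroup.lift ![a, b] u) =
    LinearEquiv.det a ^ E1 u * LinearEquiv.det b ^ E2' u := by
  rw [← lift_pair]
  refine hom_ext2 (f := LinearEquiv.det.comp (FreeGroup.lift ![a, b]))
    (g := FreeGroup.lift ![LinearEquiv.det a, LinearEquiv.det b]) ?_ ?_ u
  · rw [MonoidHom.comp_apply, FreeGroup.lift_apply_of, FreeGroup.lift_apply_of]
    rfl
  · rw [MonoidHom.comp_apply, FreeGroup.lift_apply_of, FreeGroup.lift_apply_of]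
    rfl

theorem det_scal (f g : M ≃ₗ[F] M) (c : F) (h : ∀ x, f x = c • g x) :
    (LinearEquiv.det f : F) = c ^ Module.finrank F M * (LinearEquiv.det g : F) := by
  rw [LinearEquiv.coe_det, LinearEquiv.coe_det, ← LinearMap.det_smul]
  congr 1
  apply LinearMap.ext
  intro x
  exact h x

end det

section scal

variable {p : ℕ} [Fact p.Prime]

theorem unit_zpow (x : (ZMod p)ˣ) (m : ℤ) (hm : ((p - 1 : ℕ) : ℤ) ∣ m) : x ^ m = 1 := by
  obtain ⟨t, rfl⟩ := hm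
  rw [zpow_mul, zpow_natCast, ZMod.units_pow_card_sub_one_eq_one, one_zpow]

variable {M : Type} [AddCommGroup M] [Module (ZMod p) M]

/-- the first power of the scalar which is one -/
theorem scal_one (a b A B : M ≃ₗ[ZMod p] M) (n : ℕ) (ha : a ^ n = 1) (hb : b ^ n = 1)
    (u k : F2) (h1 : ((p - 1 : ℕ) : ℤ) ∣ E1 u) (h2 : ((p - 1 : ℕ) : ℤ) ∣ E2' u) (c : ZMod p)
    (hc : ∀ x, La a b k x = c • Cw A B u x) : (c ^ Module.finrank (ZMod p) M) ^ n = 1 := by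
  have h3 := det_scal _ _ c hc
  have h4 : LinearEquiv.det (Cw A B u) = 1 := by
    rw [Cw, det_lift, unit_zpow _ _ h1, unit_zpow _ _ h2, one_mul]
  have h5 : LinearEquiv.det (La a b k) ^ n = 1 := by
    rw [La, det_lift, mul_pow, ← zpow_natCast, ← zpow_natCast, ← zpow_mul, ← zpow_mul,
      mul_comm _ (n : ℤ), mul_comm _ (n : ℤ), zpow_mul, zpow_mul, zpow_natCast, zpow_natCast,
      ← map_pow, ← map_pow, ha, hb, map_one, one_zpow, one_zpow, one_mul]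
  rw [h4, Units.val_one, mul_one] at h3
  rw [← h3, ← Units.val_pow_eq_pow_val, h5, Units.val_one]

/-- the second power of the scalar which is one -/
theorem scal_two (V : Submodule (ZMod p) M) [FiniteDimensional (ZMod p) V] (X Y : M ≃ₗ[ZMod p] M)
    (hX : ∀ z ∈ V, X z ∈ V) (hY : ∀ z ∈ V, Y z ∈ V)
    (u : F2) (h1 : ((p - 1 : ℕ) : ℤ) ∣ E1 u) (h2 : ((p - 1 : ℕ) : ℤ) ∣ E2' u) (c : ZMod p)
    (hc : ∀ z : V, (R1 V X Y hX hY u)⁻¹ z = c • z) : c ^ Module.finrank (ZMod p) V = 1 := by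
  have h3 := det_scal (R1 V X Y hX hY u)⁻¹ 1 c hc
  have h4 : LinearEquiv.det (R1 V X Y hX hY u) = 1 := by
    rw [R1, det_lift, unit_zpow _ _ h1, unit_zpow _ _ h2, one_mul]
  rw [map_inv, h4, inv_one, map_one, Units.val_one, mul_one] at h3
  exact h3.symm

end scal

section main

variable {p n : ℕ} [Fact p.Prime] [Fact n.Prime] (ψ : AddChar (ZMod n) (ZMod p))
  (hψ : ∀ x, ψ x = 1 → x = 0) (hn : (n : ZMod p) ≠ 0)

/-- the representation of the words -/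
noncomputable def RW : F2 →* (VW ψ ≃ₗ[ZMod p] VW ψ) :=
  R1 (VW ψ) (Xe (oa ψ) (oA ψ)) (Ye ob (oB ψ hψ hn)) (Xw_mem ψ) (Yw_mem ψ hψ hn)

theorem RW_one (k : ℕ) (hk : n = 2 * k + 1) (hk2 : 2 ≤ k) (u h : F2)
    (h1 : ((p - 1 : ℕ) : ℤ) ∣ E1 u) (h2 : ((p - 1 : ℕ) : ℤ) ∣ E2' u)
    (hyp : ∀ (φ : F2 →* SD (hs ψ).range (W n (ZMod p))) (g : F2),
      φ (VV u g) = φ h * φ g * (φ h)⁻¹) : RW ψ hψ hn u = 1 := by
  have hprime : n.Prime := Fact.out
  obtain ⟨c, hc1, hc2⟩ := rel_c (oa ψ) ob (oA ψ) (oB ψ hψ hn) (oA_oa ψ) (oA_ob ψ)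
    (oB_oa ψ hψ hn) (oB_ob ψ hψ hn) (fun C e1 e2 => schur ψ hψ C e1 e2) (ψ 1)
    (fun h0 => one_ne_zero (hψ 1 h0)) (La_om ψ) u h
    (hyp_of (hs ψ).range (oa ψ) ob (oa_mem ψ) (ob_mem ψ) u h hyp)
  have h3 := scal_one (oa ψ) ob (oA ψ) (oB ψ hψ hn) n (oa_pow ψ) ob_pow_n u h h1 h2 c hc1
  have h4 : ∀ z : VW ψ, (RW ψ hψ hn u)⁻¹ z = c • z := by
    intro z
    have hz := (mem_VP (oa ψ) ob io z.1).1 z.2
    have h5 := hc2 z.1 (cz_om (oa ψ) ob z.1 hz.2.2)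
    have h6 : ((RW ψ hψ hn u⁻¹ z : VW ψ) : W n (ZMod p) × W n (ZMod p)) =
        R0 (oa ψ) ob (oA ψ) (oB ψ hψ hn) u⁻¹ z.1 :=
      R1_apply (VW ψ) (Xe (oa ψ) (oA ψ)) (Ye ob (oB ψ hψ hn)) (Xw_mem ψ) (Yw_mem ψ hψ hn) u⁻¹ z
    rw [map_inv, map_inv, h5] at h6
    exact Subtype.ext h6
  have h5 := scal_two (VW ψ) (Xe (oa ψ) (oA ψ)) (Ye ob (oB ψ hψ hn)) (Xw_mem ψ)
    (Yw_mem ψ hψ hn) u h1 h2 c h4
  have d1 : Module.finrank (ZMod p) (W n (ZMod p)) = n := by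
    rw [Module.finrank_pi, ZMod.card]
  have d2 : Module.finrank (ZMod p) (VW ψ) = k + 2 := by
    rw [(eqv ψ hψ k hk).finrank_eq, Module.finrank_fin_fun]
  rw [d1, ← pow_mul] at h3
  rw [d2] at h5
  have h6 := pow_gcd_eq_one.2 ⟨h3, h5⟩
  have h7 : (n * n).gcd (k + 2) = 1 := by
    have h8 : n.Coprime (k + 2) := by
      rw [Nat.Prime.coprime_iff_not_dvd hprime]
      intro h9
      have h10 := Nat.le_of_dvd (by omega) h9
      omega
    exact Nat.Coprime.mul_left h8 h8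
  rw [h7, pow_one] at h6
  apply inv_injective
  rw [inv_one]
  apply LinearEquiv.ext
  intro z
  rw [h4, h6, one_smul]
  rfl

end main

end Pool.MP_22db8c_al.HW
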