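import Pool.Agent.H.MP_22db8c_al.helper22.HwM
import Pool.Agent.H.MP_22db8c_al.helper22.HwH
import Pool.Agent.H.MP_22db8c_al.helper22.Psi

set_option autoImplicit false

/-!
MP_22db8c_al, Heisenberg representations: the main theorem in terms of the words in the twists.
-/

namespace Pool.MP_22db8c_al.HW

open RegularWreathProduct
open FreeGroup (of)
open Pool.MP_59b15d_al.H76

/-- existence of the character -/
theorem exists_char (n p : ℕ) [NeZero n] [Fact p.Prime] (hpn : n ∣ p - 1) :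
    ∃ ψ : AddChar (ZMod n) (ZMod p), ∀ x, ψ x = 1 → x = 0 := by
  have hp : p.Prime := Fact.out
  obtain ⟨g, hg⟩ := IsCyclic.exists_generator (α := (ZMod p)ˣ)
  have hord : orderOf g = p - 1 := by
    rw [orderOf_eq_card_of_forall_mem_zpowers hg, Nat.card_eq_fintype_card, ZMod.card_units]
  have hp1 : p - 1 ≠ 0 := by
    have := hp.two_le
    omega
  have hn0 : n ≠ 0 := NeZero.ne n
  obtain ⟨t, ht⟩ := hpn
  have ht0 : t ≠ 0 := by
    rintro rfl
    exact hp1 (by rw [ht, mul_zero])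
  have h1 : orderOf (g ^ t) = n := by
    rw [orderOf_pow_of_dvd ht0 (by rw [hord, ht]; exact dvd_mul_left t n), hord, ht,
      Nat.mul_div_cancel _ (Nat.pos_of_ne_zero ht0)]
  have h2 : (((g ^ t : (ZMod p)ˣ) : ZMod p)) ^ n = 1 := by
    rw [← Units.val_pow_eq_pow_val, ← Units.val_one]
    congr 1
    conv_lhs => rw [← h1]
    exact pow_orderOf_eq_one _
  refine ⟨AddChar.zmodChar n h2, fun x hx => ?_⟩
  rw [AddChar.zmodChar_apply, ← Units.val_pow_eq_pow_val, ← Units.val_one] at hx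
  have h3 := orderOf_dvd_of_pow_eq_one (Units.ext hx)
  rw [h1] at h3
  have h4 := Nat.eq_zero_of_dvd_of_lt h3 (ZMod.val_lt x)
  exact (ZMod.val_eq_zero x).1 h4

section main

variable {p n : ℕ} [Fact p.Prime] [Fact n.Prime] (ψ : AddChar (ZMod n) (ZMod p))
  (hψ : ∀ x, ψ x = 1 → x = 0) (hn : (n : ZMod p) ≠ 0)

/-- the representation is trivial on the words which act as inner automorphisms -/
theorem main_hw (k : ℕ) (hk : n = 2 * k + 1) (hk2 : 2 ≤ k) (hp3 : 3 < p) (r : ℕ)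
    (hr : 3 ≤ r) : ∃ K : Subgroup (F2 ⧸ derivedSeries F2 r), K.Characteristic ∧ K.FiniteIndex ∧
      ∀ f : MulAut F2, (∃ w : F2, f gc = w * gc * w⁻¹) →
        (∃ k : F2 ⧸ derivedSeries F2 r, ∀ x : F2,
        ((f x : F2) : F2 ⧸ derivedSeries F2 r) * (k * (x : F2 ⧸ derivedSeries F2 r) * k⁻¹)⁻¹ ∈ K) →
        ∃ h u : F2, f = MulAut.conj h * VV u ∧ RW ψ hψ hn u = 1 := by
  have : Finite (hs ψ).range :=
    Finite.of_surjective (hs ψ).rangeRestrict (hs ψ).rangeRestrict_surjective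
  have : Finite (W n (ZMod p)) := Pi.finite
  have hQ : derivedSeries (SD (hs ψ).range (W n (ZMod p)) × (Aff (ZMod p) ≀ᵣ V) × (Z3 ≀ᵣ V) ×
      Multiplicative (ZMod 4)) 3 = ⊥ :=
    prod_derived (sd_derived' 2 (hs_derived ψ))
      (prod_derived (wr_derived_three V_comm Aff.derived)
        (prod_derived (wr_derived_three V_comm (comm_derived Z3 2 (by norm_num)))
          (comm_derived _ 3 (by norm_num))))
  obtain ⟨K, hKc, hKf, hK⟩ := exists_K (SD (hs ψ).range (W n (ZMod p)) × (Aff (ZMod p) ≀ᵣ V) ×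
    (Z3 ≀ᵣ V) × Multiplicative (ZMod 4)) hQ r hr
  refine ⟨K, hKc, hKf, fun f hf hfk => ?_⟩
  obtain ⟨l, hl⟩ := hK f hfk
  have k1 := hl.fst
  have k2 := hl.snd.fst
  have k3 := hl.snd.snd.fst
  have k4 := hl.snd.snd.snd
  obtain ⟨h0, u, hfu⟩ := form f l hf k4
  refine ⟨h0, u, hfu, ?_⟩
  have conv' : ∀ (Q : Type) [Group Q], Rel f l Q → ∀ (φ : F2 →* Q) (g : F2),
      φ (VV u g) = φ (h0⁻¹ * l) * φ g * (φ (h0⁻¹ * l))⁻¹ := by
    intro Q _ hQ φ g
    have h1 := hQ φ g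
    rw [hfu, MulAut.mul_apply, MulAut.conj_apply, map_mul, map_mul, map_inv] at h1
    have h2 : φ (VV u g) = (φ h0)⁻¹ * (φ h0 * φ (VV u g) * (φ h0)⁻¹) * φ h0 := by group
    rw [h2, h1, map_mul, map_inv]
    group
  have hr2 : ∀ {U : Type} [Group U] (c : U × U × U), (psi c (h0⁻¹ * l)).right = 1 :=
    fun c => right_one u (h0⁻¹ * l) (fun q g => conv' _ k3 (psi q) g) c
  obtain ⟨d1, d2, _, _, _⟩ := ab_main p hp3 u (h0⁻¹ * l)
    (fun c z g => conv' _ k2 (psi (tri c z)) g) (fun c => hr2 c)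
  exact RW_one ψ hψ hn k hk hk2 u (h0⁻¹ * l) d1 d2 (fun φ g => conv' _ k1 φ g)

/-- the image of the words contains the special linear group -/
theorem sl_hw (k : ℕ) (hk : n = 2 * k + 1) (hp2 : (2 : ZMod p) ≠ 0) (hpn : n.Coprime p)
    (S : Matrix.SpecialLinearGroup (Fin (k + 2)) (ZMod p)) :
    ∃ u : F2, tm (Module.Basis.ofEquivFun (eqv ψ hψ k hk)) (RW ψ hψ hn u) =
      (S : GL (Fin (k + 2)) (ZMod p)) := by
  have hX : Xv ψ ∈ (RW ψ hψ hn).range := by
    refine ⟨(of 0)⁻¹, ?_⟩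
    rw [map_inv, RW, R1, FreeGroup.lift_apply_of]
    exact inv_inv _
  have hY : Yv ψ hψ hn ∈ (RW ψ hψ hn).range := by
    refine ⟨(of 1)⁻¹, ?_⟩
    rw [map_inv, RW, R1, FreeGroup.lift_apply_of]
    exact inv_inv _
  have D := dat ψ hψ hn hp2 k hk hpn (RW ψ hψ hn).range hX hY
  obtain ⟨g, ⟨u, rfl⟩, hg⟩ := sl_of_full (RW ψ hψ hn).range
    (Module.Basis.ofEquivFun (eqv ψ hψ k hk)) (by omega) (fun v => D.full v) S
  exact ⟨u, hg⟩

end main

end Pool.MP_22db8c_al.HW
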