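import Mathlib

set_option autoImplicit false

/-!
MP_22db8c_al: every finite group embeds in special linear groups over a given prime field.
-/

namespace Pool.MP_22db8c_al.HW

open Matrix Equiv Equiv.Perm

section emb

variable (T : Type) [Group T]

/-- the permutations of twice the group -/
def dbl (m : ℕ) : T →* Perm ((T ⊕ T) ⊕ Fin m) :=
  (sumCongrHom (T ⊕ T) (Fin m)).comp
    (((sumCongrHom T T).comp ((MulAction.toPermHom T T).prod (MulAction.toPermHom T T))).prod 1)

theorem dbl_apply (m : ℕ) (t x : T) : dbl T m t (Sum.inl (Sum.inl x)) =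
    Sum.inl (Sum.inl (t * x)) := rfl

theorem dbl_sign [Fintype T] [DecidableEq T] (m : ℕ) (t : T) : sign (dbl T m t) = 1 := by
  change sign (Equiv.Perm.sumCongr (Equiv.Perm.sumCongr (MulAction.toPerm t : Perm T)
    (MulAction.toPerm t : Perm T)) (1 : Perm (Fin m))) = 1
  rw [sign_sumCongr, sign_sumCongr, Equiv.Perm.sign_one, mul_one]
  exact Int.units_mul_self _

theorem exists_emb [Finite T] (R : Type) [CommRing R] [Nontrivial R] (m : ℕ) (hm : 2 * Nat.card T ≤ m) :
    ∃ j : T →* SpecialLinearGroup (Fin m) R, Function.Injective j := by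
  classical
  have : Fintype T := Fintype.ofFinite T
  have hcard : Fintype.card ((T ⊕ T) ⊕ Fin (m - 2 * Nat.card T)) = m := by
    rw [Fintype.card_sum, Fintype.card_sum, Fintype.card_fin, ← Nat.card_eq_fintype_card]
    omega
  set e := Fintype.equivFinOfCardEq hcard with he
  set σ : T →* Perm (Fin m) := (permCongrHom e).toMonoidHom.comp (dbl T _) with hσ
  have hs : ∀ t, sign (σ t) = 1 := by
    intro t
    change sign (e.permCongr (dbl T _ t)) = 1
    rw [sign_permCongr, dbl_sign]
  have hdet : ∀ t, ((σ t)⁻¹.permMatrix R).det = 1 := by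
    intro t
    rw [det_permutation, Equiv.Perm.sign_inv, hs]
    simp
  refine ⟨{
    toFun := fun t => ⟨(σ t)⁻¹.permMatrix R, hdet t⟩
    map_one' := by
      apply Subtype.ext
      change (σ 1)⁻¹.permMatrix R = 1
      rw [map_one, inv_one, permMatrix_one]
    map_mul' := fun s t => by
      apply Subtype.ext
      change (σ (s * t))⁻¹.permMatrix R = (σ s)⁻¹.permMatrix R * (σ t)⁻¹.permMatrix R
      rw [map_mul, _root_.mul_inv_rev, permMatrix_mul] }, ?_⟩
  rw [injective_iff_map_eq_one]
  intro t ht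
  have h1 : (σ t)⁻¹.permMatrix R = 1 := congrArg Subtype.val ht
  have h2 : ∀ i, (σ t)⁻¹ i = i := by
    intro i
    by_contra h
    have h3 := congrFun (congrFun h1 i) ((σ t)⁻¹ i)
    rw [Matrix.one_apply_ne (Ne.symm h)] at h3
    have h4 : ((σ t)⁻¹.permMatrix R) i ((σ t)⁻¹ i) = 1 := by
      change PEquiv.toMatrix _ _ _ = _
      rw [PEquiv.toMatrix_apply, if_pos]
      rfl
    exact one_ne_zero (h4.symm.trans h3)
  have h3 : (σ t)⁻¹ = 1 := Equiv.ext h2
  have h4 : σ t = 1 := inv_eq_one.1 h3
  have h5 : e.permCongr (dbl T (m - 2 * Nat.card T) t) = 1 := h4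
  have h6 : dbl T (m - 2 * Nat.card T) t (Sum.inl (Sum.inl 1)) = Sum.inl (Sum.inl 1) := by
    have h7 := Equiv.congr_fun h5 (e (Sum.inl (Sum.inl 1)))
    rw [Equiv.permCongr_apply, Equiv.symm_apply_apply] at h7
    exact e.injective h7
  rw [dbl_apply, mul_one] at h6
  exact Sum.inl_injective (Sum.inl_injective h6)

end emb

end Pool.MP_22db8c_al.HW
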