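import Pool.Agent.H.MP_22db8c_al.helper22.Coc

set_option autoImplicit false

/-!
MP_22db8c_al, bounded degree: chief factors of bounded degree and chief factors on which the group
acts with an exponent not divisible by `N`.
-/

namespace Pool.MP_22db8c_al.BD

open FreeGroup (of)

/-- some primitive element of the free group acts on `C / A` with an order not divisible by `N` -/
def PrimND (N : ℕ) (A C : Subgroup (FreeGroup (Fin 2))) : Prop :=
  ∃ (f : MulAut (FreeGroup (Fin 2))) (e : ℕ), (f com = com ∨ f com = com⁻¹) ∧ ¬ N ∣ e ∧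
    ∀ c ∈ C, (f (of 0)) ^ e * c * ((f (of 0)) ^ e)⁻¹ * c⁻¹ ∈ A

section dat

variable {F : Type} [Group F]

theorem IsDat.finite {A C : Subgroup F} {V : Type} [AddCommGroup V] {ρ : F →* AddMonoid.End V}
    {h : C →* Multiplicative V} (hd : IsDat A C ρ h) (hA : A.FiniteIndex) : Finite V := by
  choose s hs using hd.surj
  have hf : Finite (F ⧸ A) := Subgroup.finite_quotient_of_finiteIndex
  apply Finite.of_injective (fun v : V => ((s (Multiplicative.ofAdd v) : F) : F ⧸ A))
  intro v w hvw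
  have h1 : ((s (Multiplicative.ofAdd v) : F))⁻¹ * (s (Multiplicative.ofAdd w) : F) ∈ A :=
    QuotientGroup.eq.1 hvw
  have h2 := (hd.ker ((s (Multiplicative.ofAdd v))⁻¹ * s (Multiplicative.ofAdd w))).2 h1
  rw [map_mul, map_inv, hs, hs, inv_mul_eq_one] at h2
  exact Multiplicative.ofAdd.injective h2

theorem ex_dat (A C : Subgroup F) (hA : A.Normal) (hC : C.Normal)
    (hab : ∀ x ∈ C, ∀ y ∈ C, x * y * x⁻¹ * y⁻¹ ∈ A) :
    ∃ (V : Type) (_ : AddCommGroup V) (ρ : F →* AddMonoid.End V) (h : C →* Multiplicative V),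
      IsDat A C ρ h := by
  have hn : (A.subgroupOf C).Normal := inferInstance
  let Q : Type := C ⧸ A.subgroupOf C
  let _ : CommGroup Q :=
    { (inferInstance : Group Q) with
      mul_comm := by
        intro a b
        induction a using QuotientGroup.induction_on with
        | H x =>
          induction b using QuotientGroup.induction_on with
          | H y =>
            have h1 : x⁻¹ * y⁻¹ * x * y ∈ A.subgroupOf C := by
              have := hab _ (C.inv_mem x.2) _ (C.inv_mem y.2)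
              rw [inv_inv, inv_inv] at this
              exact this
            have h2 : ((x * y : C) : C ⧸ A.subgroupOf C) = ((y * x : C) : C ⧸ A.subgroupOf C) := by
              rw [QuotientGroup.eq]
              have h3 := hab _ (C.inv_mem y.2) _ (C.inv_mem x.2)
              rw [inv_inv, inv_inv] at h3
              change ((x * y)⁻¹ * (y * x) : C).1 ∈ A
              have h4 : ((x * y)⁻¹ * (y * x) : C).1 = (y : F)⁻¹ * (x : F)⁻¹ * y * x := by
                push_cast
                group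
              rw [h4]
              exact h3
            exact h2 }
  let cw : F → (Q →* Q) := fun w =>
    QuotientGroup.map (A.subgroupOf C) (A.subgroupOf C)
      (MulAut.conjNormal w : MulAut C).toMonoidHom (by
        intro c hc
        change (MulAut.conjNormal w c : C).1 ∈ A
        rw [MulAut.conjNormal_apply]
        exact hA.conj_mem _ hc w)
  have hcw : ∀ w (c : C), cw w (c : C ⧸ A.subgroupOf C) =
      ((MulAut.conjNormal w c : C) : C ⧸ A.subgroupOf C) := fun w c => rfl
  let ρ : F →* AddMonoid.End (Additive Q) :=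
    { toFun := fun w => MonoidHom.toAdditive (cw w)
      map_one' := by
        ext v
        induction v using Additive.rec with
        | ofMul v =>
        induction v using QuotientGroup.induction_on with
        | H c =>
          change Additive.ofMul (cw 1 (c : C ⧸ A.subgroupOf C)) = Additive.ofMul _
          rw [hcw, map_one]
          rfl
      map_mul' := by
        intro x y
        ext v
        induction v using Additive.rec with
        | ofMul v =>
        induction v using QuotientGroup.induction_on with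
        | H c =>
          change Additive.ofMul (cw (x * y) (c : C ⧸ A.subgroupOf C)) =
            Additive.ofMul (cw x (cw y (c : C ⧸ A.subgroupOf C)))
          rw [hcw, hcw, hcw, map_mul]
          rfl }
  let h : C →* Multiplicative (Additive Q) :=
    { toFun := fun c => Multiplicative.ofAdd (Additive.ofMul (c : C ⧸ A.subgroupOf C))
      map_one' := rfl
      map_mul' := fun _ _ => rfl }
  refine ⟨Additive Q, inferInstance, ρ, h, ?_, ?_, ?_⟩
  · intro v
    obtain ⟨c, hc⟩ := QuotientGroup.mk'_surjective (A.subgroupOf C)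
      (Additive.toMul (Multiplicative.toAdd v))
    exact ⟨c, congrArg (fun x => Multiplicative.ofAdd (Additive.ofMul x)) hc⟩
  · intro c
    have h1 : h c = 1 ↔ ((c : C) : C ⧸ A.subgroupOf C) = 1 := Iff.rfl
    rw [h1, QuotientGroup.eq_one_iff]
    exact Iff.rfl
  · intro w c c' hcc
    have h1 : c' = MulAut.conjNormal w c := by
      apply Subtype.ext
      rw [MulAut.conjNormal_apply, hcc]
    rw [h1]
    rfl

theorem IsDat.prime {A C : Subgroup F} (hch : IsChief A C) (hA : A.FiniteIndex) {V : Type}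
    [AddCommGroup V] {ρ : F →* AddMonoid.End V} {h : C →* Multiplicative V}
    (hd : IsDat A C ρ h) : ∃ q : ℕ, q.Prime ∧ ∀ v : V, q • v = 0 := by
  have hV := hd.finite hA
  obtain ⟨hAn, hCn, hlt, hmax⟩ := hch
  obtain ⟨c₀, hc₀, hc₀A⟩ := SetLike.exists_of_lt hlt
  have hv₀ : Multiplicative.toAdd (h ⟨c₀, hc₀⟩) ≠ 0 := by
    intro h1
    have h2 : h ⟨c₀, hc₀⟩ = 1 := h1
    exact hc₀A ((hd.ker _).1 h2)
  have hnt : Nontrivial V := ⟨_, _, hv₀⟩
  have hcard : Nat.card V ≠ 1 := Finite.one_lt_card.ne'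
  let q := (Nat.card V).minFac
  have hq : q.Prime := Nat.minFac_prime hcard
  have hqf : Fact q.Prime := ⟨hq⟩
  obtain ⟨v₁, hv₁⟩ := exists_prime_addOrderOf_dvd_card' q (Nat.minFac_dvd _)
  let M : Subgroup F :=
    { carrier := {x | ∃ hx : x ∈ C, q • Multiplicative.toAdd (h ⟨x, hx⟩) = 0}
      one_mem' := by
        refine ⟨C.one_mem, ?_⟩
        have : h ⟨1, C.one_mem⟩ = 1 := map_one h
        rw [this, toAdd_one, smul_zero]
      mul_mem' := by
        rintro x y ⟨hx, hx2⟩ ⟨hy, hy2⟩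
        refine ⟨C.mul_mem hx hy, ?_⟩
        have : h ⟨x * y, C.mul_mem hx hy⟩ = h ⟨x, hx⟩ * h ⟨y, hy⟩ := map_mul h ⟨x, hx⟩ ⟨y, hy⟩
        rw [this, toAdd_mul, smul_add, hx2, hy2, add_zero]
      inv_mem' := by
        rintro x ⟨hx, hx2⟩
        refine ⟨C.inv_mem hx, ?_⟩
        have : h ⟨x⁻¹, C.inv_mem hx⟩ = (h ⟨x, hx⟩)⁻¹ := map_inv h ⟨x, hx⟩
        rw [this, toAdd_inv, smul_neg, hx2, neg_zero] }
  have hMn : M.Normal := by
    constructor
    rintro x ⟨hx, hx2⟩ g
    refine ⟨hCn.conj_mem _ hx g, ?_⟩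
    rw [hd.equiv g ⟨x, hx⟩ ⟨g * x * g⁻¹, hCn.conj_mem _ hx g⟩ rfl, ← map_nsmul, hx2, map_zero]
  have hAM : A ≤ M := by
    intro x hx
    refine ⟨hlt.le hx, ?_⟩
    rw [(hd.ker ⟨x, hlt.le hx⟩).2 hx, toAdd_one, smul_zero]
  have hMC : M ≤ C := fun x hx => hx.1
  have hMC2 : M = C := by
    rcases hmax M hMn hAM hMC with h1 | h1
    · exfalso
      obtain ⟨c, hc⟩ := hd.surj (Multiplicative.ofAdd v₁)
      have h2 : (c : F) ∈ M := by
        refine ⟨c.2, ?_⟩
        change q • Multiplicative.toAdd (h c) = 0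
        rw [hc, ← hv₁]
        exact addOrderOf_nsmul_eq_zero v₁
      rw [h1] at h2
      have h3 := (hd.ker c).2 h2
      rw [hc] at h3
      have h4 : v₁ = 0 := h3
      rw [h4, addOrderOf_zero] at hv₁
      exact hq.one_lt.ne hv₁
    · exact h1
  refine ⟨q, hq, fun v => ?_⟩
  obtain ⟨c, hc⟩ := hd.surj (Multiplicative.ofAdd v)
  have h2 : (c : F) ∈ M := by rw [hMC2]; exact c.2
  obtain ⟨h3, h4⟩ := h2
  change q • Multiplicative.toAdd (h c) = 0 at h4
  rw [hc] at h4
  exact h4

end dat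

section kills

variable {B G : Type} [Group B] [Group G] (α : B →* MulAut (FreeGroup (Fin 2)))

theorem kill_exp (φ : B →* G) [IsSimpleGroup G] (hna : ∃ a b : G, a * b ≠ b * a) (N : ℕ)
    (f : MulAut (FreeGroup (Fin 2))) (t : B)
    (ht0 : ∀ n : ℕ, α (t ^ n) (f (of 0)) = f (of 0))
    (ht1 : ∀ n : ℕ, α (t ^ n) (f (of 1)) = f (of 1) * (f (of 0)) ^ (2 * n))
    (hφt : ∀ n : ℕ, φ t ^ n = 1 → N * N ∣ n)
    (A C : Subgroup (FreeGroup (Fin 2))) (hA : A.FiniteIndex) (hch : IsChief A C)
    (hab : ∀ x ∈ C, ∀ y ∈ C, x * y * x⁻¹ * y⁻¹ ∈ A) (e : ℕ) (hNe : ¬ N ∣ e)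
    (he : ∀ c ∈ C, (f (of 0)) ^ e * c * ((f (of 0)) ^ e)⁻¹ * c⁻¹ ∈ A) :
    Kill α φ A C := by
  obtain ⟨V, _, ρ, h, hd⟩ := ex_dat A C hch.1 hch.2.1 hab
  refine ⟨V, inferInstance, ρ, h, hd, ?_⟩
  intro hi hS hkill
  obtain ⟨q, hq, hqV⟩ := hd.prime hch hA
  have htriv : ρ ((f (of 0)) ^ e) = 1 := by
    ext v
    obtain ⟨c, hc⟩ := hd.surj (Multiplicative.ofAdd v)
    have hCn := hch.2.1
    have h1 := hd.equiv ((f (of 0)) ^ e) c
      ⟨(f (of 0)) ^ e * c * ((f (of 0)) ^ e)⁻¹, hCn.conj_mem _ c.2 _⟩ rfl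
    have h2 := (hd.ker (⟨(f (of 0)) ^ e * c * ((f (of 0)) ^ e)⁻¹, hCn.conj_mem _ c.2 _⟩ * c⁻¹)).2
      (he c c.2)
    rw [map_mul, map_inv, mul_inv_eq_one, hc] at h2
    rw [h2, hc] at h1
    exact h1.symm
  let u := t ^ (e * q)
  have hu : u = t ^ (e * q) := rfl
  have h3 : (f (of 0)) ^ (2 * (e * q)) = (((f (of 0)) ^ e) ^ 2) ^ q := by
    rw [← pow_mul, ← pow_mul]
    congr 1
    ring
  have h4 : ρ (((f (of 0)) ^ e) ^ 2) = 1 := by
    rw [map_pow, htriv, one_pow]
  -- `u` acts trivially on the derivations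
  have hρu : ∀ w, ρ (α u w) = ρ w := by
    intro w
    have h1 : (ρ.comp (α u : FreeGroup (Fin 2) →* FreeGroup (Fin 2))).comp
        (f : FreeGroup (Fin 2) →* FreeGroup (Fin 2)) =
        ρ.comp (f : FreeGroup (Fin 2) →* FreeGroup (Fin 2)) := by
      apply FreeGroup.ext_hom
      intro i
      fin_cases i
      · change ρ (α u (f (of 0))) = ρ (f (of 0))
        rw [hu, ht0]
      · change ρ (α u (f (of 1))) = ρ (f (of 1))
        rw [hu, ht1, map_mul, h3, map_pow, h4, one_pow, mul_one]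
    obtain ⟨w, rfl⟩ := f.surjective w
    exact DFunLike.congr_fun h1 w
  have hzu : ∀ z : FreeGroup (Fin 2) → V, IsCoc ρ z → ∀ w, z (α u w) = z w := by
    intro z hz
    refine coc_ext' f (coc_comp α ρ hρu hz) hz ?_ ?_
    · rw [hu, ht0]
    · rw [hu, ht1, h3, hz, coc_pow hz _ h4, hqV, map_zero, add_zero]
  have hcomm : ∀ s ∈ St α C hi, φ u * φ s = φ s * φ u := by
    intro s hs
    have h1 : u * s * u⁻¹ * s⁻¹ ∈ LL α ρ (St α C hi) := by
      refine ⟨Subgroup.mul_mem _ (St_normal α C hi u s hs) (Subgroup.inv_mem _ hs), ?_⟩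
      intro z hz w
      have hzs := coc_comp α ρ (hd.stab α hi s hs) hz
      rw [act_mul, act_mul, act_mul, hzu z hz]
      have h2 := hzu _ hzs (α u⁻¹ (α s⁻¹ w))
      change z (α s (α u (α u⁻¹ (α s⁻¹ w)))) = z (α s (α u⁻¹ (α s⁻¹ w))) at h2
      rw [← h2, act_inv, act_inv]
    have h2 := hkill _ h1
    rw [map_mul, map_mul, map_mul, map_inv, map_inv, mul_inv_eq_one, mul_inv_eq_iff_eq_mul] at h2
    exact h2
  have hcen : φ u ∈ Subgroup.center G := by
    rw [Subgroup.mem_center_iff]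
    intro g
    obtain ⟨s, hs, rfl⟩ := ex_of_top hS g
    exact (hcomm s hs).symm
  have hbot : Subgroup.center G = ⊥ := by
    rcases (inferInstance : (Subgroup.center G).Normal).eq_bot_or_eq_top with h1 | h1
    · exact h1
    · exfalso
      obtain ⟨a, b, hab⟩ := hna
      have h2 : b ∈ Subgroup.center G := by rw [h1]; trivial
      rw [Subgroup.mem_center_iff] at h2
      exact hab (h2 a)
  rw [hbot, Subgroup.mem_bot, hu, map_pow] at hcen
  have h1 := hφt _ hcen
  apply hNe
  -- `N * N ∣ e * q` with `q` prime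
  by_cases hqN : q ∣ N
  · obtain ⟨M, rfl⟩ := hqN
    obtain ⟨c, hc⟩ := h1
    have h2 : e = q * M * (M * c) := by
      have h3 : q * e = q * (q * M * (M * c)) := by
        rw [mul_comm q e, hc]
        ring
      exact Nat.eq_of_mul_eq_mul_left hq.pos h3
    exact ⟨M * c, h2⟩
  · have h2 : Nat.Coprime N q := (Nat.coprime_comm.1 ((Nat.Prime.coprime_iff_not_dvd hq).2 hqN))
    exact Nat.Coprime.dvd_of_dvd_mul_right h2 ((Nat.dvd_mul_left N N).trans h1)

end kills

end Pool.MP_22db8c_al.BD
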