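import Mathlib

set_option autoImplicit false

/-!
MP_22db8c_al, bounded degree: the layering step.  A group `B` acts on a group `F`; a homomorphism
`φ` from `B` onto a nonabelian simple group is restricted to the subgroups acting trivially modulo
normal subgroups of `F`.
-/

namespace Pool.MP_22db8c_al.BD

section gp

variable {B G : Type*} [Group B] [Group G]

/-- `X` is normalised by `S` -/
def NormBy (S X : Subgroup B) : Prop := ∀ s ∈ S, ∀ x ∈ X, s * x * s⁻¹ ∈ X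

theorem dich [IsSimpleGroup G] (φ : B →* G) (S X : Subgroup B) (hS : S.map φ = ⊤)
    (hX : NormBy S X) : (∀ x ∈ X, φ x = 1) ∨ X.map φ = ⊤ := by
  have hn : (X.map φ).Normal := by
    constructor
    rintro _ ⟨x, hx, rfl⟩ g
    have hg : g ∈ S.map φ := by rw [hS]; trivial
    obtain ⟨s, hs, rfl⟩ := hg
    exact ⟨s * x * s⁻¹, hX s hs x hx, by simp⟩
  rcases hn.eq_bot_or_eq_top with h | h
  · left
    intro x hx
    have : φ x ∈ X.map φ := ⟨x, hx, rfl⟩
    rw [h] at this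
    exact Subgroup.mem_bot.1 this
  · right; exact h

theorem ex_of_top {φ : B →* G} {X : Subgroup B} (h : X.map φ = ⊤) (g : G) : ∃ x ∈ X, φ x = g := by
  have : g ∈ X.map φ := by rw [h]; trivial
  exact this

theorem abel_kill [IsSimpleGroup G] (hna : ∃ a b : G, a * b ≠ b * a) (φ : B →* G)
    (S X : Subgroup B) (hS : S.map φ = ⊤) (hX : NormBy S X)
    (hc : ∀ x ∈ X, ∀ y ∈ X, φ x * φ y = φ y * φ x) : ∀ x ∈ X, φ x = 1 := by
  rcases dich φ S X hS hX with h | h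
  · exact h
  · exfalso
    obtain ⟨a, b, hab⟩ := hna
    obtain ⟨x, hx, rfl⟩ := ex_of_top h a
    obtain ⟨y, hy, rfl⟩ := ex_of_top h b
    exact hab (hc x hx y hy)

theorem inf_top [IsSimpleGroup G] (hna : ∃ a b : G, a * b ≠ b * a) (φ : B →* G)
    (S X Y : Subgroup B) (hS : S.map φ = ⊤) (hX : NormBy S X) (hY : NormBy S Y)
    (hXS : X ≤ S) (hYS : Y ≤ S) (hXt : X.map φ = ⊤) (hYt : Y.map φ = ⊤) :
    (X ⊓ Y).map φ = ⊤ := by
  have hn : NormBy S (X ⊓ Y) := fun s hs x hx => ⟨hX s hs x hx.1, hY s hs x hx.2⟩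
  rcases dich φ S (X ⊓ Y) hS hn with h | h
  · exfalso
    obtain ⟨a, b, hab⟩ := hna
    obtain ⟨x, hx, rfl⟩ := ex_of_top hXt a
    obtain ⟨y, hy, rfl⟩ := ex_of_top hYt b
    apply hab
    have h1 : x * y * x⁻¹ * y⁻¹ ∈ X ⊓ Y := by
      refine ⟨?_, ?_⟩
      · have := X.mul_mem hx (hX y (hYS hy) _ (X.inv_mem hx))
        simpa [mul_assoc] using this
      · exact Y.mul_mem (hY x (hXS hx) _ hy) (Y.inv_mem hy)
    have h2 := h _ h1
    rw [map_mul, map_mul, map_mul, map_inv, map_inv, mul_inv_eq_one, mul_inv_eq_iff_eq_mul] at h2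
    exact h2
  · exact h

theorem fin_top [IsSimpleGroup G] (hna : ∃ a b : G, a * b ≠ b * a) (φ : B →* G)
    (S : Subgroup B) (hS : S.map φ = ⊤) {ι : Type*} (s : Finset ι) (X : ι → Subgroup B)
    (hX : ∀ i, NormBy S (X i)) (hXS : ∀ i, X i ≤ S) (hXt : ∀ i, (X i).map φ = ⊤) :
    ∃ Y : Subgroup B, Y ≤ S ∧ NormBy S Y ∧ Y.map φ = ⊤ ∧ (∀ i ∈ s, Y ≤ X i) ∧
      ∀ u ∈ S, (∀ i ∈ s, u ∈ X i) → u ∈ Y := by
  classical
  induction s using Finset.induction_on with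
  | empty =>
    refine ⟨S, le_rfl, fun s hs x hx => S.mul_mem (S.mul_mem hs hx) (S.inv_mem hs), hS, ?_,
      fun u hu _ => hu⟩
    intro i hi
    simp at hi
  | insert i s hi ih =>
    obtain ⟨Y, h1, h2, h3, h4, h5⟩ := ih
    refine ⟨X i ⊓ Y, inf_le_right.trans h1, fun s hs x hx => ⟨hX i s hs x hx.1, h2 s hs x hx.2⟩,
      inf_top hna φ S (X i) Y hS (hX i) h2 (hXS i) h1 (hXt i) h3, ?_, ?_⟩
    · intro j hj
      rcases Finset.mem_insert.1 hj with rfl | hj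
      · exact inf_le_left
      · exact inf_le_right.trans (h4 j hj)
    · intro u hu hu2
      exact ⟨hu2 i (Finset.mem_insert_self _ _), h5 u hu fun j hj =>
        hu2 j (Finset.mem_insert_of_mem hj)⟩

end gp

section lay

variable {B F G : Type*} [Group B] [Group F] [Group G] (α : B →* MulAut F)

/-- invariant subgroups -/
def Inv (K : Subgroup F) : Prop := ∀ u : B, ∀ x ∈ K, α u x ∈ K

theorem ami (u : B) (w : F) : α u w⁻¹ = (α u w)⁻¹ := MulEquiv.map_inv (α u) w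

theorem amm (u : B) (w w' : F) : α u (w * w') = α u w * α u w' := MulEquiv.map_mul (α u) w w'

theorem act_inv (u : B) (w : F) : α u (α u⁻¹ w) = w := by
  rw [← MulAut.mul_apply, ← map_mul, mul_inv_cancel, map_one, MulAut.one_apply]

theorem act_inv' (u : B) (w : F) : α u⁻¹ (α u w) = w := by
  rw [← MulAut.mul_apply, ← map_mul, inv_mul_cancel, map_one, MulAut.one_apply]

theorem act_mul (u v : B) (w : F) : α (u * v) w = α u (α v w) := by
  rw [map_mul, MulAut.mul_apply]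

/-- the elements acting trivially modulo `K` -/
def St (K : Subgroup F) (hK : Inv α K) : Subgroup B where
  carrier := {u | ∀ w : F, α u w * w⁻¹ ∈ K}
  one_mem' := by intro w; simp
  mul_mem' := by
    intro u v hu hv w
    have h1 := K.mul_mem (hK u _ (hv w)) (hu w)
    have h2 : α u (α v w * w⁻¹) * (α u w * w⁻¹) = α (u * v) w * w⁻¹ := by
      rw [act_mul, amm, ami]
      group
    rw [h2] at h1
    exact h1
  inv_mem' := by
    intro u hu w
    have h1 := hK u⁻¹ _ (K.inv_mem (hu w))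
    have h2 : α u⁻¹ (α u w * w⁻¹)⁻¹ = α u⁻¹ w * w⁻¹ := by
      rw [ami, amm, ami, act_inv']
      group
    rw [h2] at h1
    exact h1

theorem mem_St {K : Subgroup F} {hK : Inv α K} {u : B} :
    u ∈ St α K hK ↔ ∀ w : F, α u w * w⁻¹ ∈ K := Iff.rfl

theorem St_normal (K : Subgroup F) (hK : Inv α K) : ∀ g : B, ∀ u ∈ St α K hK,
    g * u * g⁻¹ ∈ St α K hK := by
  intro g u hu w
  have h1 := hK g _ (hu (α g⁻¹ w))
  rw [amm, ami, act_inv] at h1
  rw [act_mul, act_mul]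
  exact h1

variable {V : Type*} [AddCommGroup V] (ρ : F →* AddMonoid.End V)

/-- derivations -/
def IsCoc (z : F → V) : Prop := ∀ w w' : F, z (w * w') = z w + ρ w (z w')

/-- the elements of `S` acting trivially on the derivations -/
def LL (S : Subgroup B) : Subgroup B where
  carrier := {u | u ∈ S ∧ ∀ z : F → V, IsCoc ρ z → ∀ w, z (α u w) = z w}
  one_mem' := ⟨S.one_mem, fun z _ w => by simp⟩
  mul_mem' := by
    rintro u v ⟨hu, hu2⟩ ⟨hv, hv2⟩
    refine ⟨S.mul_mem hu hv, fun z hz w => ?_⟩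
    rw [act_mul, hu2 z hz, hv2 z hz]
  inv_mem' := by
    rintro u ⟨hu, hu2⟩
    refine ⟨S.inv_mem hu, fun z hz w => ?_⟩
    rw [← hu2 z hz, act_inv]

theorem coc_comp {s : B} (hs : ∀ w, ρ (α s w) = ρ w) {z : F → V} (hz : IsCoc ρ z) :
    IsCoc ρ fun w => z (α s w) := by
  intro w w'
  change z (α s (w * w')) = z (α s w) + ρ w (z (α s w'))
  rw [amm, hz, hs]

theorem LL_norm (S : Subgroup B) (hS : ∀ s ∈ S, ∀ w, ρ (α s w) = ρ w) :
    NormBy S (LL α ρ S) := by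
  rintro s hs u ⟨hu, hu2⟩
  refine ⟨S.mul_mem (S.mul_mem hs hu) (S.inv_mem hs), fun z hz w => ?_⟩
  rw [act_mul, act_mul, hu2 _ (coc_comp α ρ (hS s hs) hz), act_inv]

/-- a presentation of the factor `C / A` as a module -/
structure IsDat (A C : Subgroup F) (ρ : F →* AddMonoid.End V) (h : C →* Multiplicative V) :
    Prop where
  surj : Function.Surjective h
  ker : ∀ c, h c = 1 ↔ (c : F) ∈ A
  equiv : ∀ (w : F) (c c' : C), (c' : F) = w * c * w⁻¹ →
    Multiplicative.toAdd (h c') = ρ w (Multiplicative.toAdd (h c))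

theorem IsDat.triv {A C : Subgroup F} {ρ : F →* AddMonoid.End V} {h : C →* Multiplicative V}
    (hd : IsDat A C ρ h) (c : F) (hc : c ∈ C)
    : ρ c = 1 := by
  ext v
  obtain ⟨d, hd1⟩ := hd.surj (Multiplicative.ofAdd v)
  have h1 : Multiplicative.toAdd (h d) = v := by rw [hd1]; rfl
  have h2 := hd.equiv c d (⟨c, hc⟩ * d * ⟨c, hc⟩⁻¹) rfl
  have h3 : h (⟨c, hc⟩ * d * ⟨c, hc⟩⁻¹) = h d := by
    rw [MonoidHom.map_mul, MonoidHom.map_mul, MonoidHom.map_inv, mul_comm (h ⟨c, hc⟩), mul_assoc,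
      mul_inv_cancel, mul_one]
  rw [h3, h1] at h2
  exact h2.symm

theorem IsDat.stab {A C : Subgroup F} {ρ : F →* AddMonoid.End V} {h : C →* Multiplicative V}
    (hd : IsDat A C ρ h) (hC : Inv α C) (s : B) (hs : s ∈ St α C hC) (w : F) :
    ρ (α s w) = ρ w := by
  have h1 : α s w = (α s w * w⁻¹) * w := by group
  rw [h1, map_mul, hd.triv _ (hs w), one_mul]

/-- the layering step -/
theorem layer [IsSimpleGroup G] (hna : ∃ a b : G, a * b ≠ b * a) (φ : B →* G)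
    (K K₁ : Subgroup F) (hK₁n : K₁.Normal) (hi : Inv α K) (hi₁ : Inv α K₁)
    (hab : ∀ x ∈ K₁, ∀ y ∈ K₁, x * y * x⁻¹ * y⁻¹ ∈ K)
    (hS : (St α K₁ hi₁).map φ = ⊤) {ι : Type*} [Finite ι] (A : ι → Subgroup F)
    (hA : ∀ x ∈ K₁, (∀ i, x ∈ A i) → x ∈ K)
    (V : ι → Type*) [∀ i, AddCommGroup (V i)] (ρ : ∀ i, F →* AddMonoid.End (V i))
    (h : ∀ i, K₁ →* Multiplicative (V i)) (hd : ∀ i, IsDat (A i) K₁ (ρ i) (h i))
    (hkill : ∀ i, ¬ ∀ u ∈ LL α (ρ i) (St α K₁ hi₁), φ u = 1) : (St α K hi).map φ = ⊤ := by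
  rcases dich φ (St α K₁ hi₁) (St α K hi) hS (fun s _ x hx => St_normal α K hi s x hx) with hk | hk
  swap
  · exact hk
  exfalso
  -- the subgroup acting trivially on `K₁ / K`
  let L' : Subgroup B :=
    { carrier := {u | u ∈ St α K₁ hi₁ ∧ ∀ c ∈ K₁, α u c * c⁻¹ ∈ K}
      one_mem' := ⟨Subgroup.one_mem _, fun c _ => by simp⟩
      mul_mem' := by
        rintro u v ⟨hu, hu2⟩ ⟨hv, hv2⟩
        refine ⟨Subgroup.mul_mem _ hu hv, fun c hc => ?_⟩
        have h1 := K.mul_mem (hi u _ (hv2 c hc)) (hu2 c hc)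
        have h2 : α u (α v c * c⁻¹) * (α u c * c⁻¹) = α (u * v) c * c⁻¹ := by
          rw [act_mul, amm, ami]
          group
        rw [h2] at h1
        exact h1
      inv_mem' := by
        rintro u ⟨hu, hu2⟩
        refine ⟨Subgroup.inv_mem _ hu, fun c hc => ?_⟩
        have h1 := hi u⁻¹ _ (K.inv_mem (hu2 c hc))
        have h2 : α u⁻¹ (α u c * c⁻¹)⁻¹ = α u⁻¹ c * c⁻¹ := by
          rw [ami, amm, ami, act_inv']
          group
        rw [h2] at h1
        exact h1 }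
  have hL'n : NormBy (St α K₁ hi₁) L' := by
    rintro s hs u ⟨hu, hu2⟩
    refine ⟨Subgroup.mul_mem _ (Subgroup.mul_mem _ hs hu) (Subgroup.inv_mem _ hs), fun c hc => ?_⟩
    have h1 := hi s _ (hu2 (α s⁻¹ c) (hi₁ _ _ hc))
    rw [amm, ami, act_inv] at h1
    rw [act_mul, act_mul]
    exact h1
  have hL'1 : ∀ x ∈ L', φ x = 1 := by
    refine abel_kill hna φ (St α K₁ hi₁) L' hS hL'n ?_
    rintro u ⟨hu, hu2⟩ v ⟨hv, hv2⟩
    have key : u * v * (v * u)⁻¹ ∈ St α K hi := by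
      intro w'
      obtain ⟨w, rfl⟩ : ∃ w, α (v * u) w = w' := ⟨α (v * u)⁻¹ w', act_inv α _ _⟩
      rw [act_mul, act_inv']
      have e1 : ∀ (u v : B) (_ : ∀ c ∈ K₁, α u c * c⁻¹ ∈ K) (_ : v ∈ St α K₁ hi₁),
          ∃ k ∈ K, α (u * v) w = k * ((α v w * w⁻¹) * (α u w * w⁻¹)) * w := by
        intro u v hu2 hv
        refine ⟨_, hu2 _ (hv w), ?_⟩
        rw [act_mul, amm, ami]
        group
      obtain ⟨k₁, hk₁, e2⟩ := e1 u v hu2 hv
      obtain ⟨k₂, hk₂, e3⟩ := e1 v u hv2 hu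
      rw [e2, e3]
      have e4 := K.mul_mem (K.mul_mem hk₁ (hab _ (hv w) _ (hu w))) (K.inv_mem hk₂)
      have e5 : k₁ * ((α v w * w⁻¹) * (α u w * w⁻¹)) * w *
          (k₂ * ((α u w * w⁻¹) * (α v w * w⁻¹)) * w)⁻¹ =
          k₁ * (α v w * w⁻¹ * (α u w * w⁻¹) * (α v w * w⁻¹)⁻¹ * (α u w * w⁻¹)⁻¹) * k₂⁻¹ := by
        group
      rw [e5]
      exact e4
    have h1 := hk _ key
    rw [map_mul, map_inv, mul_inv_eq_one, map_mul, map_mul] at h1
    exact h1
  -- the elements acting trivially on all derivations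
  have hLn : ∀ i, NormBy (St α K₁ hi₁) (LL α (ρ i) (St α K₁ hi₁)) := fun i =>
    LL_norm α (ρ i) _ fun s hs w => (hd i).stab α hi₁ s hs w
  have hLt : ∀ i, (LL α (ρ i) (St α K₁ hi₁)).map φ = ⊤ := by
    intro i
    rcases dich φ _ _ hS (hLn i) with h1 | h1
    · exact absurd h1 (hkill i)
    · exact h1
  have := Fintype.ofFinite ι
  obtain ⟨Y, hY1, hY2, hY3, hY4, -⟩ := fin_top hna φ (St α K₁ hi₁) hS Finset.univ
    (fun i => LL α (ρ i) (St α K₁ hi₁)) hLn (fun i u hu => hu.1) hLt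
  have hY5 : ∀ x ∈ Y, φ x = 1 := by
    refine abel_kill hna φ (St α K₁ hi₁) Y hS hY2 ?_
    intro u hu v hv
    have key : u * v * (v * u)⁻¹ ∈ L' := by
      refine ⟨Subgroup.mul_mem _ (Subgroup.mul_mem _ (hY1 hu) (hY1 hv))
        (Subgroup.inv_mem _ (Subgroup.mul_mem _ (hY1 hv) (hY1 hu))), ?_⟩
      intro c' hc'
      obtain ⟨c, hc, rfl⟩ : ∃ c, c ∈ K₁ ∧ α (v * u) c = c' :=
        ⟨α (v * u)⁻¹ c', hi₁ _ _ hc', act_inv α _ _⟩
      rw [act_mul, act_inv']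
      have hm : α (u * v) c * (α (v * u) c)⁻¹ ∈ K₁ :=
        K₁.mul_mem (hi₁ _ _ hc) (K₁.inv_mem hc')
      refine hA _ hm fun i => ?_
      have e1 : ∀ (u v : B) (_ : u ∈ Y) (_ : v ∈ Y),
          h i ⟨α (u * v) c, hi₁ _ _ hc⟩ * h i ⟨c, hc⟩ =
            h i ⟨α v c, hi₁ _ _ hc⟩ * h i ⟨α u c, hi₁ _ _ hc⟩ := by
        intro u v hu hv
        have hu1 := hY1 hu
        have hz : IsCoc (ρ i) fun w => Multiplicative.toAdd (h i ⟨α u w * w⁻¹, hu1 w⟩) := by
          intro w w'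
          have e2 := (hd i).equiv w ⟨α u w' * w'⁻¹, hu1 w'⟩
            ⟨w * (α u w' * w'⁻¹) * w⁻¹, hK₁n.conj_mem _ (hu1 w') w⟩ rfl
          change Multiplicative.toAdd (h i ⟨α u (w * w') * (w * w')⁻¹, hu1 (w * w')⟩) =
            Multiplicative.toAdd (h i ⟨α u w * w⁻¹, hu1 w⟩) +
            ρ i w (Multiplicative.toAdd (h i ⟨α u w' * w'⁻¹, hu1 w'⟩))
          rw [← e2, ← toAdd_mul, ← map_mul]
          congr 2
          apply Subtype.ext
          change α u (w * w') * (w * w')⁻¹ = (α u w * w⁻¹) * (w * (α u w' * w'⁻¹) * w⁻¹)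
          rw [amm]
          group
        have e3 := (hY4 i (Finset.mem_univ i) hv).2 _ hz c
        have e4 : h i ⟨α u (α v c) * (α v c)⁻¹, hu1 _⟩ = h i ⟨α u c * c⁻¹, hu1 c⟩ :=
          Multiplicative.toAdd.injective e3
        have e5 : (⟨α (u * v) c, hi₁ _ _ hc⟩ : K₁) =
            ⟨α u (α v c) * (α v c)⁻¹, hu1 _⟩ * ⟨α v c, hi₁ _ _ hc⟩ := by
          apply Subtype.ext
          change α (u * v) c = α u (α v c) * (α v c)⁻¹ * α v c
          rw [act_mul]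
          group
        have e6 : (⟨α u c, hi₁ _ _ hc⟩ : K₁) = ⟨α u c * c⁻¹, hu1 c⟩ * ⟨c, hc⟩ := by
          apply Subtype.ext
          change α u c = α u c * c⁻¹ * c
          group
        rw [e5, e6, map_mul, map_mul, e4, mul_comm (h i ⟨α v c, _⟩), mul_assoc, mul_assoc,
          mul_comm (h i ⟨α v c, _⟩)]
      have e7 := e1 u v hu hv
      have e8 := e1 v u hv hu
      rw [mul_comm (h i ⟨α u c, _⟩), ← e7] at e8
      have e9 := mul_right_cancel e8
      have e10 := ((hd i).ker (⟨α (u * v) c, hi₁ _ _ hc⟩ * (⟨α (v * u) c, hi₁ _ _ hc⟩)⁻¹)).1 (by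
        rw [map_mul, map_inv, e9, mul_inv_cancel])
      exact e10
    have h1 := hL'1 _ key
    rw [map_mul, map_inv, mul_inv_eq_one, map_mul, map_mul] at h1
    exact h1
  obtain ⟨a, b, hab⟩ := hna
  obtain ⟨x, hx, rfl⟩ := ex_of_top hY3 a
  rw [hY5 x hx] at hab
  simp at hab

end lay

end Pool.MP_22db8c_al.BD
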