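import Pool.Agent.H.MP_22db8c_al.helper22.Lay

set_option autoImplicit false

/-!
MP_22db8c_al, bounded degree: descent along the normal subgroups.
-/

namespace Pool.MP_22db8c_al.BD

/-- `C / A` is a chief factor -/
def IsChief {H : Type*} [Group H] (A C : Subgroup H) : Prop :=
  A.Normal ∧ C.Normal ∧ A < C ∧ ∀ M : Subgroup H, M.Normal → A ≤ M → M ≤ C → M = A ∨ M = C

section

variable {F : Type} [Group F]

theorem perfect_le (K C : Subgroup F) (hK : K.Normal) (r : ℕ) (hr : derivedSeries F r ≤ K)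
    (hC : C ≤ ⁅C, C⁆ ⊔ K) : C ≤ K := by
  have h1 : C.map (QuotientGroup.mk' K) ≤
      ⁅C.map (QuotientGroup.mk' K), C.map (QuotientGroup.mk' K)⁆ := by
    have h2 := Subgroup.map_mono (f := QuotientGroup.mk' K) hC
    rw [Subgroup.map_sup, Subgroup.map_commutator] at h2
    have h3 : K.map (QuotientGroup.mk' K) = ⊥ := by
      rw [Subgroup.map_eq_bot_iff, QuotientGroup.ker_mk']
    rw [h3, sup_bot_eq] at h2
    exact h2
  have h2 : ∀ n, C.map (QuotientGroup.mk' K) ≤ derivedSeries (F ⧸ K) n := by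
    intro n
    induction n with
    | zero => exact le_top
    | succ n ih =>
      exact h1.trans (Subgroup.commutator_mono ih ih)
  have h3 := h2 r
  rw [← map_derivedSeries_eq (QuotientGroup.mk'_surjective K)] at h3
  have h4 : (derivedSeries F r).map (QuotientGroup.mk' K) = ⊥ := by
    rw [Subgroup.map_eq_bot_iff, QuotientGroup.ker_mk']
    exact hr
  rw [h4, le_bot_iff, Subgroup.map_eq_bot_iff, QuotientGroup.ker_mk'] at h3
  exact h3

theorem IsChief.comap {A C : Subgroup F} (h : IsChief A C) (e : F ≃* F) :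
    IsChief (A.comap (e : F →* F)) (C.comap (e : F →* F)) := by
  obtain ⟨h1, h2, h3, h4⟩ := h
  have hs : Function.Surjective (e : F →* F) := e.surjective
  have hj : Function.Injective (e : F →* F) := e.injective
  refine ⟨h1.comap _, h2.comap _, (Subgroup.comap_lt_comap_of_surjective hs).2 h3, ?_⟩
  intro M hM hA hC
  have h5 := h4 (M.map (e : F →* F)) (hM.map _ hs) (by
    have := Subgroup.map_mono (f := (e : F →* F)) hA
    rwa [Subgroup.map_comap_eq_self_of_surjective hs] at this) (by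
    have := Subgroup.map_mono (f := (e : F →* F)) hC
    rwa [Subgroup.map_comap_eq_self_of_surjective hs] at this)
  rcases h5 with h5 | h5
  · left
    rw [← h5, Subgroup.comap_map_eq_self_of_injective hj]
  · right
    rw [← h5, Subgroup.comap_map_eq_self_of_injective hj]

theorem fin_above (K : Subgroup F) [K.Normal] [K.FiniteIndex] : Finite {H : Subgroup F // K ≤ H} := by
  have : Finite (F ⧸ K) := Subgroup.finite_quotient_of_finiteIndex
  exact Finite.of_equiv _ (QuotientGroup.comapMk'OrderIso K).toEquiv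

theorem fin_above_set (K : Subgroup F) [K.Normal] [K.FiniteIndex] (s : Set (Subgroup F))
    (hs : ∀ H ∈ s, K ≤ H) : s.Finite := by
  have := fin_above K
  have h1 : ({H : Subgroup F | K ≤ H} : Set (Subgroup F)).Finite := Set.finite_coe_iff.1 this
  exact h1.subset hs

end

section

variable {B F G : Type} [Group B] [Group F] [Group G] (α : B →* MulAut F)

/-- the factor `C / A` does not see the simple quotient of the stabiliser -/
def Kill (φ : B →* G) (A C : Subgroup F) : Prop :=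
  ∃ (V : Type) (_ : AddCommGroup V) (ρ : F →* AddMonoid.End V) (h : C →* Multiplicative V),
    IsDat A C ρ h ∧ ∀ hi : Inv α C, (St α C hi).map φ = ⊤ →
      ¬ ∀ u ∈ LL α ρ (St α C hi), φ u = 1

theorem main_lay [IsSimpleGroup G] (hna : ∃ a b : G, a * b ≠ b * a) (φ : B →* G)
    (hφ : Function.Surjective φ) (r : ℕ) :
    ∀ (n : ℕ) (K : Subgroup F) (_ : K.Normal) (hi : Inv α K) (_ : K.FiniteIndex) (_ : K.index = n)
      (_ : derivedSeries F r ≤ K)
      (_ : ∀ A C : Subgroup F, K ≤ A → IsChief A C → (∀ x ∈ C, ∀ y ∈ C, x * y * x⁻¹ * y⁻¹ ∈ A) →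
        Kill α φ A C), (St α K hi).map φ = ⊤ := by
  intro n
  induction n using Nat.strong_induction_on with
  | _ n ih =>
  intro K hKn hi hKf hind hr hkill
  by_cases hK : K = ⊤
  · rw [eq_top_iff]
    intro g _
    obtain ⟨u, rfl⟩ := hφ g
    exact ⟨u, fun w => by rw [hK]; trivial, rfl⟩
  -- the minimal invariant normal subgroup above `K`
  let s : Set (Subgroup F) := {M | M.Normal ∧ Inv α M ∧ K < M}
  have hsf : s.Finite := fin_above_set K s fun M hM => hM.2.2.le
  have hsn : s.Nonempty := ⟨⊤, inferInstance, fun u x _ => trivial, lt_top_iff_ne_top.2 hK⟩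
  obtain ⟨K₁, ⟨hK₁n, hi₁, hlt⟩, hmin⟩ := hsf.exists_minimal hsn
  have hmin2 : ∀ M : Subgroup F, M.Normal → Inv α M → K ≤ M → M ≤ K₁ → M ≠ K₁ → M = K := by
    intro M h1 h2 h3 h4 h5
    by_contra h6
    have h7 : K < M := lt_of_le_of_ne h3 (Ne.symm h6)
    exact h5 (le_antisymm h4 (hmin ⟨h1, h2, h7⟩ h4))
  -- the factor is abelian
  have hcomm : ⁅K₁, K₁⁆ ≤ K := by
    have h1 : (⁅K₁, K₁⁆ ⊔ K).Normal := inferInstance
    have h2 : Inv α (⁅K₁, K₁⁆ ⊔ K) := by
      intro u x hx
      have h3 : (⁅K₁, K₁⁆ ⊔ K).map (α u : F →* F) ≤ ⁅K₁, K₁⁆ ⊔ K := by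
        rw [Subgroup.map_sup, Subgroup.map_commutator]
        have h4 : K₁.map (α u : F →* F) ≤ K₁ := by
          rintro _ ⟨y, hy, rfl⟩
          exact hi₁ u y hy
        have h5 : K.map (α u : F →* F) ≤ K := by
          rintro _ ⟨y, hy, rfl⟩
          exact hi u y hy
        exact sup_le_sup (Subgroup.commutator_mono h4 h4) h5
      exact h3 ⟨x, hx, rfl⟩
    have h3 : ⁅K₁, K₁⁆ ⊔ K ≤ K₁ := sup_le (Subgroup.commutator_le_left _ _) hlt.le
    have h4 : ⁅K₁, K₁⁆ ⊔ K ≠ K₁ := by
      intro h5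
      exact not_le_of_gt hlt (perfect_le K K₁ hKn r hr h5.symm.le)
    have h5 := hmin2 _ h1 h2 le_sup_right h3 h4
    rw [← h5]
    exact le_sup_left
  have hab : ∀ x ∈ K₁, ∀ y ∈ K₁, x * y * x⁻¹ * y⁻¹ ∈ K := fun x hx y hy =>
    hcomm (Subgroup.commutator_mem_commutator hx hy)
  -- the index drops
  have hidx : K₁.index < n := by
    rw [← hind]
    exact Subgroup.index_strictAnti hlt
  have hK₁f : K₁.FiniteIndex := Subgroup.finiteIndex_of_le hlt.le
  have hS := ih _ hidx K₁ hK₁n hi₁ hK₁f rfl (hr.trans hlt.le)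
    (fun A C hA hch hc => hkill A C (hlt.le.trans hA) hch hc)
  -- the maximal subgroups
  let ι : Type := {A : Subgroup F // K ≤ A ∧ IsChief A K₁}
  have hιf : Finite ι := by
    have := fin_above K
    exact Finite.of_injective (fun A : ι => (⟨A.1, A.2.1⟩ : {H : Subgroup F // K ≤ H}))
      fun A A' h => Subtype.ext (congrArg (fun H : {H : Subgroup F // K ≤ H} => H.1) h)
  -- one exists
  have hex : Nonempty ι := by
    let t : Set (Subgroup F) := {M | M.Normal ∧ K ≤ M ∧ M < K₁}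
    have htf : t.Finite := fin_above_set K t fun M hM => hM.2.1
    have htn : t.Nonempty := ⟨K, hKn, le_rfl, hlt⟩
    obtain ⟨A, ⟨hA1, hA2, hA3⟩, hmax⟩ := htf.exists_maximal htn
    refine ⟨⟨A, hA2, hA1, hK₁n, hA3, fun M hM h1 h2 => ?_⟩⟩
    by_cases h3 : M = K₁
    · exact Or.inr h3
    · left
      exact le_antisymm (hmax ⟨hM, hA2.trans h1, lt_of_le_of_ne h2 h3⟩ h1) h1
  -- their intersection
  let N : Subgroup F := K₁ ⊓ ⨅ A : ι, A.1
  have hNm : ∀ x, x ∈ N ↔ x ∈ K₁ ∧ ∀ A : ι, x ∈ A.1 := by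
    intro x
    rw [Subgroup.mem_inf, Subgroup.mem_iInf]
  have hNn : N.Normal := by
    constructor
    intro x hx g
    rw [hNm] at hx ⊢
    exact ⟨hK₁n.conj_mem _ hx.1 g, fun A => A.2.2.1.conj_mem _ (hx.2 A) g⟩
  have hNi : Inv α N := by
    intro u x hx
    rw [hNm] at hx ⊢
    refine ⟨hi₁ u x hx.1, fun A => ?_⟩
    have h1 := A.2.2.comap (α u)
    have h2 : K₁.comap (α u : F →* F) = K₁ := by
      apply le_antisymm
      · intro y hy
        have := hi₁ u⁻¹ _ hy
        change α u⁻¹ (α u y) ∈ K₁ at this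
        rw [act_inv'] at this
        exact this
      · intro y hy
        exact hi₁ u y hy
    rw [h2] at h1
    have h3 := hx.2 ⟨A.1.comap (α u : F →* F), fun y hy => A.2.1 (hi u y hy), h1⟩
    exact h3
  have hNK : N = K := by
    refine hmin2 N hNn hNi (fun x hx => (hNm x).2 ⟨hlt.le hx, fun A => A.2.1 hx⟩) inf_le_left ?_
    intro h1
    obtain ⟨A⟩ := hex
    have h2 : N ≤ A.1 := inf_le_right.trans (iInf_le _ A)
    rw [h1] at h2
    exact not_le_of_gt A.2.2.2.2.1 h2
  have hk : ∀ A : ι, Kill α φ A.1 K₁ := fun A => hkill A.1 K₁ A.2.1 A.2.2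
    fun x hx y hy => A.2.1 (hab x hx y hy)
  choose V hV ρ h hd hkl using hk
  exact layer α hna φ K K₁ hK₁n hi hi₁ hab hS (fun A : ι => A.1)
    (fun x hx hx2 => by rw [← hNK]; exact (hNm x).2 ⟨hx, hx2⟩) V ρ h hd
    (fun A => hkl A hi₁ hS)

end

end Pool.MP_22db8c_al.BD
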