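import Pool.Agent.H.MP_22db8c_al.helper22.Kills

set_option autoImplicit false

/-!
MP_22db8c_al: chief factors on which the commutator of the two generators differs from the identity
by an operator of bounded rank.
-/

namespace Pool.MP_22db8c_al.BD

open FreeGroup (of)

/-- `C / A` is a vector space over some field on which the group acts linearly, and the commutator
of the generators minus the identity has rank at most `D` -/
def RankLE (D : ℕ) (A C : Subgroup (FreeGroup (Fin 2))) : Prop :=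
  ∃ (k : Type) (_ : Field k) (V : Type) (_ : AddCommGroup V) (_ : Module k V)
    (_ : FiniteDimensional k V) (ρ : FreeGroup (Fin 2) →* Module.End k V)
    (f : C →* Multiplicative V),
    Module.finrank k (LinearMap.range (ρ com - 1)) ≤ D ∧ Function.Surjective f ∧
      (∀ c : C, f c = 1 ↔ (c : FreeGroup (Fin 2)) ∈ A) ∧
      ∀ (h : FreeGroup (Fin 2)) (c c' : C), (c' : FreeGroup (Fin 2)) = h * c * h⁻¹ →
        Multiplicative.toAdd (f c') = ρ h (Multiplicative.toAdd (f c))

section lin

variable {k V : Type} [Field k] [AddCommGroup V] [Module k V]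

/-- the additive version of a linear action -/
def toAE (ρ : FreeGroup (Fin 2) →* Module.End k V) : FreeGroup (Fin 2) →* AddMonoid.End V where
  toFun w := (ρ w).toAddMonoidHom
  map_one' := by
    rw [map_one]
    rfl
  map_mul' x y := by
    rw [map_mul]
    rfl

theorem toAE_apply (ρ : FreeGroup (Fin 2) →* Module.End k V) (w : FreeGroup (Fin 2)) (v : V) :
    toAE ρ w v = ρ w v := rfl

/-- all derivations -/
def ZZ (ρ : FreeGroup (Fin 2) →* Module.End k V) : Submodule k (FreeGroup (Fin 2) → V) where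
  carrier := {z | IsCoc (toAE ρ) z}
  zero_mem' := by
    intro w w'
    simp
  add_mem' := by
    intro z z' hz hz' w w'
    change z (w * w') + z' (w * w') = (z w + z' w) + toAE ρ w (z w' + z' w')
    rw [hz, hz', map_add]
    abel
  smul_mem' := by
    intro c z hz w w'
    change c • z (w * w') = c • z w + ρ w (c • z w')
    rw [hz, smul_add, map_smul]
    rfl

/-- evaluation at the generators -/
def evG (ρ : FreeGroup (Fin 2) →* Module.End k V) : ZZ ρ →ₗ[k] V × V where
  toFun z := (z.1 (of 0), z.1 (of 1))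
  map_add' _ _ := rfl
  map_smul' _ _ := rfl

theorem evG_inj (ρ : FreeGroup (Fin 2) →* Module.End k V) : Function.Injective (evG ρ) := by
  intro z z' h
  apply Subtype.ext
  funext w
  exact coc_ext z.2 z'.2 (congrArg Prod.fst h) (congrArg Prod.snd h) w

theorem ZZ_fd [FiniteDimensional k V] (ρ : FreeGroup (Fin 2) →* Module.End k V) :
    FiniteDimensional k (ZZ ρ) := Module.Finite.of_injective (evG ρ) (evG_inj ρ)

theorem ZZ_rank [FiniteDimensional k V] (ρ : FreeGroup (Fin 2) →* Module.End k V) :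
    Module.finrank k (ZZ ρ) ≤ 2 * Module.finrank k V := by
  have h1 := LinearMap.finrank_le_finrank_of_injective (evG_inj ρ)
  rw [Module.finrank_prod] at h1
  omega

theorem ZZ_fin [Finite V] (ρ : FreeGroup (Fin 2) →* Module.End k V) : Finite (ZZ ρ) :=
  Finite.of_injective (evG ρ) (evG_inj ρ)

/-- evaluation at the commutator modulo the range -/
def evC (ρ : FreeGroup (Fin 2) →* Module.End k V) :
    ZZ ρ →ₗ[k] V ⧸ LinearMap.range (ρ com - 1) where
  toFun z := Submodule.Quotient.mk (z.1 com)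
  map_add' _ _ := rfl
  map_smul' _ _ := rfl

/-- the derivation of a vector -/
def bd (ρ : FreeGroup (Fin 2) →* Module.End k V) (v : V) : FreeGroup (Fin 2) → V :=
  fun w => ρ w v - v

theorem bd_coc (ρ : FreeGroup (Fin 2) →* Module.End k V) (v : V) : IsCoc (toAE ρ) (bd ρ v) := by
  intro w w'
  change ρ (w * w') v - v = (ρ w v - v) + ρ w (ρ w' v - v)
  rw [map_mul, map_sub, Module.End.mul_apply]
  abel

theorem evC_surj (ρ : FreeGroup (Fin 2) →* Module.End k V)
    (hV : ∀ v : V, ∃ x y, v = (ρ (of 0) x - x) + (ρ (of 1) y - y)) :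
    Function.Surjective (evC ρ) := by
  intro q
  obtain ⟨v, rfl⟩ := Submodule.Quotient.mk_surjective _ q
  obtain ⟨x, y, rfl⟩ := hV v
  obtain ⟨z, hz, h0, h1⟩ := coc_exists (toAE ρ) (-(ρ (of 0) y)) (x - (ρ (of 1) y - y))
  refine ⟨⟨z, hz⟩, ?_⟩
  change Submodule.Quotient.mk (z com) = _
  rw [Submodule.Quotient.eq, coc_com hz, h0, h1]
  simp only [toAE_apply]
  refine ⟨-(x - (ρ (of 1) y - y)), ?_⟩
  have e1 : ρ (of 0 * of 1 * (of 0)⁻¹) (-(ρ (of 0) y)) = - ρ (of 0) (ρ (of 1) y) := by
    rw [map_neg, ← Module.End.mul_apply, ← map_mul, inv_mul_cancel_right, map_mul,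
      Module.End.mul_apply]
  rw [e1]
  simp only [LinearMap.sub_apply, Module.End.one_apply, map_neg, map_sub]
  abel

/-- derivations whose value at the commutator is in the range -/
def Zc (ρ : FreeGroup (Fin 2) →* Module.End k V) : Submodule k (FreeGroup (Fin 2) → V) :=
  (LinearMap.ker (evC ρ)).map (ZZ ρ).subtype

theorem mem_Zc (ρ : FreeGroup (Fin 2) →* Module.End k V) (z : FreeGroup (Fin 2) → V) :
    z ∈ Zc ρ ↔ IsCoc (toAE ρ) z ∧ z com ∈ LinearMap.range (ρ com - 1) := by
  constructor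
  · rintro ⟨z', hz', rfl⟩
    refine ⟨z'.2, ?_⟩
    have h : (Submodule.Quotient.mk (z'.1 com) : V ⧸ LinearMap.range (ρ com - 1)) = 0 := hz'
    rw [Submodule.Quotient.mk_eq_zero] at h
    exact h
  · rintro ⟨h1, h2⟩
    refine ⟨⟨z, h1⟩, ?_, rfl⟩
    change (Submodule.Quotient.mk (z com) : V ⧸ LinearMap.range (ρ com - 1)) = 0
    rw [Submodule.Quotient.mk_eq_zero]
    exact h2

/-- the boundary map into `Zc` -/
def bdc (ρ : FreeGroup (Fin 2) →* Module.End k V) : V →ₗ[k] Zc ρ where
  toFun v := ⟨bd ρ v, (mem_Zc ρ _).2 ⟨bd_coc ρ v, ⟨v, by simp [bd]⟩⟩⟩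
  map_add' v w := by
    apply Subtype.ext
    funext x
    change ρ x (v + w) - (v + w) = (ρ x v - v) + (ρ x w - w)
    rw [map_add]
    abel
  map_smul' c v := by
    apply Subtype.ext
    funext x
    change ρ x (c • v) - c • v = c • (ρ x v - v)
    rw [map_smul, smul_sub]

theorem bdc_inj (ρ : FreeGroup (Fin 2) →* Module.End k V)
    (hV : ∀ v : V, (∀ w, ρ w v = v) → v = 0) : Function.Injective (bdc ρ) := by
  rw [← LinearMap.ker_eq_bot, LinearMap.ker_eq_bot']
  intro v hv
  apply hV
  intro w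
  have h := congrArg (fun z : Zc ρ => z.1 w) hv
  change ρ w v - v = 0 at h
  exact sub_eq_zero.1 h

/-- the parabolic cohomology -/
abbrev Hp (ρ : FreeGroup (Fin 2) →* Module.End k V) : Type := Zc ρ ⧸ LinearMap.range (bdc ρ)

theorem Zc_le (ρ : FreeGroup (Fin 2) →* Module.End k V) : Zc ρ ≤ ZZ ρ := fun z hz =>
  ((mem_Zc ρ z).1 hz).1

theorem Zc_fd [FiniteDimensional k V] (ρ : FreeGroup (Fin 2) →* Module.End k V) :
    FiniteDimensional k (Zc ρ) := by
  have := ZZ_fd ρ
  exact Module.Finite.of_injective (Submodule.inclusion (Zc_le ρ)) (Submodule.inclusion_injective _)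

theorem Hp_rank [FiniteDimensional k V] (ρ : FreeGroup (Fin 2) →* Module.End k V)
    (hV1 : ∀ v : V, (∀ w, ρ w v = v) → v = 0)
    (hV2 : ∀ v : V, ∃ x y, v = (ρ (of 0) x - x) + (ρ (of 1) y - y)) :
    Module.finrank k (Hp ρ) ≤ Module.finrank k (LinearMap.range (ρ com - 1)) := by
  have hfd := ZZ_fd ρ
  have hfd2 := Zc_fd ρ
  have h1 := LinearMap.finrank_range_add_finrank_ker (evC ρ)
  have h2 : LinearMap.range (evC ρ) = ⊤ := LinearMap.range_eq_top.2 (evC_surj ρ hV2)
  rw [h2, finrank_top] at h1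
  have h3 := Submodule.finrank_quotient_add_finrank (LinearMap.range (ρ com - 1))
  have h4 := Submodule.finrank_quotient_add_finrank (LinearMap.range (bdc ρ))
  have h5 : Module.finrank k (LinearMap.range (bdc ρ)) = Module.finrank k V :=
    LinearMap.finrank_range_of_inj (bdc_inj ρ hV1)
  have h6 := ZZ_rank ρ
  have h7 : Module.finrank k (Zc ρ) = Module.finrank k (LinearMap.ker (evC ρ)) :=
    Submodule.finrank_map_subtype_eq (ZZ ρ) (LinearMap.ker (evC ρ))
  change Module.finrank k (Zc ρ ⧸ LinearMap.range (bdc ρ)) ≤ _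
  omega

end lin

section kill

variable {B G : Type} [Group B] [Group G] (α : B →* MulAut (FreeGroup (Fin 2)))
variable {k V : Type} [Field k] [AddCommGroup V] [Module k V]

/-- the action on derivations -/
def RZ (ρ : FreeGroup (Fin 2) →* Module.End k V) (S : Subgroup B)
    (hS : ∀ s ∈ S, ∀ w, toAE ρ (α s w) = toAE ρ w) : S →* Module.End k (ZZ ρ) where
  toFun u :=
    { toFun := fun z => ⟨fun w => z.1 (α (u : B)⁻¹ w), coc_comp α (toAE ρ)
        (hS _ (S.inv_mem u.2)) z.2⟩
      map_add' := fun _ _ => rfl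
      map_smul' := fun _ _ => rfl }
  map_one' := by
    ext z w
    change z.1 (α (1 : B)⁻¹ w) = z.1 w
    rw [inv_one, map_one, MulAut.one_apply]
  map_mul' u v := by
    ext z w
    change z.1 (α ((u : B) * (v : B))⁻¹ w) = z.1 (α (v : B)⁻¹ (α (u : B)⁻¹ w))
    rw [mul_inv_rev, act_mul]

/-- the action on `Zc` -/
def RC (hc : ∀ u, α u com = com) (ρ : FreeGroup (Fin 2) →* Module.End k V) (S : Subgroup B)
    (hS : ∀ s ∈ S, ∀ w, toAE ρ (α s w) = toAE ρ w) : S →* Module.End k (Zc ρ) where
  toFun u :=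
    { toFun := fun z => ⟨fun w => z.1 (α (u : B)⁻¹ w), (mem_Zc ρ _).2 ⟨coc_comp α (toAE ρ)
        (hS _ (S.inv_mem u.2)) ((mem_Zc ρ _).1 z.2).1, by
          rw [hc]
          exact ((mem_Zc ρ _).1 z.2).2⟩⟩
      map_add' := fun _ _ => rfl
      map_smul' := fun _ _ => rfl }
  map_one' := by
    ext z w
    change z.1 (α (1 : B)⁻¹ w) = z.1 w
    rw [inv_one, map_one, MulAut.one_apply]
  map_mul' u v := by
    ext z w
    change z.1 (α ((u : B) * (v : B))⁻¹ w) = z.1 (α (v : B)⁻¹ (α (u : B)⁻¹ w))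
    rw [mul_inv_rev, act_mul]

theorem RC_bd (hc : ∀ u, α u com = com) (ρ : FreeGroup (Fin 2) →* Module.End k V)
    (S : Subgroup B) (hS : ∀ s ∈ S, ∀ w, toAE ρ (α s w) = toAE ρ w) (u : S) :
    LinearMap.range (bdc ρ) ≤ (LinearMap.range (bdc ρ)).comap (RC α hc ρ S hS u) := by
  rintro _ ⟨v, rfl⟩
  refine ⟨v, ?_⟩
  apply Subtype.ext
  funext w
  change ρ w v - v = ρ (α (u : B)⁻¹ w) v - v
  have h1 := hS _ (S.inv_mem u.2) w
  have h3 : ρ (α (u : B)⁻¹ w) v = ρ w v := DFunLike.congr_fun h1 v
  rw [h3]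

/-- the action on the parabolic cohomology -/
def RH (hc : ∀ u, α u com = com) (ρ : FreeGroup (Fin 2) →* Module.End k V) (S : Subgroup B)
    (hS : ∀ s ∈ S, ∀ w, toAE ρ (α s w) = toAE ρ w) : S →* Module.End k (Hp ρ) where
  toFun u := Submodule.mapQ _ _ (RC α hc ρ S hS u) (RC_bd α hc ρ S hS u)
  map_one' := by
    apply LinearMap.ext
    intro q
    obtain ⟨z, rfl⟩ := Submodule.Quotient.mk_surjective _ q
    change Submodule.Quotient.mk (RC α hc ρ S hS 1 z) = Submodule.Quotient.mk z
    rw [map_one]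
    rfl
  map_mul' := by
    intro u v
    apply LinearMap.ext
    intro q
    obtain ⟨z, rfl⟩ := Submodule.Quotient.mk_surjective _ q
    change Submodule.Quotient.mk (RC α hc ρ S hS (u * v) z) =
      Submodule.Quotient.mk (RC α hc ρ S hS u (RC α hc ρ S hS v z))
    rw [map_mul]
    rfl

theorem RH_apply (hc : ∀ u, α u com = com) (ρ : FreeGroup (Fin 2) →* Module.End k V)
    (S : Subgroup B) (hS : ∀ s ∈ S, ∀ w, toAE ρ (α s w) = toAE ρ w) (u : S)
    (h : RH α hc ρ S hS u = 1) (z : FreeGroup (Fin 2) → V) (hz : IsCoc (toAE ρ) z)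
    (hzc : z com ∈ LinearMap.range (ρ com - 1)) :
    ∃ v, ∀ w, z (α (u : B)⁻¹ w) - z w = ρ w v - v := by
  have h1 : RH α hc ρ S hS u (Submodule.Quotient.mk ⟨z, (mem_Zc ρ _).2 ⟨hz, hzc⟩⟩) =
      Submodule.Quotient.mk ⟨z, (mem_Zc ρ _).2 ⟨hz, hzc⟩⟩ := by
    rw [h]
    rfl
  have h2 := (Submodule.Quotient.eq (LinearMap.range (bdc ρ))).1 h1
  obtain ⟨v, hv⟩ := h2
  refine ⟨v, fun w => ?_⟩
  have h3 := congrArg (fun z : Zc ρ => z.1 w) hv
  exact h3.symm

theorem kill_rank (hc : ∀ u, α u com = com) (φ : B →* G) [Finite G] [IsSimpleGroup G]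
    (hna : ∃ a b : G, a * b ≠ b * a) (D : ℕ)
    (hG : ∀ p : ℕ, (p = 2 ∨ p = 3) → ∃ L : Subgroup G, IsPGroup p L ∧
      derivedSeries L (D + 2) ≠ ⊥)
    (A C : Subgroup (FreeGroup (Fin 2))) (hA : A.FiniteIndex) (hch : IsChief A C)
    (hrk : RankLE D A C) : Kill α φ A C := by
  obtain ⟨k, _, V, _, _, _, ρ, f, hD, hf1, hf2, hf3⟩ := hrk
  have hd : IsDat A C (toAE ρ) f := ⟨hf1, hf2, hf3⟩
  refine ⟨V, inferInstance, toAE ρ, f, hd, ?_⟩
  intro hi hS hkill
  have hV := hd.finite hA
  have hstab : ∀ s ∈ St α C hi, ∀ w, toAE ρ (α s w) = toAE ρ w :=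
    fun s hs w => hd.stab α hi s hs w
  -- irreducibility
  have hirr : ∀ U : Submodule k V, (∀ w, ∀ v ∈ U, ρ w v ∈ U) → U = ⊥ ∨ U = ⊤ := by
    intro U hU
    let M : Subgroup (FreeGroup (Fin 2)) :=
      { carrier := {x | ∃ hx : x ∈ C, Multiplicative.toAdd (f ⟨x, hx⟩) ∈ U}
        one_mem' := by
          refine ⟨C.one_mem, ?_⟩
          have : f ⟨1, C.one_mem⟩ = 1 := map_one f
          rw [this, toAdd_one]
          exact U.zero_mem
        mul_mem' := by
          rintro x y ⟨hx, hx2⟩ ⟨hy, hy2⟩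
          refine ⟨C.mul_mem hx hy, ?_⟩
          have : f ⟨x * y, C.mul_mem hx hy⟩ = f ⟨x, hx⟩ * f ⟨y, hy⟩ := map_mul f ⟨x, hx⟩ ⟨y, hy⟩
          rw [this, toAdd_mul]
          exact U.add_mem hx2 hy2
        inv_mem' := by
          rintro x ⟨hx, hx2⟩
          refine ⟨C.inv_mem hx, ?_⟩
          have : f ⟨x⁻¹, C.inv_mem hx⟩ = (f ⟨x, hx⟩)⁻¹ := map_inv f ⟨x, hx⟩
          rw [this, toAdd_inv]
          exact U.neg_mem hx2 }
    have hCn := hch.2.1
    have hMn : M.Normal := by
      constructor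
      rintro x ⟨hx, hx2⟩ g
      refine ⟨hCn.conj_mem _ hx g, ?_⟩
      rw [hf3 g ⟨x, hx⟩ ⟨g * x * g⁻¹, hCn.conj_mem _ hx g⟩ rfl]
      exact hU _ _ hx2
    have hAM : A ≤ M := by
      intro x hx
      refine ⟨hch.2.2.1.le hx, ?_⟩
      rw [(hf2 ⟨x, hch.2.2.1.le hx⟩).2 hx, toAdd_one]
      exact U.zero_mem
    rcases hch.2.2.2 M hMn hAM (fun x hx => hx.1) with h1 | h1
    · left
      rw [eq_bot_iff]
      intro v hv
      obtain ⟨c, hc⟩ := hf1 (Multiplicative.ofAdd v)
      have h2 : (c : FreeGroup (Fin 2)) ∈ M := ⟨c.2, by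
        change Multiplicative.toAdd (f c) ∈ U
        rw [hc]
        exact hv⟩
      rw [h1] at h2
      have h3 := (hf2 c).2 h2
      rw [hc] at h3
      exact (Submodule.mem_bot k).2 h3
    · right
      rw [eq_top_iff]
      intro v _
      obtain ⟨c, hc⟩ := hf1 (Multiplicative.ofAdd v)
      have h2 : (c : FreeGroup (Fin 2)) ∈ M := by rw [h1]; exact c.2
      obtain ⟨h3, h4⟩ := h2
      change Multiplicative.toAdd (f c) ∈ U at h4
      rw [hc] at h4
      exact h4
  -- the final contradiction from a representation of small dimension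
  have hψ : Function.Surjective (φ.comp (St α C hi).subtype) := by
    intro g
    obtain ⟨u, hu, rfl⟩ := ex_of_top hS g
    exact ⟨⟨u, hu⟩, rfl⟩
  have fin : ∀ (W : Type) [AddCommGroup W] [Module k W] [FiniteDimensional k W] [Finite W]
      (_ : Module.finrank k W ≤ D + 2) (R : St α C hi →* Module.End k W)
      (_ : ∀ s, R s = 1 → φ (s : B) = 1), False := by
    intro W _ _ _ _ hW R hR
    have main : ∀ p : ℕ, (p = 2 ∨ p = 3) → (p : k) ≠ 0 → False := by
      intro p hp hpk
      have hpf : Fact p.Prime := by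
        constructor
        rcases hp with rfl | rfl
        · exact Nat.prime_two
        · exact Nat.prime_three
      obtain ⟨L, hL1, hL2⟩ := hG p hp
      exact hL2 (lemP (D + 2) k W hW R (φ.comp (St α C hi).subtype) hψ (fun s hs => hR s hs) p hpk
        L hL1)
    by_cases h2 : (2 : k) = 0
    · refine main 3 (Or.inr rfl) ?_
      have : ((3 : ℕ) : k) = 2 + 1 := by push_cast; norm_num
      rw [this, h2, zero_add]
      exact one_ne_zero
    · exact main 2 (Or.inl rfl) (by push_cast; exact h2)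
  by_cases hfix : ∃ v : V, v ≠ 0 ∧ ∀ w, ρ w v = v
  · -- the trivial module
    obtain ⟨v, hv, hvw⟩ := hfix
    have h1 := hirr (Submodule.span k {v}) (by
      intro w x hx
      obtain ⟨c, rfl⟩ := Submodule.mem_span_singleton.1 hx
      rw [map_smul, hvw]
      exact hx)
    have h2 : Submodule.span k {v} = ⊤ := by
      rcases h1 with h1 | h1
      · exact absurd (Submodule.span_singleton_eq_bot.1 h1) hv
      · exact h1
    have h3 : Module.finrank k V ≤ 1 := by
      rw [← finrank_top k V, ← h2]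
      exact (finrank_span_singleton hv).le
    have h4 := ZZ_fd ρ
    have h5 := ZZ_rank ρ
    have h6 := ZZ_fin ρ
    refine fin (ZZ ρ) (by omega) (RZ α ρ (St α C hi) hstab) ?_
    intro u hu
    apply hkill
    refine ⟨u.2, fun z hz w => ?_⟩
    have h7 := congrArg (fun T : Module.End k (ZZ ρ) => (T ⟨z, hz⟩).1 (α (u : B) w)) hu
    change z (α (u : B)⁻¹ (α (u : B) w)) = z (α (u : B) w) at h7
    rw [act_inv'] at h7
    exact h7.symm
  · have hV1 : ∀ v : V, (∀ w, ρ w v = v) → v = 0 := by
      intro v hv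
      by_contra h
      exact hfix ⟨v, h, hv⟩
    -- no coinvariants
    have hV2 : ∀ v : V, ∃ x y, v = (ρ (of 0) x - x) + (ρ (of 1) y - y) := by
      let U : Submodule k V := LinearMap.range (ρ (of 0) - 1) ⊔ LinearMap.range (ρ (of 1) - 1)
      have hgen : ∀ w v, ρ w v - v ∈ U := by
        intro w
        induction w using FreeGroup.induction_on with
        | C1 => intro v; rw [map_one, Module.End.one_apply, sub_self]; exact U.zero_mem
        | of i =>
          intro v
          fin_cases i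
          · exact Submodule.mem_sup_left ⟨v, rfl⟩
          · exact Submodule.mem_sup_right ⟨v, rfl⟩
        | inv_of i ih =>
          intro v
          have h1 := ih (ρ (of i)⁻¹ v)
          rw [← Module.End.mul_apply, ← map_mul, mul_inv_cancel, map_one,
            Module.End.one_apply] at h1
          have h2 := U.neg_mem h1
          rw [neg_sub] at h2
          exact h2
        | mul a b ha hb =>
          intro v
          have h1 := U.add_mem (ha (ρ b v)) (hb v)
          rw [sub_add_sub_cancel] at h1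
          rw [map_mul]
          exact h1
      have h1 := hirr U (fun w v hv => by
        have h2 := U.add_mem (hgen w v) hv
        rw [sub_add_cancel] at h2
        exact h2)
      have h2 : U = ⊤ := by
        rcases h1 with h1 | h1
        · exfalso
          obtain ⟨c₀, hc₀, hc₀A⟩ := SetLike.exists_of_lt hch.2.2.1
          apply hc₀A
          have h3 : Multiplicative.toAdd (f ⟨c₀, hc₀⟩) = 0 := by
            apply hV1
            intro w
            have h4 := hgen w (Multiplicative.toAdd (f ⟨c₀, hc₀⟩))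
            rw [h1, Submodule.mem_bot] at h4
            exact sub_eq_zero.1 h4
          exact (hf2 ⟨c₀, hc₀⟩).1 h3
        · exact h1
      intro v
      have h3 : v ∈ U := by rw [h2]; trivial
      obtain ⟨_, ⟨x, rfl⟩, _, ⟨y, rfl⟩, rfl⟩ := Submodule.mem_sup.1 h3
      exact ⟨x, y, rfl⟩
    -- the elements acting trivially on the cohomology
    let L₂ : Subgroup B :=
      { carrier := {s | s ∈ St α C hi ∧ ∀ z : FreeGroup (Fin 2) → V, IsCoc (toAE ρ) z →
          ∃ v, ∀ w, z (α s w) - z w = ρ w v - v}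
        one_mem' := ⟨Subgroup.one_mem _, fun z _ => ⟨0, fun w => by simp⟩⟩
        mul_mem' := by
          rintro s t ⟨hs, hs2⟩ ⟨ht, ht2⟩
          refine ⟨Subgroup.mul_mem _ hs ht, fun z hz => ?_⟩
          obtain ⟨v, hv⟩ := hs2 z hz
          obtain ⟨v', hv'⟩ := ht2 z hz
          refine ⟨v + v', fun w => ?_⟩
          have h1 := hv (α t w)
          have h2 : ρ (α t w) v = ρ w v := DFunLike.congr_fun (hstab t ht w) v
          rw [h2] at h1
          have h3 := hv' w
          rw [act_mul, map_add, ← sub_add_sub_cancel (z (α s (α t w))) (z (α t w)) (z w), h1, h3]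
          abel
        inv_mem' := by
          rintro s ⟨hs, hs2⟩
          refine ⟨Subgroup.inv_mem _ hs, fun z hz => ?_⟩
          obtain ⟨v, hv⟩ := hs2 z hz
          refine ⟨-v, fun w => ?_⟩
          have h1 := hv (α s⁻¹ w)
          have h2 : ρ (α s⁻¹ w) v = ρ w v :=
            DFunLike.congr_fun (hstab s⁻¹ (Subgroup.inv_mem _ hs) w) v
          rw [act_inv, h2] at h1
          rw [← neg_sub, h1, map_neg]
          abel }
    have hL₂n : NormBy (St α C hi) L₂ := by
      rintro s hs u ⟨hu, hu2⟩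
      refine ⟨Subgroup.mul_mem _ (Subgroup.mul_mem _ hs hu) (Subgroup.inv_mem _ hs),
        fun z hz => ?_⟩
      obtain ⟨v, hv⟩ := hu2 _ (coc_comp α (toAE ρ) (hstab s hs) hz)
      refine ⟨v, fun w => ?_⟩
      have h1 := hv (α s⁻¹ w)
      have h2 : ρ (α s⁻¹ w) v = ρ w v :=
        DFunLike.congr_fun (hstab s⁻¹ (Subgroup.inv_mem _ hs) w) v
      rw [h2] at h1
      change z (α s (α u (α s⁻¹ w))) - z (α s (α s⁻¹ w)) = ρ w v - v at h1
      rw [act_inv] at h1
      rw [act_mul, act_mul]
      exact h1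
    have hL₂1 : ∀ x ∈ L₂, φ x = 1 := by
      refine abel_kill hna φ (St α C hi) L₂ hS hL₂n ?_
      rintro s ⟨hs, hs2⟩ t ⟨ht, ht2⟩
      have key : s * t * (t * s)⁻¹ ∈ LL α (toAE ρ) (St α C hi) := by
        refine ⟨Subgroup.mul_mem _ (Subgroup.mul_mem _ hs ht)
          (Subgroup.inv_mem _ (Subgroup.mul_mem _ ht hs)), fun z hz w' => ?_⟩
        obtain ⟨w, rfl⟩ : ∃ w, α (t * s) w = w' := ⟨α (t * s)⁻¹ w', act_inv α _ _⟩
        rw [act_mul, act_inv']
        obtain ⟨v, hv⟩ := hs2 z hz
        obtain ⟨v', hv'⟩ := ht2 z hz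
        have e1 : z (α (s * t) w) = z w + (ρ w v - v) + (ρ w v' - v') := by
          have h1 := hv (α t w)
          have h2 : ρ (α t w) v = ρ w v := DFunLike.congr_fun (hstab t ht w) v
          rw [h2] at h1
          rw [act_mul, eq_add_of_sub_eq h1, eq_add_of_sub_eq (hv' w)]
          abel
        have e2 : z (α (t * s) w) = z w + (ρ w v - v) + (ρ w v' - v') := by
          have h1 := hv' (α s w)
          have h2 : ρ (α s w) v' = ρ w v' := DFunLike.congr_fun (hstab s hs w) v'
          rw [h2] at h1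
          rw [act_mul, eq_add_of_sub_eq h1, eq_add_of_sub_eq (hv w)]
          abel
        rw [e1, e2]
      have h1 := hkill _ key
      rw [map_mul, map_inv, mul_inv_eq_one, map_mul, map_mul] at h1
      exact h1
    -- the elements acting trivially on the parabolic cohomology
    let L₁ : Subgroup B :=
      { carrier := {s | s ∈ St α C hi ∧ ∀ z : FreeGroup (Fin 2) → V, IsCoc (toAE ρ) z →
          z com ∈ LinearMap.range (ρ com - 1) → ∃ v, ∀ w, z (α s w) - z w = ρ w v - v}
        one_mem' := ⟨Subgroup.one_mem _, fun z _ _ => ⟨0, fun w => by simp⟩⟩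
        mul_mem' := by
          rintro s t ⟨hs, hs2⟩ ⟨ht, ht2⟩
          refine ⟨Subgroup.mul_mem _ hs ht, fun z hz hzc => ?_⟩
          obtain ⟨v, hv⟩ := hs2 z hz hzc
          obtain ⟨v', hv'⟩ := ht2 z hz hzc
          refine ⟨v + v', fun w => ?_⟩
          have h1 := hv (α t w)
          have h2 : ρ (α t w) v = ρ w v := DFunLike.congr_fun (hstab t ht w) v
          rw [h2] at h1
          have h3 := hv' w
          rw [act_mul, map_add, ← sub_add_sub_cancel (z (α s (α t w))) (z (α t w)) (z w), h1, h3]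
          abel
        inv_mem' := by
          rintro s ⟨hs, hs2⟩
          refine ⟨Subgroup.inv_mem _ hs, fun z hz hzc => ?_⟩
          obtain ⟨v, hv⟩ := hs2 z hz hzc
          refine ⟨-v, fun w => ?_⟩
          have h1 := hv (α s⁻¹ w)
          have h2 : ρ (α s⁻¹ w) v = ρ w v :=
            DFunLike.congr_fun (hstab s⁻¹ (Subgroup.inv_mem _ hs) w) v
          rw [act_inv, h2] at h1
          rw [← neg_sub, h1, map_neg]
          abel }
    have hL₁n : NormBy (St α C hi) L₁ := by
      rintro s hs u ⟨hu, hu2⟩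
      refine ⟨Subgroup.mul_mem _ (Subgroup.mul_mem _ hs hu) (Subgroup.inv_mem _ hs),
        fun z hz hzc => ?_⟩
      obtain ⟨v, hv⟩ := hu2 _ (coc_comp α (toAE ρ) (hstab s hs) hz) (by
        change z (α s com) ∈ _
        rw [hc]
        exact hzc)
      refine ⟨v, fun w => ?_⟩
      have h1 := hv (α s⁻¹ w)
      have h2 : ρ (α s⁻¹ w) v = ρ w v :=
        DFunLike.congr_fun (hstab s⁻¹ (Subgroup.inv_mem _ hs) w) v
      rw [h2] at h1
      change z (α s (α u (α s⁻¹ w))) - z (α s (α s⁻¹ w)) = ρ w v - v at h1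
      rw [act_inv] at h1
      rw [act_mul, act_mul]
      exact h1
    have hL₁1 : ∀ x ∈ L₁, φ x = 1 := by
      refine abel_kill hna φ (St α C hi) L₁ hS hL₁n ?_
      rintro s ⟨hs, hs2⟩ t ⟨ht, ht2⟩
      have key : s * t * (t * s)⁻¹ ∈ L₂ := by
        refine ⟨Subgroup.mul_mem _ (Subgroup.mul_mem _ hs ht)
          (Subgroup.inv_mem _ (Subgroup.mul_mem _ ht hs)), fun z hz => ?_⟩
        have e1 : ∀ s t : B, s ∈ St α C hi → t ∈ St α C hi →
            (∀ z : FreeGroup (Fin 2) → V, IsCoc (toAE ρ) z →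
              z com ∈ LinearMap.range (ρ com - 1) → ∃ v, ∀ w, z (α t w) - z w = ρ w v - v) →
            ∃ v, ∀ w, z (α (s * t) w) = z (α s w) + z (α t w) - z w + (ρ w v - v) := by
          intro s t hs ht ht2
          have hzs := coc_comp α (toAE ρ) (hstab s hs) hz
          have hy : IsCoc (toAE ρ) fun w => z (α s w) - z w := by
            intro w w'
            have h1 := hzs w w'
            have h2 := hz w w'
            change z (α s (w * w')) = z (α s w) + toAE ρ w (z (α s w')) at h1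
            change z (α s (w * w')) - z (w * w') = (z (α s w) - z w) +
              toAE ρ w (z (α s w') - z w')
            rw [h1, h2, map_sub]
            abel
          obtain ⟨v, hv⟩ := ht2 _ hy (by
            rw [hc, sub_self]
            exact Submodule.zero_mem _)
          refine ⟨v, fun w => ?_⟩
          have h1 := hv w
          change (z (α s (α t w)) - z (α t w)) - (z (α s w) - z w) = ρ w v - v at h1
          rw [act_mul, ← h1]
          abel
        obtain ⟨v, hv⟩ := e1 s t hs ht ht2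
        obtain ⟨v', hv'⟩ := e1 t s ht hs hs2
        refine ⟨v - v', fun w' => ?_⟩
        obtain ⟨w, rfl⟩ : ∃ w, α (t * s) w = w' := ⟨α (t * s)⁻¹ w', act_inv α _ _⟩
        have h2 : ∀ x, ρ (α (t * s) w) x = ρ w x := fun x =>
          DFunLike.congr_fun (hstab (t * s) (Subgroup.mul_mem _ ht hs) w) x
        rw [act_mul, act_inv', hv, hv', h2, map_sub]
        abel
      have h1 := hL₂1 _ key
      rw [map_mul, map_inv, mul_inv_eq_one, map_mul, map_mul] at h1
      exact h1
    -- conclude
    have h4 := Zc_fd ρ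
    have h5 := Hp_rank ρ hV1 hV2
    have h6 := ZZ_fin ρ
    have h7 : Finite (Zc ρ) :=
      Finite.of_injective (Submodule.inclusion (Zc_le ρ)) (Submodule.inclusion_injective _)
    have h8 : Finite (Hp ρ) := Finite.of_surjective _ (Submodule.Quotient.mk_surjective _)
    refine fin (Hp ρ) (by omega) (RH α hc ρ (St α C hi) hstab) ?_
    intro u hu
    apply hL₁1
    refine ⟨u.2, fun z hz hzc => ?_⟩
    obtain ⟨v, hv⟩ := RH_apply α hc ρ (St α C hi) hstab u hu z hz hzc
    refine ⟨-v, fun w => ?_⟩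
    have h9 := hv (α (u : B) w)
    have h10 : ρ (α (u : B) w) v = ρ w v := DFunLike.congr_fun (hstab u u.2 w) v
    rw [act_inv', h10] at h9
    rw [← neg_sub, h9, map_neg]
    abel

end kill

end Pool.MP_22db8c_al.BD
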