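import Mathlib

set_option autoImplicit false

/-!
MP_22db8c_al, bounded degree: the group generated by `(1 2; 0 1)` and `(1 0; 2 1)` is free and has
index two in the principal congruence subgroup of level two.
-/

namespace Pool.MP_22db8c_al.BD

open Matrix
open scoped Pointwise

/-- the principal congruence subgroup -/
abbrev G2 : Type := CongruenceSubgroup.Gamma 2

/-- the generator `(1 2; 0 1)` -/
def gA : G2 :=
  ⟨⟨!![1, 2; 0, 1], by simp [Matrix.det_fin_two_of]⟩, by
    rw [CongruenceSubgroup.Gamma_mem]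
    refine ⟨?_, ?_, ?_, ?_⟩ <;> (simp; try decide)⟩

/-- the generator `(1 0; 2 1)` -/
def gB : G2 :=
  ⟨⟨!![1, 0; 2, 1], by simp [Matrix.det_fin_two_of]⟩, by
    rw [CongruenceSubgroup.Gamma_mem]
    refine ⟨?_, ?_, ?_, ?_⟩ <;> (simp; try decide)⟩

/-- the element `-1` -/
def gN : G2 :=
  ⟨⟨!![-1, 0; 0, -1], by simp [Matrix.det_fin_two_of]⟩, by
    rw [CongruenceSubgroup.Gamma_mem]
    refine ⟨?_, ?_, ?_, ?_⟩ <;> (simp; try decide)⟩

/-- the homomorphism from the free group -/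
def sv : FreeGroup (Fin 2) →* G2 := FreeGroup.lift ![gA, gB]

theorem sv_0 : sv (FreeGroup.of 0) = gA := by simp [sv]
theorem sv_1 : sv (FreeGroup.of 1) = gB := by simp [sv]

/-- nonzero vectors -/
abbrev Vec : Type := {v : ℤ × ℤ // v ≠ 0}

/-- the action on vectors -/
def actv (M : Matrix (Fin 2) (Fin 2) ℤ) (v : ℤ × ℤ) : ℤ × ℤ :=
  (M 0 0 * v.1 + M 0 1 * v.2, M 1 0 * v.1 + M 1 1 * v.2)

theorem actv_one (v : ℤ × ℤ) : actv 1 v = v := by
  simp [actv]

theorem actv_mul (M N : Matrix (Fin 2) (Fin 2) ℤ) (v : ℤ × ℤ) :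
    actv (M * N) v = actv M (actv N v) := by
  simp only [actv, Matrix.mul_apply, Fin.sum_univ_two]
  ext
  · simp only
    ring
  · simp only
    ring

theorem actv_zero (M : Matrix (Fin 2) (Fin 2) ℤ) : actv M 0 = 0 := by
  simp [actv]

/-- the underlying matrix -/
def toM : G2 →* Matrix (Fin 2) (Fin 2) ℤ where
  toFun g := ((g : SpecialLinearGroup (Fin 2) ℤ) : Matrix (Fin 2) (Fin 2) ℤ)
  map_one' := rfl
  map_mul' _ _ := rfl

instance : MulAction G2 Vec where
  smul g v := ⟨actv (toM g) v.1, by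
    intro h
    apply v.2
    have h1 : actv (toM g⁻¹) (actv (toM g) v.1) = v.1 := by
      rw [← actv_mul, ← map_mul, inv_mul_cancel, map_one, actv_one]
    rw [← h1, h, actv_zero]⟩
  one_smul v := Subtype.ext (by
    change actv (toM 1) v.1 = v.1
    rw [map_one, actv_one])
  mul_smul g h v := Subtype.ext (by
    change actv (toM (g * h)) v.1 = actv (toM g) (actv (toM h) v.1)
    rw [map_mul, actv_mul])

theorem smul_val (g : G2) (v : Vec) : (g • v : Vec).1 = actv (toM g) v.1 := rfl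

/-- attracting sets -/
def Xs : Fin 2 → Set Vec := ![{v | |v.1.2| < |v.1.1| ∧ 0 ≤ v.1.1 * v.1.2},
  {v | |v.1.1| ≤ |v.1.2| ∧ 0 ≤ v.1.1 * v.1.2}]

/-- repelling sets -/
def Ys : Fin 2 → Set Vec := ![{v | |v.1.2| ≤ |v.1.1| ∧ v.1.1 * v.1.2 < 0},
  {v | |v.1.1| < |v.1.2| ∧ v.1.1 * v.1.2 < 0}]

theorem ineq1 (p q : ℤ) (h0 : ¬ (p = 0 ∧ q = 0)) (h : ¬ (|q| ≤ |p| ∧ p * q < 0)) :
    |q| < |p + 2 * q| ∧ 0 ≤ (p + 2 * q) * q := by
  rcases lt_trichotomy q 0 with hq | hq | hq
  · have h1 : p + q < 0 := by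
      by_contra h2
      apply h
      have hp : 0 < p := by omega
      exact ⟨by rw [abs_of_neg hq, abs_of_pos hp]; omega, mul_neg_of_pos_of_neg hp hq⟩
    exact ⟨by rw [abs_of_neg hq, abs_of_neg (by omega)]; omega,
      (mul_pos_of_neg_of_neg (by omega) hq).le⟩
  · subst hq
    have hp : p ≠ 0 := fun hp => h0 ⟨hp, rfl⟩
    refine ⟨?_, by simp⟩
    rw [abs_zero, mul_zero, add_zero]
    exact abs_pos.2 hp
  · have h1 : 0 < p + q := by
      by_contra h2
      apply h
      have hp : p < 0 := by omega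
      exact ⟨by rw [abs_of_pos hq, abs_of_neg hp]; omega, mul_neg_of_neg_of_pos hp hq⟩
    exact ⟨by rw [abs_of_pos hq, abs_of_pos (by omega)]; omega, (mul_pos (by omega) hq).le⟩

theorem ineq2 (p q : ℤ) (h0 : ¬ (p = 0 ∧ q = 0)) (h : ¬ (|q| < |p| ∧ 0 ≤ p * q)) :
    |q| ≤ |p - 2 * q| ∧ (p - 2 * q) * q < 0 := by
  rcases lt_trichotomy q 0 with hq | hq | hq
  · have h1 : q ≤ p := by
      by_contra h2
      apply h
      have hp : p < 0 := by omega
      exact ⟨by rw [abs_of_neg hq, abs_of_neg hp]; omega, (mul_pos_of_neg_of_neg hp hq).le⟩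
    exact ⟨by rw [abs_of_neg hq, abs_of_pos (by omega)]; omega,
      mul_neg_of_pos_of_neg (by omega) hq⟩
  · subst hq
    exfalso
    apply h
    have hp : p ≠ 0 := fun hp => h0 ⟨hp, rfl⟩
    exact ⟨by rw [abs_zero]; exact abs_pos.2 hp, by simp⟩
  · have h1 : p ≤ q := by
      by_contra h2
      apply h
      have hp : 0 < p := by omega
      exact ⟨by rw [abs_of_pos hq, abs_of_pos hp]; omega, (mul_pos hp hq).le⟩
    exact ⟨by rw [abs_of_pos hq, abs_of_neg (by omega)]; omega,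
      mul_neg_of_neg_of_pos (by omega) hq⟩

theorem ineq3 (p q : ℤ) (h : ¬ (|p| < |q| ∧ p * q < 0)) :
    |p| ≤ |q + 2 * p| ∧ 0 ≤ p * (q + 2 * p) := by
  rcases lt_trichotomy p 0 with hp | hp | hp
  · have h1 : p + q ≤ 0 := by
      by_contra h2
      apply h
      have hq : 0 < q := by omega
      exact ⟨by rw [abs_of_neg hp, abs_of_pos hq]; omega, mul_neg_of_neg_of_pos hp hq⟩
    exact ⟨by rw [abs_of_neg hp, abs_of_neg (by omega)]; omega,
      (mul_pos_of_neg_of_neg hp (by omega)).le⟩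
  · subst hp
    refine ⟨by rw [abs_zero]; exact abs_nonneg _, by simp⟩
  · have h1 : 0 ≤ p + q := by
      by_contra h2
      apply h
      have hq : q < 0 := by omega
      exact ⟨by rw [abs_of_pos hp, abs_of_neg hq]; omega, mul_neg_of_pos_of_neg hp hq⟩
    exact ⟨by rw [abs_of_pos hp, abs_of_pos (by omega)]; omega, (mul_pos hp (by omega)).le⟩

theorem ineq4 (p q : ℤ) (h : ¬ (|p| ≤ |q| ∧ 0 ≤ p * q)) :
    |p| < |q - 2 * p| ∧ p * (q - 2 * p) < 0 := by
  rcases lt_trichotomy p 0 with hp | hp | hp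
  · have h1 : p < q := by
      by_contra h2
      apply h
      have hq : q < 0 := by omega
      exact ⟨by rw [abs_of_neg hp, abs_of_neg hq]; omega, (mul_pos_of_neg_of_neg hp hq).le⟩
    exact ⟨by rw [abs_of_neg hp, abs_of_pos (by omega)]; omega,
      mul_neg_of_neg_of_pos hp (by omega)⟩
  · subst hp
    exfalso
    apply h
    exact ⟨by rw [abs_zero]; exact abs_nonneg _, by simp⟩
  · have h1 : q < p := by
      by_contra h2
      apply h
      have hq : 0 < q := by omega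
      exact ⟨by rw [abs_of_pos hp, abs_of_pos hq]; omega, (mul_pos hp hq).le⟩
    exact ⟨by rw [abs_of_pos hp, abs_of_neg (by omega)]; omega,
      mul_neg_of_pos_of_neg hp (by omega)⟩

theorem gA_act (v : ℤ × ℤ) : actv (toM gA) v = (v.1 + 2 * v.2, v.2) := by
  change actv !![1, 2; 0, 1] v = _
  simp [actv]

theorem gAi_act (v : ℤ × ℤ) : actv (toM gA⁻¹) v = (v.1 - 2 * v.2, v.2) := by
  have h : actv (toM gA⁻¹) (actv (toM gA) (v.1 - 2 * v.2, v.2)) = (v.1 - 2 * v.2, v.2) := by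
    rw [← actv_mul, ← map_mul, inv_mul_cancel, map_one, actv_one]
  rw [gA_act] at h
  simpa using h

theorem gB_act (v : ℤ × ℤ) : actv (toM gB) v = (v.1, v.2 + 2 * v.1) := by
  change actv !![1, 0; 2, 1] v = _
  simp [actv, add_comm]

theorem gBi_act (v : ℤ × ℤ) : actv (toM gB⁻¹) v = (v.1, v.2 - 2 * v.1) := by
  have h : actv (toM gB⁻¹) (actv (toM gB) (v.1, v.2 - 2 * v.1)) = (v.1, v.2 - 2 * v.1) := by
    rw [← actv_mul, ← map_mul, inv_mul_cancel, map_one, actv_one]
  rw [gB_act] at h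
  simpa using h

theorem sv_inj : Function.Injective sv := by
  refine FreeGroup.injective_lift_of_ping_pong ![gA, gB] Xs Ys ?_ ?_ ?_ ?_ ?_ ?_
  · intro i
    fin_cases i
    · exact ⟨⟨(1, 0), by simp⟩, by change |(0 : ℤ)| < |(1 : ℤ)| ∧ (0 : ℤ) ≤ 1 * 0; simp⟩
    · exact ⟨⟨(0, 1), by simp⟩, by change |(0 : ℤ)| ≤ |(1 : ℤ)| ∧ (0 : ℤ) ≤ 0 * 1; simp⟩
  · have h : Disjoint (Xs 0) (Xs 1) := by
      rw [Set.disjoint_left]
      rintro v ⟨h1, _⟩ ⟨h2, _⟩
      exact absurd h1 (not_lt.2 h2)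
    intro i j hij
    fin_cases i <;> fin_cases j
    · exact absurd rfl hij
    · exact h
    · exact h.symm
    · exact absurd rfl hij
  · have h : Disjoint (Ys 0) (Ys 1) := by
      rw [Set.disjoint_left]
      rintro v ⟨h1, _⟩ ⟨h2, _⟩
      exact absurd h2 (not_lt.2 h1)
    intro i j hij
    fin_cases i <;> fin_cases j
    · exact absurd rfl hij
    · exact h
    · exact h.symm
    · exact absurd rfl hij
  · intro i j
    rw [Set.disjoint_left]
    intro v h1 h2
    have e1 : 0 ≤ v.1.1 * v.1.2 := by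
      fin_cases i
      · exact h1.2
      · exact h1.2
    have e2 : v.1.1 * v.1.2 < 0 := by
      fin_cases j
      · exact h2.2
      · exact h2.2
    exact absurd e2 (not_lt.2 e1)
  · intro i
    fin_cases i
    · rintro _ ⟨v, hv, rfl⟩
      have h1 := ineq1 v.1.1 v.1.2 (fun h => v.2 (Prod.ext h.1 h.2)) hv
      change |(actv (toM gA) v.1).2| < |(actv (toM gA) v.1).1| ∧
        0 ≤ (actv (toM gA) v.1).1 * (actv (toM gA) v.1).2
      rw [gA_act]
      exact h1
    · rintro _ ⟨v, hv, rfl⟩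
      have h1 := ineq3 v.1.1 v.1.2 hv
      change |(actv (toM gB) v.1).1| ≤ |(actv (toM gB) v.1).2| ∧
        0 ≤ (actv (toM gB) v.1).1 * (actv (toM gB) v.1).2
      rw [gB_act]
      exact h1
  · intro i
    fin_cases i
    · rintro _ ⟨v, hv, rfl⟩
      have h1 := ineq2 v.1.1 v.1.2 (fun h => v.2 (Prod.ext h.1 h.2)) hv
      change |(actv (toM gA⁻¹) v.1).2| ≤ |(actv (toM gA⁻¹) v.1).1| ∧
        (actv (toM gA⁻¹) v.1).1 * (actv (toM gA⁻¹) v.1).2 < 0
      rw [gAi_act]
      exact h1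
    · rintro _ ⟨v, hv, rfl⟩
      have h1 := ineq4 v.1.1 v.1.2 hv
      change |(actv (toM gB⁻¹) v.1).1| < |(actv (toM gB⁻¹) v.1).2| ∧
        (actv (toM gB⁻¹) v.1).1 * (actv (toM gB⁻¹) v.1).2 < 0
      rw [gBi_act]
      exact h1

/-! ### generation -/

/-- the set of elements `± sv u` -/
def Good (M : G2) : Prop := ∃ u : FreeGroup (Fin 2), M = sv u ∨ M = gN * sv u

theorem Good.of_mul {M : G2} (v : FreeGroup (Fin 2)) (h : Good (M * sv v)) : Good M := by
  obtain ⟨u, hu⟩ := h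
  refine ⟨u * v⁻¹, ?_⟩
  rw [map_mul, map_inv]
  rcases hu with hu | hu
  · left
    rw [← hu]
    group
  · right
    rw [← mul_assoc, ← hu]
    group

theorem toM_inj : Function.Injective toM := by
  intro x y h
  exact Subtype.ext (Subtype.ext h)

theorem ent_mul_A (M : G2) : toM (M * gA) = !![toM M 0 0, 2 * toM M 0 0 + toM M 0 1;
    toM M 1 0, 2 * toM M 1 0 + toM M 1 1] := by
  rw [map_mul]
  change toM M * !![1, 2; 0, 1] = _
  ext i j
  fin_cases i <;> fin_cases j <;> simp [Matrix.mul_apply, Fin.sum_univ_two] <;> ring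

theorem ent_mul_B (M : G2) : toM (M * gB) = !![toM M 0 0 + 2 * toM M 0 1, toM M 0 1;
    toM M 1 0 + 2 * toM M 1 1, toM M 1 1] := by
  rw [map_mul]
  change toM M * !![1, 0; 2, 1] = _
  ext i j
  fin_cases i <;> fin_cases j <;> simp [Matrix.mul_apply, Fin.sum_univ_two] <;> ring

theorem toM_Ai : toM gA⁻¹ = !![1, -2; 0, 1] := by
  have h : toM gA * toM gA⁻¹ = 1 := by rw [← map_mul, mul_inv_cancel, map_one]
  have h2 : toM gA * !![1, -2; 0, 1] = 1 := by
    change !![1, 2; 0, 1] * !![1, -2; 0, 1] = 1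
    ext i j
    fin_cases i <;> fin_cases j <;> simp [Matrix.mul_apply, Fin.sum_univ_two]
  have h3 : toM gA⁻¹ * toM gA = 1 := by rw [← map_mul, inv_mul_cancel, map_one]
  calc toM gA⁻¹ = toM gA⁻¹ * (toM gA * !![1, -2; 0, 1]) := by rw [h2, mul_one]
    _ = !![1, -2; 0, 1] := by rw [← mul_assoc, h3, one_mul]

theorem toM_Bi : toM gB⁻¹ = !![1, 0; -2, 1] := by
  have h2 : toM gB * !![1, 0; -2, 1] = 1 := by
    change !![1, 0; 2, 1] * !![1, 0; -2, 1] = 1
    ext i j
    fin_cases i <;> fin_cases j <;> simp [Matrix.mul_apply, Fin.sum_univ_two]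
  have h3 : toM gB⁻¹ * toM gB = 1 := by rw [← map_mul, inv_mul_cancel, map_one]
  calc toM gB⁻¹ = toM gB⁻¹ * (toM gB * !![1, 0; -2, 1]) := by rw [h2, mul_one]
    _ = !![1, 0; -2, 1] := by rw [← mul_assoc, h3, one_mul]

theorem ent_mul_Ai (M : G2) : toM (M * gA⁻¹) = !![toM M 0 0, toM M 0 1 - 2 * toM M 0 0;
    toM M 1 0, toM M 1 1 - 2 * toM M 1 0] := by
  rw [map_mul, toM_Ai]
  ext i j
  fin_cases i <;> fin_cases j <;> simp [Matrix.mul_apply, Fin.sum_univ_two] <;> ring

theorem ent_mul_Bi (M : G2) : toM (M * gB⁻¹) = !![toM M 0 0 - 2 * toM M 0 1, toM M 0 1;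
    toM M 1 0 - 2 * toM M 1 1, toM M 1 1] := by
  rw [map_mul, toM_Bi]
  ext i j
  fin_cases i <;> fin_cases j <;> simp [Matrix.mul_apply, Fin.sum_univ_two] <;> ring

theorem det_eq (M : G2) : toM M 0 0 * toM M 1 1 - toM M 0 1 * toM M 1 0 = 1 := by
  have h := M.1.2
  rw [Matrix.det_fin_two] at h
  exact h

theorem parity (M : G2) : toM M 0 0 % 2 = 1 ∧ toM M 0 1 % 2 = 0 ∧ toM M 1 0 % 2 = 0 ∧
    toM M 1 1 % 2 = 1 := by
  have h := (CongruenceSubgroup.Gamma_mem).1 M.2
  obtain ⟨h1, h2, h3, h4⟩ := h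
  have e : ∀ x : ℤ, ((x : ZMod 2) = 1 → x % 2 = 1) ∧ ((x : ZMod 2) = 0 → x % 2 = 0) := by
    intro x
    constructor
    · intro hx
      have : ((x : ℤ) : ZMod 2) = ((1 : ℤ) : ZMod 2) := by rw [hx]; simp
      rw [ZMod.intCast_eq_intCast_iff] at this
      exact this
    · intro hx
      have : ((x : ℤ) : ZMod 2) = ((0 : ℤ) : ZMod 2) := by rw [hx]; simp
      rw [ZMod.intCast_eq_intCast_iff] at this
      exact this
  exact ⟨(e _).1 h1, (e _).2 h2, (e _).2 h3, (e _).1 h4⟩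

theorem good_lower (n : ℕ) : ∀ M : G2, toM M 0 1 = 0 → (toM M 1 0).natAbs = n → Good M := by
  induction n using Nat.strong_induction_on with
  | _ n ih =>
    intro M h01 hn
    have hdet := det_eq M
    rw [h01, zero_mul, sub_zero] at hdet
    have hcases : (toM M 0 0 = 1 ∧ toM M 1 1 = 1) ∨ (toM M 0 0 = -1 ∧ toM M 1 1 = -1) :=
      Int.mul_eq_one_iff_eq_one_or_neg_one.1 hdet
    obtain ⟨-, -, hp, -⟩ := parity M
    by_cases hc : toM M 1 0 = 0
    · rcases hcases with ⟨h1, h2⟩ | ⟨h1, h2⟩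
      · refine ⟨1, Or.inl ?_⟩
        apply toM_inj
        rw [map_one, map_one]
        ext i j
        fin_cases i <;> fin_cases j
        · exact h1
        · exact h01
        · exact hc
        · exact h2
      · refine ⟨1, Or.inr ?_⟩
        apply toM_inj
        rw [map_one, mul_one]
        ext i j
        fin_cases i <;> fin_cases j
        · exact h1
        · exact h01
        · exact hc
        · exact h2
    · have hB : ∀ c' : ℤ, toM (M * gB) 1 0 = c' → c'.natAbs < n → Good M := by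
        intro c' h1 h2
        refine Good.of_mul (FreeGroup.of 1) ?_
        rw [sv_1]
        refine ih _ h2 (M * gB) ?_ (by rw [h1])
        rw [ent_mul_B]
        exact h01
      have hBi : ∀ c' : ℤ, toM (M * gB⁻¹) 1 0 = c' → c'.natAbs < n → Good M := by
        intro c' h1 h2
        refine Good.of_mul (FreeGroup.of 1)⁻¹ ?_
        rw [map_inv, sv_1]
        refine ih _ h2 (M * gB⁻¹) ?_ (by rw [h1])
        rw [ent_mul_Bi]
        exact h01
      have e1 : toM (M * gB) 1 0 = toM M 1 0 + 2 * toM M 1 1 := by rw [ent_mul_B]; rfl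
      have e2 : toM (M * gB⁻¹) 1 0 = toM M 1 0 - 2 * toM M 1 1 := by rw [ent_mul_Bi]; rfl
      by_cases hs : (toM M 1 0 + 2 * toM M 1 1).natAbs < n
      · exact hB _ e1 hs
      · refine hBi _ e2 ?_
        rcases hcases with ⟨_, h2⟩ | ⟨_, h2⟩
        · rw [h2] at hs ⊢
          omega
        · rw [h2] at hs ⊢
          omega

theorem good_all (n : ℕ) : ∀ M : G2, (toM M 0 0).natAbs + (toM M 0 1).natAbs = n → Good M := by
  induction n using Nat.strong_induction_on with
  | _ n ih =>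
    intro M hn
    obtain ⟨hp1, hp2, -, -⟩ := parity M
    by_cases h01 : toM M 0 1 = 0
    · exact good_lower _ M h01 rfl
    · have hA : ((toM M 0 0).natAbs + (toM M 0 1 + 2 * toM M 0 0).natAbs < n) → Good M := by
        intro h2
        refine Good.of_mul (FreeGroup.of 0) ?_
        rw [sv_0]
        refine ih _ h2 (M * gA) ?_
        rw [ent_mul_A]
        change (toM M 0 0).natAbs + (2 * toM M 0 0 + toM M 0 1).natAbs = _
        rw [add_comm (2 * toM M 0 0)]
      have hAi : ((toM M 0 0).natAbs + (toM M 0 1 - 2 * toM M 0 0).natAbs < n) → Good M := by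
        intro h2
        refine Good.of_mul (FreeGroup.of 0)⁻¹ ?_
        rw [map_inv, sv_0]
        refine ih _ h2 (M * gA⁻¹) ?_
        rw [ent_mul_Ai]
        rfl
      have hB : ((toM M 0 0 + 2 * toM M 0 1).natAbs + (toM M 0 1).natAbs < n) → Good M := by
        intro h2
        refine Good.of_mul (FreeGroup.of 1) ?_
        rw [sv_1]
        refine ih _ h2 (M * gB) ?_
        rw [ent_mul_B]
        rfl
      have hBi : ((toM M 0 0 - 2 * toM M 0 1).natAbs + (toM M 0 1).natAbs < n) → Good M := by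
        intro h2
        refine Good.of_mul (FreeGroup.of 1)⁻¹ ?_
        rw [map_inv, sv_1]
        refine ih _ h2 (M * gB⁻¹) ?_
        rw [ent_mul_Bi]
        rfl
      have key : ((toM M 0 0).natAbs + (toM M 0 1 + 2 * toM M 0 0).natAbs < n) ∨
          ((toM M 0 0).natAbs + (toM M 0 1 - 2 * toM M 0 0).natAbs < n) ∨
          ((toM M 0 0 + 2 * toM M 0 1).natAbs + (toM M 0 1).natAbs < n) ∨
          ((toM M 0 0 - 2 * toM M 0 1).natAbs + (toM M 0 1).natAbs < n) := by
        omega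
      rcases key with h | h | h | h
      · exact hA h
      · exact hAi h
      · exact hB h
      · exact hBi h

end Pool.MP_22db8c_al.BD
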